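import Pool.Agent.W901.NU.ClsDefs

/-!
# Prediction with a given advantage inside a class of sets
-/

set_option autoImplicit false

namespace Pool.Agent.W901.NU

open Pool.Agent.NPC Pool.Agent.H251R5.PQ Pool.Agent.W901.AT

/-- The predictions `h` for the questions `y ∈ A?`, `y` in the list `qs`, beat random guessing by `T`
standard deviations: `s > 0` predictions are made, and the number of right predictions differs from
the number of wrong predictions by at least `T * √ s`. -/
def BeatsBy (T : ℝ) (A : Set (List Bool)) (qs : List (List Bool)) (h : List (Option Bool)) : Prop :=
  h.length = qs.length ∧ 0 < made h ∧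
    T * Real.sqrt (made h) ≤ |(excess h (answers A qs) : ℝ)|

/-- `A` is `(f, ε)`-predictable in the class `C`: some function computable in `C` computes, for every
nonempty list of `m` questions about membership in `A`, each of length at most `m ^ ε`, and for some
hint of `b * (⌊log₂ n⌋ + 1)` bits, where `n` is the length of the coded list (`b` is fixed; the hint
may depend on the list in any way), predictions for some of the questions which beat random guessing
by `f m` standard deviations. -/
def PredIn (C : Set (List Bool) → Prop) (f : ℕ → ℝ) (ε : ℝ) (A : Set (List Bool)) : Prop :=
  ∃ (g : List Bool → List (Option Bool)) (b : ℕ), FnIn C g ∧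
    ∀ qs : List (List Bool), qs ≠ [] → (∀ y ∈ qs, (y.length : ℝ) ≤ (qs.length : ℝ) ^ ε) →
      ∃ t : List Bool, t.length = b * (Nat.log 2 (bits qs).length + 1) ∧
        BeatsBy (f qs.length) A qs (g (pairBits (bits qs) t))

/-- `A` is fully `f`-predictable in the class `C`: the same with predictions for all questions, for
all nonempty lists of questions of any length, and without hints. -/
def FullyPredIn (C : Set (List Bool) → Prop) (f : ℕ → ℝ) (A : Set (List Bool)) : Prop :=
  ∃ g : List Bool → List (Option Bool), FnIn C g ∧
    ∀ qs : List (List Bool), qs ≠ [] → BeatsBy (f qs.length) A qs (g (bits qs)) ∧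
      ∀ a ∈ g (bits qs), a ≠ none

end Pool.Agent.W901.NU
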