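import Pool.Agent.W901.NU.DefsA
import Pool.Agent.W901.NU.ShDefs

/-!
# Prediction with a given advantage and with polynomial advice
-/

set_option autoImplicit false

namespace Pool.Agent.W901.NU

open Pool.Agent.NPC Pool.Agent.H251R5.PQ Pool.Agent.W901.AT

/-- `A` is `(f, ε)`-predictable: for some oracle `X` (an arbitrary set), a polynomial-time algorithm
which asks `X` at most `O(log n)` questions computes, for every nonempty list of `m` questions about
membership in `A`, each of length at most `m ^ ε`, predictions for some of them which beat random
guessing by `f m` standard deviations. -/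
def PredP (f : ℕ → ℝ) (ε : ℝ) (A : Set (List Bool)) : Prop :=
  ∃ (X : Set (List Bool)) (q : List Bool → List Bool) (g : List Bool → List (Option Bool)) (b : ℕ),
    PolyTime q ∧ PolyTime (fun z => bits (g z)) ∧
      ∀ qs : List (List Bool), qs ≠ [] → (∀ y ∈ qs, (y.length : ℝ) ≤ (qs.length : ℝ) ^ ε) →
        BeatsBy (f qs.length) A qs (guess X q g b qs)

/-- `A` is fully `f`-predictable: the same with predictions for all questions, and for all nonempty
lists of questions of any length. -/
def FullyPredP (f : ℕ → ℝ) (A : Set (List Bool)) : Prop :=
  ∃ (X : Set (List Bool)) (q : List Bool → List Bool) (g : List Bool → List (Option Bool)) (b : ℕ),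
    PolyTime q ∧ PolyTime (fun z => bits (g z)) ∧
      ∀ qs : List (List Bool), qs ≠ [] → BeatsBy (f qs.length) A qs (guess X q g b qs) ∧
        ∀ a ∈ guess X q g b qs, a ≠ none

/-- `A` is `(f, ε)`-predictable with advice: for some oracle `X` (an arbitrary set), a polynomial-time
algorithm with polynomial advice which asks `X` at most `O(log n)` questions computes, for every
nonempty list of `m` questions about membership in `A`, each of length at most `m ^ ε`, predictions
for some of them which beat random guessing by `f m` standard deviations. -/
def PredA (f : ℕ → ℝ) (ε : ℝ) (A : Set (List Bool)) : Prop :=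
  ∃ (X : Set (List Bool)) (q : List Bool → List Bool) (g : List Bool → List (Option Bool)) (b : ℕ)
    (α : ℕ → List Bool) (p : Polynomial ℕ),
    PolyTime q ∧ PolyTime (fun z => bits (g z)) ∧ (∀ n, (α n).length ≤ p.eval n) ∧
      ∀ qs : List (List Bool), qs ≠ [] → (∀ y ∈ qs, (y.length : ℝ) ≤ (qs.length : ℝ) ^ ε) →
        BeatsBy (f qs.length) A qs (guessA X q g b α qs)

/-- `A` is fully `f`-predictable with advice: the same with predictions for all questions, and for
all nonempty lists of questions of any length. -/
def FullyPredA (f : ℕ → ℝ) (A : Set (List Bool)) : Prop :=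
  ∃ (X : Set (List Bool)) (q : List Bool → List Bool) (g : List Bool → List (Option Bool)) (b : ℕ)
    (α : ℕ → List Bool) (p : Polynomial ℕ),
    PolyTime q ∧ PolyTime (fun z => bits (g z)) ∧ (∀ n, (α n).length ≤ p.eval n) ∧
      ∀ qs : List (List Bool), qs ≠ [] → BeatsBy (f qs.length) A qs (guessA X q g b α qs) ∧
        ∀ a ∈ guessA X q g b α qs, a ≠ none

end Pool.Agent.W901.NU
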