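import Pool.Agent.W901.NU.ShA
import Pool.Agent.W901.NU.ShNDefs

/-!
# The nonuniform threshold law
-/

set_option autoImplicit false

namespace Pool.Agent.W901.NU

open Pool.Agent.NPC Pool.Agent.H251R5.PQ Pool.Agent.W901.AT Pool.Agent.H579R2.Spt

/-- The parameters: everything that depends on the algorithm. -/
theorem params_s {f : ℕ → ℝ} {ε : ℝ}
    (hf : Filter.Tendsto (fun m : ℕ => f m / Real.sqrt (Real.log m)) Filter.atTop Filter.atTop)
    (hε : 0 < ε) {A : Set (List Bool)}
    {X : Set (List Bool)} {q : List Bool → List Bool} {g : List Bool → List (Option Bool)} {b : ℕ}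
    {α : ℕ → List Bool} {p : Polynomial ℕ} (hg : Poly g) (hα : ∀ n, (α n).length ≤ p.eval n)
    (hX : ∀ qs : List (List Bool), qs ≠ [] → (∀ y ∈ qs, (y.length : ℝ) ≤ (qs.length : ℝ) ^ ε) →
        BeatsBy (f qs.length) A qs (guessA X q g b α qs)) :
    ∃ (Pm P1 : Polynomial ℕ), (∀ n, 1 ≤ Pm.eval n) ∧ ∀ n, ∀ U : Finset (List Bool), U.Nonempty →
      (∀ y ∈ U, y.length ≤ n) → ∀ T : ℕ,
      (U.card : ℝ) < Real.exp (T * (1 / ((Pm.eval n : ℕ) : ℝ)) ^ 2 / 8) →
      ∃ adv : List Item, adv.length = T ∧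
        (∀ q ∈ adv, sz q ≤ 2 * (Pm.eval n * (4 * n + 10)) + 3) ∧
        ∀ y ∈ U, (dcd (enumT g b (tabl α (P1.eval n))) (Pm.eval n) adv y = true ↔ y ∈ A) := by
  obtain ⟨c, hc⟩ := exists_nat_ge (1 / ε)
  have hc1 : 1 ≤ (c : ℝ) * ε := by
    rwa [div_le_iff₀ hε] at hc
  obtain ⟨qE, hqE⟩ := (enumT_poly hg b).sz_le
  -- polynomials in `m`
  set Q1 : Polynomial ℕ := Polynomial.X * (Polynomial.C 4 * Polynomial.X + 2) + 1 with hQ1
  set Q2 : Polynomial ℕ := (Q1 + 1) * (Polynomial.C 4 * p.comp Q1 + 2) + 1 with hQ2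
  obtain ⟨e, he⟩ := exists_pow_bound (qE.comp (Q2 + Q1 + 1))
  obtain ⟨M, hM⟩ := big_of_tendsto hf e
  set Pm : Polynomial ℕ := (Polynomial.X + Polynomial.C (M + 2)) ^ (c + 1) with hPm
  have ePm : ∀ n, Pm.eval n = (n + (M + 2)) ^ (c + 1) := fun n => by simp [hPm]
  have hPm1 : ∀ n, n + (M + 2) ≤ Pm.eval n := fun n => by
    rw [ePm]
    exact Nat.le_self_pow (by omega) _
  refine ⟨Pm, Q1.comp Pm, fun n => by have := hPm1 n; omega, fun n U hU hUn T hT => ?_⟩
  set m := Pm.eval n with hm
  have hm1 := hPm1 n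
  have hmn : n ≤ m := by omega
  have hm2 : 2 ≤ m := by omega
  have eQ1 : Q1.eval m = m * (4 * m + 2) + 1 := by simp [hQ1]
  rw [Polynomial.eval_comp, ← hm]
  set S := Q1.eval m with hS
  set tb := tabl α S with htb
  -- the size of the lists
  have hszz : ∀ z : List (List Bool), z.length = m → (∀ y ∈ z, y ∈ U) → sz z ≤ S := by
    intro z hz hzU
    have h1 := sz_le_length_mul z (4 * m + 1) (fun y hy => by
      have h2 := sz_listBool_le y
      have h3 := hUn y (hzU y hy)
      omega)
    rw [hz] at h1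
    rw [eQ1]
    exact h1
  have hsztb : sz tb ≤ Q2.eval m := by
    refine (sz_tabl hα S).trans (le_of_eq ?_)
    rw [hQ2]
    simp only [Polynomial.eval_add, Polynomial.eval_mul, Polynomial.eval_one, Polynomial.eval_C,
      Polynomial.eval_ofNat, Polynomial.eval_comp, ← hS]
  set N := (qE.comp (Q2 + Q1 + 1)).eval m with hN
  have hNe : N ≤ m ^ e := he m hm2
  have hcand : ∀ z : List (List Bool), z.length = m → (∀ y ∈ z, y ∈ U) →
      (enumT g b tb z).length ≤ N ∧ ∃ h ∈ enumT g b tb z, SGood (f m) h (answers A z) := by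
    intro z hz hzU
    constructor
    · have h1 := hqE (tb, z)
      have h2 := length_lt_sz (enumT g b tb z)
      have h3 : sz (tb, z) ≤ (Q2 + Q1 + 1).eval m := by
        rw [sz_pair]
        simp only [Polynomial.eval_add, Polynomial.eval_one, ← hS]
        have := hszz z hz hzU
        omega
      have h4 := eval_mono qE h3
      rw [hN, Polynomial.eval_comp]
      simp only at h1
      omega
    · have hne : z ≠ [] := by
        rintro rfl
        simp at hz
        omega
      refine ⟨guessA X q g b α z, mem_enumT X q g b α tb z ?_, ?_⟩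
      · refine tabl_getD α ?_
        rw [bits_length]
        exact hszz z hz hzU
      · have hX' := hX z hne
        rw [hz] at hX'
        refine sgood_of_beatsBy (hM m (by omega)).1 (hX' fun y hy => ?_)
        refine length_cond hε hc1 (by omega) ?_
        have h3 := hUn y (hzU y hy)
        calc y.length ^ c ≤ (n + (M + 2)) ^ c := Nat.pow_le_pow_left (by omega) c
          _ ≤ (n + (M + 2)) ^ (c + 1) := Nat.pow_le_pow_right (by omega) (by omega)
          _ = m := by rw [hm, ePm]
  have hN1 : 1 ≤ N := by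
    obtain ⟨u, hu⟩ := hU
    obtain ⟨h1, h, h2, _⟩ := hcand (List.replicate m u) (by simp) (fun y hy => by
      rw [List.eq_of_mem_replicate hy]; exact hu)
    have := List.length_pos_iff.2 (List.ne_nil_of_mem h2)
    omega
  obtain ⟨adv, h1, h2, h3⟩ := exists_advice_s U hU (F := f m) (m := m) (T := T) (N := N)
    (by omega) (enumT g b tb) A hcand (hM m (by omega)).1 ((hM m (by omega)).2 N hN1 hNe) hT
  refine ⟨adv, h1, fun q hq => ?_, h3⟩
  obtain ⟨g1, g2, g3⟩ := h2 q hq
  exact sz_item q g1 (fun a ha => hUn _ (g2 a ha)) (fun a ha => hUn _ (g3 a ha))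

/-- **Predictable sets are in `P/poly`.** -/
theorem inPpoly_of_predA {f : ℕ → ℝ} {ε : ℝ}
    (hf : Filter.Tendsto (fun m : ℕ => f m / Real.sqrt (Real.log m)) Filter.atTop Filter.atTop)
    (hε : 0 < ε) {A : Set (List Bool)} (h : PredA f ε A) : InPpoly A := by
  classical
  obtain ⟨X, q, g, b, α, p, hq, hg0, hα, hX⟩ := h
  have hg : Poly g := poly_of_polyTime_bits hg0
  obtain ⟨Pm, P1, hPm, hpar⟩ := params_s hf hε hg hα hX
  have hcard : ∀ n, (BL n).card ≤ 2 ^ n := fun n => by
    have := card_BL n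
    exact_mod_cast this.le
  have hne : ∀ n, (BL n).Nonempty := fun n => by
    rw [← Finset.card_pos]
    have := card_BL n
    have h2 : (0 : ℤ) < 2 ^ n := by positivity
    omega
  have hadv : ∀ n, ∃ adv : List Item, adv.length = 8 * (Pm.eval n) ^ 2 * (n + 1) ∧
      (∀ q ∈ adv, sz q ≤ 2 * (Pm.eval n * (4 * n + 10)) + 3) ∧
      ∀ y ∈ BL n, (dcd (enumT g b (tabl α (P1.eval n))) (Pm.eval n) adv y = true ↔ y ∈ A) :=
    fun n => hpar n (BL n) (hne n) (fun y hy => (mem_BL.1 hy).le) _ (exp_cond (hPm n) (hcard n))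
  choose adv h1 h2 h3 using hadv
  -- the decoder
  set V : List Bool → List Bool := fun z =>
    [((unbits (List (List Bool) × List Item) (unpair z).2).map
      (fun a => dcd (enumT g b a.1) (Pm.eval (unpair z).1.length) a.2 (unpair z).1)).getD false]
    with hV
  refine ⟨V, fun n => bits ((tabl α (P1.eval n), adv n) : List (List Bool) × List Item),
    (P1 + 1) * (Polynomial.C 4 * p.comp P1 + 2) + 1 +
      (Polynomial.C 8 * Pm ^ 2 * (Polynomial.X + 1) *
        (2 * (Pm * (Polynomial.C 4 * Polynomial.X + 10)) + 3 + 1) + 1) + 1, ?_, fun n => ?_,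
    fun x => ?_⟩
  · refine polyTime_of_poly (g := fun z => ((unbits (List (List Bool) × List Item) (unpair z).2).map
      (fun a => dcd (enumT g b a.1) (Pm.eval (unpair z).1.length) a.2 (unpair z).1)).getD false) ?_
    have e1 : Poly (fun z : List Bool => (unpair z).1) := NPC.Poly.fst poly_unpair
    have e2 : Poly (fun z : List Bool => (unpair z).2) := NPC.Poly.snd poly_unpair
    refine NPC.Poly.optGetD (NPC.Poly.optMap
      (o := fun z : List Bool => unbits (List (List Bool) × List Item) (unpair z).2)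
      (f := fun z a => dcd (enumT g b a.1) (Pm.eval (unpair z).1.length) a.2 (unpair z).1)
      (poly_unbits.comp e2) ?_) (NPC.Poly.const false)
    have f1 : Poly (fun r : List Bool × (List (List Bool) × List Item) => r.1) :=
      NPC.Poly.fst NPC.Poly.id
    have f2 : Poly (fun r : List Bool × (List (List Bool) × List Item) => r.2.1) :=
      NPC.Poly.fst (NPC.Poly.snd NPC.Poly.id)
    have f3 : Poly (fun r : List Bool × (List (List Bool) × List Item) => r.2.2) :=
      NPC.Poly.snd (NPC.Poly.snd NPC.Poly.id)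
    have f4' : Poly (fun r : (List Bool × (List (List Bool) × List Item)) × List (List Bool) =>
        (r.1.2.1, r.2)) :=
      NPC.Poly.pair (NPC.Poly.fst (NPC.Poly.snd (NPC.Poly.fst NPC.Poly.id)))
        (NPC.Poly.snd NPC.Poly.id)
    have f4 := (enumT_poly hg b).comp f4'
    have f5 : UPoly (fun r : List Bool × (List (List Bool) × List Item) =>
        Pm.eval (unpair r.1).1.length) := ((UPoly.length e1).eval Pm).comp f1
    have f6 : Poly (fun r : List Bool × (List (List Bool) × List Item) => (unpair r.1).1) :=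
      e1.comp f1
    have f7 := dcd_poly (α := List Bool × (List (List Bool) × List Item))
      (E := fun r => enumT g b r.2.1) f4 f5 f3 f6
    exact f7
  · rw [bits_length, sz_pair]
    have e1 := sz_tabl hα (P1.eval n)
    have e2 := sz_le_length_mul (adv n) _ (h2 n)
    rw [h1 n] at e2
    simp only [Polynomial.eval_add, Polynomial.eval_mul, Polynomial.eval_one, Polynomial.eval_C,
      Polynomial.eval_ofNat, Polynomial.eval_comp, Polynomial.eval_X, Polynomial.eval_pow]
    omega
  · rw [hV]
    simp only [unpair_pairBits, unbits_bits, Option.map_some, Option.getD_some, List.cons.injEq,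
      and_true]
    exact (h3 x.length x (mem_BL.2 rfl)).symm

theorem fullyPredA_of_inPpoly {f : ℕ → ℝ} (hf : ∀ m : ℕ, 1 ≤ m → f m ≤ Real.sqrt m)
    {A : Set (List Bool)} (hA : InPpoly A) : FullyPredA f A := by
  classical
  obtain ⟨V, α, p, hV, hα, hV2⟩ := hA
  refine ⟨∅, fun z => z, gadv V, 0, fun n => bits (tabl α n),
    (Polynomial.X + 1) * (Polynomial.C 4 * p + 2) + 1, polyTime_id, polyTime_bits (gadv_poly hV),
    fun n => ?_, fun qs hqs => ?_⟩
  · rw [bits_length]
    refine (sz_tabl hα n).trans (le_of_eq ?_)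
    simp
  · have h1 : guessA ∅ (fun z => z) (gadv V) 0 (fun n => bits (tabl α n)) qs =
        (answers A qs).map some := by
      unfold guessA answers
      rw [gadv_pair, List.map_map]
      refine List.map_congr_left fun y hy => ?_
      have hyl : y.length ≤ (bits qs).length := by
        rw [bits_length]
        have h1 := sz_le_of_mem hy
        have h2 := length_lt_sz y
        omega
      rw [tabl_getD α hyl]
      have h2 : (decide (V (pairBits y (α y.length)) = [true])) = decide (y ∈ A) :=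
        decide_eq_decide.2 (hV2 y).symm
      change some (decide (V (pairBits y (α y.length)) = [true])) = some (decide (y ∈ A))
      rw [h2]
    rw [h1]
    refine ⟨beatsBy_full A qs hqs (hf _ (length_pos hqs)), fun a ha => ?_⟩
    obtain ⟨i, _, rfl⟩ := List.mem_map.1 ha
    simp

theorem FullyPredA.predA {f : ℕ → ℝ} {A : Set (List Bool)} (h : FullyPredA f A) (ε : ℝ) :
    PredA f ε A := by
  obtain ⟨X, q, g, b, α, p, hq, hg, hα, hX⟩ := h
  exact ⟨X, q, g, b, α, p, hq, hg, hα, fun qs hqs _ => (hX qs hqs).1⟩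

/-- every function of the input can be obtained bit by bit from an oracle -/
theorem exists_oracle (tt : List Bool → List Bool) :
    ∃ X : Set (List Bool), ∀ (x : List Bool) (k : ℕ), k ≤ (tt x).length →
      adaptive X (fun z => z) x k = (tt x).take k := by
  classical
  set X : Set (List Bool) := {z | (tt (unpair z).1).getD (unpair z).2.length false = true} with hX
  refine ⟨X, fun x k => ?_⟩
  induction k with
  | zero => intro _; rfl
  | succ k ih =>
    intro hk
    unfold adaptive
    rw [ih (by omega)]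
    have h1 : (pairBits x ((tt x).take k) ∈ X) ↔ (tt x)[k]'(by omega) = true := by
      rw [hX]
      change (tt (unpair (pairBits x ((tt x).take k))).1).getD
        (unpair (pairBits x ((tt x).take k))).2.length false = true ↔ _
      rw [unpair_pairBits]
      simp only
      rw [List.length_take, min_eq_left (by omega), List.getD_eq_getElem _ _ (by omega)]
    have h2 : ∀ [inst : Decidable (pairBits x ((tt x).take k) ∈ X)],
        decide (pairBits x ((tt x).take k) ∈ X) = (tt x)[k]'(by omega) := by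
      intro inst
      by_cases h3 : (tt x)[k]'(by omega) = true
      · rw [h3]; exact decide_eq_true (h1.2 h3)
      · have h4 := h3
        rw [Bool.not_eq_true] at h4
        rw [h4]
        exact decide_eq_false fun h5 => h3 (h1.1 h5)
    refine (congrArg (fun b => List.take k (tt x) ++ [b]) (@h2 (Classical.propDecidable _))).trans ?_
    exact List.take_append_getElem (by omega)

/-- **Below the threshold everything is predictable in polynomial time.** -/
theorem predP_of_le {f : ℕ → ℝ} {ε c : ℝ}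
    (h1 : ∀ m : ℕ, 1 ≤ m → f m ≤ Real.sqrt m)
    (h2 : ∀ m : ℕ, 1 ≤ m → f m ≤ c * Real.sqrt (Real.log m)) (A : Set (List Bool)) :
    PredP f ε A := by
  classical
  obtain ⟨b, hb⟩ := exists_hint h1 h2
  have hex : ∀ x : List Bool, ∃ t : List Bool, ∀ qs : List (List Bool), qs ≠ [] → bits qs = x →
      t.length = b * (Nat.log 2 x.length + 1) ∧
        BeatsBy (f qs.length) A qs (prf (pairBits x t)) := by
    intro x
    by_cases hx : ∃ qs : List (List Bool), qs ≠ [] ∧ bits qs = x
    · obtain ⟨qs, hqs, rfl⟩ := hx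
      obtain ⟨t, ht1, ht2⟩ := hb A qs hqs
      refine ⟨t, fun qs' _ hqs' => ?_⟩
      rw [bits_injective hqs']
      exact ⟨ht1, ht2⟩
    · exact ⟨[], fun qs h0 hqs => absurd ⟨qs, h0, hqs⟩ hx⟩
  choose tt htt using hex
  obtain ⟨X, hX⟩ := exists_oracle tt
  refine ⟨X, fun z => z, prf, b, polyTime_id, polyTime_bits prf_poly, fun qs hqs _ => ?_⟩
  obtain ⟨g1, g2⟩ := htt (bits qs) qs hqs rfl
  unfold guess
  rw [hX (bits qs) _ g1.ge, ← g1, List.take_length]
  exact g2

/-- With advantage `1` everything is fully predictable. -/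
theorem fullyPredP_of_le_one {f : ℕ → ℝ} (hf : ∀ m : ℕ, 1 ≤ m → f m ≤ 1) (A : Set (List Bool)) :
    FullyPredP f A := by
  obtain ⟨X, q, g, b, hq, hg, h⟩ := fully_of_nonpos (δ := 0) le_rfl A
  refine ⟨X, q, g, b, hq, hg, fun qs hqs => ⟨?_, (h qs hqs).2⟩⟩
  obtain ⟨⟨h1, h2, h3⟩, _⟩ := h qs hqs
  refine ⟨h1, h2, le_trans ?_ h3⟩
  rw [Real.rpow_zero]
  exact mul_le_mul_of_nonneg_right (hf _ (length_pos hqs)) (Real.sqrt_nonneg _)

/-- **The nonuniform threshold law.** -/
theorem threshold_law (f : ℕ → ℝ) (ε : ℝ) (hε : 0 < ε)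
    (hf1 : ∀ m : ℕ, 1 ≤ m → f m ≤ Real.sqrt m) :
    (Filter.Tendsto (fun m : ℕ => f m / Real.sqrt (Real.log m)) Filter.atTop Filter.atTop →
      (∀ A : Set (List Bool), List.TFAE [InPpoly A, PredA f ε A, FullyPredA f A]) ∧
      ((∀ L : Set (List Bool), InNP L → InPpoly L) ↔
        ∃ A : Set (List Bool), NPHard A ∧ PredA f ε A)) ∧
    (∀ c : ℝ, (∀ m : ℕ, 1 ≤ m → f m ≤ c * Real.sqrt (Real.log m)) →
      ∀ A : Set (List Bool), PredP f ε A) ∧
    ((∀ m : ℕ, 1 ≤ m → f m ≤ 1) → ∀ A : Set (List Bool), FullyPredP f A) := by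
  refine ⟨fun hf => ⟨fun A => ?_, fun h => ?_, ?_⟩, fun c h A => predP_of_le hf1 h A,
    fun h A => fullyPredP_of_le_one h A⟩
  · tfae_have 1 → 3 := fun h => fullyPredA_of_inPpoly hf1 h
    tfae_have 3 → 2 := fun h => h.predA ε
    tfae_have 2 → 1 := fun h => inPpoly_of_predA hf hε h
    tfae_finish
  · obtain ⟨hA1, hA2⟩ := Pool.Agent.NPC.H545KS.sat_complete
    exact ⟨_, hA2, (fullyPredA_of_inPpoly hf1 (h _ hA1)).predA ε⟩
  · rintro ⟨A, hA, h⟩ L hL
    exact (inPpoly_of_predA hf hε h).of_reduces (hA L hL)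

end Pool.Agent.W901.NU
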