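import Pool.Agent.W901.NU.MainB

/-!
# The nonuniform square-root law
-/

set_option autoImplicit false

namespace Pool.Agent.W901.NU

open Pool.Agent.NPC Pool.Agent.H251R5.PQ Pool.Agent.W901.AT Pool.Agent.H579R2.Spt

/-- the answers of a set in `P/poly` -/
def gadv (V : List Bool → List Bool) (z : List Bool) : List (Option Bool) :=
  ((unbits (List (List Bool)) (unpair (unpair z).1).1).getD []).map (fun y =>
    some (decide (V (pairBits y (((unbits (List (List Bool)) (unpair (unpair z).1).2).getD []).getD
      y.length [])) = [true])))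

theorem listOf_poly' {f : List Bool → List Bool} (hf : Poly f) :
    Poly (fun z : List Bool => (unbits (List (List Bool)) (f z)).getD []) :=
  NPC.Poly.optGetD (g := fun _ => []) (poly_unbits.comp hf) (NPC.Poly.const _)

theorem gadv_poly {V : List Bool → List Bool} (hV : PolyTime V) : Poly (gadv V) := by
  have e1 : Poly (fun z : List Bool => (unpair z).1) := NPC.Poly.fst poly_unpair
  have e2 : Poly (fun z : List Bool => (unpair (unpair z).1).1) :=
    (NPC.Poly.fst poly_unpair).comp e1
  have e3 : Poly (fun z : List Bool => (unpair (unpair z).1).2) :=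
    (NPC.Poly.snd poly_unpair).comp e1
  have l1 := listOf_poly' e2
  have l2 := listOf_poly' e3
  have h4 : Poly (fun r : List Bool × List Bool => pairBits r.2
      (((unbits (List (List Bool)) (unpair (unpair r.1).1).2).getD []).getD r.2.length [])) :=
    H622R2.poly_pairBits (NPC.Poly.snd NPC.Poly.id)
      (NPC.Poly.getD (l2.comp (NPC.Poly.fst NPC.Poly.id))
        (NPC.Poly.length (NPC.Poly.snd NPC.Poly.id)) (NPC.Poly.const []))
  have h5 : Poly (fun r : List Bool × List Bool => some (decide (V (pairBits r.2
      (((unbits (List (List Bool)) (unpair (unpair r.1).1).2).getD []).getD r.2.length [])) =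
        [true]))) :=
    NPC.Poly.some (NPC.Poly.decide_eq ((PIso.poly_iff.2 hV).comp h4) (NPC.Poly.const _))
  have h6 := NPC.Poly.map (l := fun z : List Bool =>
    (unbits (List (List Bool)) (unpair (unpair z).1).1).getD []) (F := fun z y =>
    some (decide (V (pairBits y (((unbits (List (List Bool)) (unpair (unpair z).1).2).getD []).getD
      y.length [])) = [true]))) l1 h5
  exact h6

theorem gadv_pair (V : List Bool → List Bool) (qs tb : List (List Bool)) (t : List Bool) :
    gadv V (pairBits (pairBits (bits qs) (bits tb)) t) =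
      qs.map (fun y => some (decide (V (pairBits y (tb.getD y.length [])) = [true]))) := by
  unfold gadv
  simp only [unpair_pairBits, unbits_bits, Option.getD_some]

theorem full_beats {δ : ℝ} (hδ : δ ≤ 1 / 2) (A : Set (List Bool)) (qs : List (List Bool))
    (hqs : qs ≠ []) : Beats δ A qs ((answers A qs).map some) := by
  have hl : (answers A qs).length = qs.length := by simp [answers]
  have hm : 1 ≤ qs.length := length_pos hqs
  have hm1 : (1 : ℝ) ≤ qs.length := by exact_mod_cast hm
  refine ⟨by rw [List.length_map, hl], by rw [made_eq_nans, nans_some, hl]; omega, ?_⟩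
  rw [excess_self, made_eq_nans, nans_some, hl, Int.cast_natCast, abs_of_nonneg (by positivity)]
  calc (qs.length : ℝ) ^ δ * Real.sqrt qs.length
      ≤ (qs.length : ℝ) ^ ((1 : ℝ) / 2) * Real.sqrt qs.length :=
        mul_le_mul_of_nonneg_right (Real.rpow_le_rpow_of_exponent_le hm1 hδ)
          (Real.sqrt_nonneg _)
    _ = Real.sqrt qs.length * Real.sqrt qs.length := by rw [← Real.sqrt_eq_rpow]
    _ = qs.length := Real.mul_self_sqrt (by positivity)

theorem fullyA_of_inPpoly {δ : ℝ} (hδ : δ ≤ 1 / 2) {A : Set (List Bool)} (hA : InPpoly A) :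
    FullyPredictableA δ A := by
  classical
  obtain ⟨V, α, p, hV, hα, hV2⟩ := hA
  refine ⟨∅, fun z => z, gadv V, 0, fun n => bits (tabl α n),
    (Polynomial.X + 1) * (Polynomial.C 4 * p + 2) + 1, polyTime_id, polyTime_bits (gadv_poly hV),
    fun n => ?_, fun qs hqs => ?_⟩
  · rw [bits_length]
    refine (sz_tabl hα n).trans (le_of_eq ?_)
    simp
  · have h1 : guessA ∅ (fun z => z) (gadv V) 0 (fun n => bits (tabl α n)) qs =
        (answers A qs).map some := by
      unfold guessA answers
      rw [gadv_pair, List.map_map]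
      refine List.map_congr_left fun y hy => ?_
      have hyl : y.length ≤ (bits qs).length := by
        rw [bits_length]
        have h1 := sz_le_of_mem hy
        have h2 := length_lt_sz y
        omega
      rw [tabl_getD α hyl]
      have h2 : (decide (V (pairBits y (α y.length)) = [true])) = decide (y ∈ A) :=
        decide_eq_decide.2 (hV2 y).symm
      change some (decide (V (pairBits y (α y.length)) = [true])) = some (decide (y ∈ A))
      rw [h2]
    rw [h1]
    refine ⟨full_beats hδ A qs hqs, fun a ha => ?_⟩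
    obtain ⟨i, _, rfl⟩ := List.mem_map.1 ha
    simp

theorem FullyPredictableA.predictableA {δ : ℝ} {A : Set (List Bool)} (h : FullyPredictableA δ A)
    (ε : ℝ) : PredictableA δ ε A := by
  obtain ⟨X, q, g, b, α, p, hq, hg, hα, hX⟩ := h
  exact ⟨X, q, g, b, α, p, hq, hg, hα, fun qs hqs _ => (hX qs hqs).1⟩

theorem InPpoly.of_reduces {L A : Set (List Bool)} (h : Reduces L A) (hA : InPpoly A) :
    InPpoly L := by
  obtain ⟨f, hf, hfL⟩ := h
  obtain ⟨V, α, p, hV, hα, hV2⟩ := hA
  have hf' : Poly f := PIso.poly_iff.2 hf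
  obtain ⟨r, hr⟩ := hf'.sz_le
  set rr : Polynomial ℕ := r.comp (Polynomial.C 4 * Polynomial.X + 1) with hrr
  have hfl : ∀ x, (f x).length ≤ rr.eval x.length := by
    intro x
    have h1 := length_lt_sz (f x)
    have h2 := hr x
    have h3 := eval_mono r (sz_listBool_le x)
    rw [hrr, Polynomial.eval_comp]
    simp only [Polynomial.eval_add, Polynomial.eval_mul, Polynomial.eval_C, Polynomial.eval_X,
      Polynomial.eval_one]
    omega
  refine ⟨fun z => V (pairBits (f (unpair z).1)
    (((unbits (List (List Bool)) (unpair z).2).getD []).getD (f (unpair z).1).length [])),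
    fun n => bits (tabl α (rr.eval n)), (rr + 1) * (Polynomial.C 4 * p.comp rr + 2) + 1, ?_,
    fun n => ?_, fun x => ?_⟩
  · refine PIso.poly_iff.1 ?_
    have e1 : Poly (fun z : List Bool => f (unpair z).1) :=
      hf'.comp (NPC.Poly.fst poly_unpair)
    have e2 := listOf_poly' (NPC.Poly.snd poly_unpair)
    exact (PIso.poly_iff.2 hV).comp (H622R2.poly_pairBits e1
      (NPC.Poly.getD e2 (NPC.Poly.length e1) (NPC.Poly.const [])))
  · rw [bits_length]
    refine (sz_tabl hα _).trans (le_of_eq ?_)
    simp [Polynomial.eval_comp]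
  · rw [hfL, hV2]
    simp only [unpair_pairBits, unbits_bits, Option.getD_some]
    rw [tabl_getD α (hfl x)]

/-- **The nonuniform square-root law.** -/
theorem nonuniform_law (δ ε : ℝ) :
    (0 < δ → δ ≤ 1 / 2 → 0 < ε →
      (∀ A : Set (List Bool), List.TFAE [InPpoly A, PredictableA δ ε A, FullyPredictableA δ A]) ∧
      ((∀ L : Set (List Bool), InNP L → InPpoly L) ↔
        ∃ A : Set (List Bool), NPHard A ∧ PredictableA δ ε A)) ∧
    (δ ≤ 0 → ∀ A : Set (List Bool), FullyPredictable δ A) := by
  refine ⟨fun h1 h2 h3 => ⟨fun A => ?_, fun h => ?_, ?_⟩, fun h A => fully_of_nonpos h A⟩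
  · tfae_have 1 → 3 := fun h => fullyA_of_inPpoly h2 h
    tfae_have 3 → 2 := fun h => h.predictableA ε
    tfae_have 2 → 1 := fun h => inPpoly_of_predictableA h1 h3 h
    tfae_finish
  · obtain ⟨hA1, hA2⟩ := Pool.Agent.NPC.H545KS.sat_complete
    exact ⟨_, hA2, (fullyA_of_inPpoly h2 (h _ hA1)).predictableA ε⟩
  · rintro ⟨A, hA, h⟩ L hL
    exact (inPpoly_of_predictableA h1 h3 h).of_reduces (hA L hL)

end Pool.Agent.W901.NU
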