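import Pool.Agent.W901.AT.DefsP

/-!
# Prediction inside a class of sets
-/

set_option autoImplicit false

namespace Pool.Agent.W901.NU

open Pool.Agent.NPC Pool.Agent.H251R5.PQ Pool.Agent.W901.AT

/-- The function `g`, whose values are lists of predictions, is computable in the class `C`: its
values are of polynomial length and its graph `{(x, g x)}` is in `C`. -/
def FnIn (C : Set (List Bool) → Prop) (g : List Bool → List (Option Bool)) : Prop :=
  (∃ p : Polynomial ℕ, ∀ x, (g x).length ≤ p.eval x.length) ∧
    C {z | ∃ x, z = pairBits x (bits (g x))}

/-- `A` is `(δ, ε)`-predictable in the class `C`: some function computable in `C` computes, for every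
nonempty list of `m` questions about membership in `A`, each of length at most `m ^ ε`, and for some
hint of `b * (⌊log₂ n⌋ + 1)` bits, where `n` is the length of the coded list (`b` is fixed; the hint
may depend on the list in any way), predictions for some of the questions which beat random guessing
by `m ^ δ` standard deviations. -/
def PredictableIn (C : Set (List Bool) → Prop) (δ ε : ℝ) (A : Set (List Bool)) : Prop :=
  ∃ (g : List Bool → List (Option Bool)) (b : ℕ), FnIn C g ∧
    ∀ qs : List (List Bool), qs ≠ [] → (∀ y ∈ qs, (y.length : ℝ) ≤ (qs.length : ℝ) ^ ε) →
      ∃ t : List Bool, t.length = b * (Nat.log 2 (bits qs).length + 1) ∧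
        Beats δ A qs (g (pairBits (bits qs) t))

/-- `A` is fully `δ`-predictable in the class `C`: the same with predictions for all questions, for
all nonempty lists of questions of any length, and without hints. -/
def FullyPredictableIn (C : Set (List Bool) → Prop) (δ : ℝ) (A : Set (List Bool)) : Prop :=
  ∃ g : List Bool → List (Option Bool), FnIn C g ∧
    ∀ qs : List (List Bool), qs ≠ [] → Beats δ A qs (g (bits qs)) ∧ ∀ a ∈ g (bits qs), a ≠ none

end Pool.Agent.W901.NU
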