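import Pool.Agent.W901.NU.Srch

/-!
# A calculus for classes closed under complement and polynomially bounded quantification
-/

set_option autoImplicit false

namespace Pool.Agent.W901.NU

open Pool.Agent.NPC Pool.Agent.H251R5.PQ Pool.Agent.W901.AT Pool.Agent.H579R2.Spt

/-- The closure properties used. -/
structure Cl (C : Set (List Bool) → Prop) : Prop where
  ofP : ∀ {L : Set (List Bool)}, InP L → C L
  pre : ∀ {L : Set (List Bool)} {f : List Bool → List Bool}, Poly f → C L → C (f ⁻¹' L)
  inter : ∀ {L L' : Set (List Bool)}, C L → C L' → C (L ∩ L')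
  compl : ∀ {L : Set (List Bool)}, C L → C Lᶜ
  ex : ∀ {L : Set (List Bool)} (p : Polynomial ℕ), C L →
    C {x | ∃ w : List Bool, w.length ≤ p.eval x.length ∧ pairBits x w ∈ L}

/-- a predicate on encodable data is in the class -/
def CPr (C : Set (List Bool) → Prop) {α : Type} [TEnc α] (P : α → Prop) : Prop :=
  ∃ L : Set (List Bool), C L ∧ ∀ a, P a ↔ bits a ∈ L

/-- a polynomially bounded function whose graph is in the class -/
def CFn (C : Set (List Bool) → Prop) {α β : Type} [TEnc α] [TEnc β] (f : α → β) : Prop :=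
  (∃ ρ : Polynomial ℕ, ∀ a, sz (f a) ≤ ρ.eval (sz a)) ∧ CPr C (fun q : α × β => f q.1 = q.2)

section

variable {C : Set (List Bool) → Prop} {α β γ : Type} [TEnc α] [TEnc β] [TEnc γ]

theorem CPr.congr {P Q : α → Prop} (h : CPr C P) (e : ∀ a, P a ↔ Q a) : CPr C Q := by
  obtain ⟨L, h1, h2⟩ := h
  exact ⟨L, h1, fun a => (e a).symm.trans (h2 a)⟩

/-- the code of an optional value, the empty string if there is none -/
def obits (o : Option β) : List Bool := o.elim [] (fun b => bits b)

theorem obits_poly : Poly (fun o : Option β => obits o) := by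
  unfold obits
  exact NPC.Poly.optElim (o := fun o : Option β => o) (g := fun _ => []) (h := fun _ b => bits b)
    NPC.Poly.id (NPC.Poly.const _) (bits_poly.comp (NPC.Poly.snd NPC.Poly.id))

theorem CPr.poly (hC : Cl C) [TDec α] {d : α → Bool} (hd : Poly d) : CPr C (fun a => d a = true) :=
  ⟨_, hC.ofP (inPP_of (P := fun a => d a = true) hd fun _ => Iff.rfl),
    fun a => (bits_mem_lang (P := fun a => d a = true)).symm⟩

theorem CPr.and (hC : Cl C) {P Q : α → Prop} (h : CPr C P) (h' : CPr C Q) :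
    CPr C (fun a => P a ∧ Q a) := by
  obtain ⟨L, h1, h2⟩ := h
  obtain ⟨L', h1', h2'⟩ := h'
  exact ⟨_, hC.inter h1 h1', fun a => and_congr (h2 a) (h2' a)⟩

theorem CPr.not (hC : Cl C) {P : α → Prop} (h : CPr C P) : CPr C (fun a => ¬ P a) := by
  obtain ⟨L, h1, h2⟩ := h
  exact ⟨_, hC.compl h1, fun a => not_congr (h2 a)⟩

theorem CPr.or (hC : Cl C) {P Q : α → Prop} (h : CPr C P) (h' : CPr C Q) :
    CPr C (fun a => P a ∨ Q a) :=
  ((h.not hC).and hC (h'.not hC)).not hC |>.congr fun a => by tauto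

/-- composition with an optional function -/
theorem CPr.part (hC : Cl C) [TDec α] {P : β → Prop} (h : CPr C P) {f : α → Option β}
    (hf : Poly f) : CPr C (fun a => ∃ b, f a = some b ∧ P b) := by
  obtain ⟨L, h1, h2⟩ := h
  have h3 : Poly (fun x : List Bool => obits ((unbits α x).bind f)) := by
    refine obits_poly.comp ?_
    exact NPC.Poly.optBind (f := fun _ a => f a) poly_unbits (hf.comp (NPC.Poly.snd NPC.Poly.id))
  have h4 : CPr C (fun a => (f a).isSome = true) := by
    refine CPr.poly hC ?_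
    refine (NPC.Poly.optElim (o := f) (g := fun _ => false) (h := fun _ _ => true) hf
      (NPC.Poly.const _) (NPC.Poly.const _)).congr fun a => ?_
    cases f a <;> rfl
  have h5 : CPr C (fun a : α => obits (f a) ∈ L) := by
    refine ⟨_, hC.pre h3 h1, fun a => ?_⟩
    rw [Set.mem_preimage, unbits_bits]
    rfl
  refine (h4.and hC h5).congr fun a => ?_
  cases h6 : f a with
  | none => simp
  | some b => simpa [obits] using (h2 b).symm

theorem CPr.comp (hC : Cl C) [TDec α] {P : β → Prop} (h : CPr C P) {f : α → β} (hf : Poly f) :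
    CPr C (fun a => P (f a)) :=
  (h.part hC (f := fun a => some (f a)) (NPC.Poly.some hf)).congr fun a => by simp

theorem CPr.to_raw (hC : Cl C) {P : List Bool → Prop} (h : CPr C P) : C {x | P x} := by
  obtain ⟨L, h1, h2⟩ := h
  have h3 := hC.pre (f := fun x : List Bool => bits x) bits_poly h1
  have e : {x | P x} = (fun x : List Bool => (bits x : List Bool)) ⁻¹' L := Set.ext fun x => h2 x
  rw [e]
  exact h3

theorem CPr.of_raw (hC : Cl C) {L : Set (List Bool)} (h : C L) : CPr C (fun x : List Bool => x ∈ L) := by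
  have h3 : Poly (fun x : List Bool => (unbits (List Bool) x).getD []) :=
    NPC.Poly.optGetD (g := fun _ => []) poly_unbits (NPC.Poly.const _)
  refine ⟨_, hC.pre h3 h, fun a => ?_⟩
  rw [Set.mem_preimage, unbits_bits]
  rfl

theorem CPr.exW (hC : Cl C) [TDec α] {P : α × List Bool → Prop} (h : CPr C P) (p : Polynomial ℕ) :
    CPr C (fun a => ∃ w : List Bool, w.length ≤ p.eval (sz a) ∧ P (a, w)) := by
  obtain ⟨L, h1, h2⟩ := h
  have h3 : Poly (fun y : List Bool => obits ((unbits α (unpair y).1).map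
      (fun a => (a, (unpair y).2)))) := by
    refine obits_poly.comp ?_
    exact NPC.Poly.optMap (o := fun y : List Bool => unbits α (unpair y).1)
      (f := fun y a => (a, (unpair y).2)) (poly_unbits.comp (NPC.Poly.fst poly_unpair))
      (NPC.Poly.pair (NPC.Poly.snd NPC.Poly.id)
        (NPC.Poly.snd (poly_unpair.comp (NPC.Poly.fst NPC.Poly.id))))
  refine ⟨_, hC.ex p (hC.pre h3 h1), fun a => ?_⟩
  constructor
  · rintro ⟨w, hw, hP⟩
    refine ⟨w, by rw [bits_length]; exact hw, ?_⟩
    rw [Set.mem_preimage, unpair_pairBits, unbits_bits]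
    exact (h2 _).1 hP
  · rintro ⟨w, hw, hP⟩
    refine ⟨w, by rw [bits_length] at hw; exact hw, ?_⟩
    rw [Set.mem_preimage, unpair_pairBits, unbits_bits] at hP
    exact (h2 _).2 hP

theorem CPr.ex (hC : Cl C) [TDec α] [TDec β] {P : α × β → Prop} (h : CPr C P) (p : Polynomial ℕ) :
    CPr C (fun a => ∃ b : β, sz b ≤ p.eval (sz a) ∧ P (a, b)) := by
  have h1 := h.part hC (f := fun q : α × List Bool => (unbits β q.2).map (fun b => (q.1, b)))
    (NPC.Poly.optMap (f := fun (q : α × List Bool) b => (q.1, b))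
      (poly_unbits.comp (NPC.Poly.snd NPC.Poly.id))
      (NPC.Poly.pair (NPC.Poly.fst (NPC.Poly.fst NPC.Poly.id)) (NPC.Poly.snd NPC.Poly.id)))
  refine (h1.exW hC p).congr fun a => ?_
  constructor
  · rintro ⟨w, hw, q, hq, hP⟩
    simp only at hq
    cases hb : unbits β w with
    | none => rw [hb] at hq; simp at hq
    | some b =>
      rw [hb, Option.map_some, Option.some.injEq] at hq
      subst hq
      refine ⟨b, ?_, hP⟩
      rw [← bits_length, bits_of_unbits hb]
      exact hw
  · rintro ⟨b, hb, hP⟩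
    refine ⟨bits b, by rw [bits_length]; exact hb, (a, b), ?_, hP⟩
    simp only [unbits_bits, Option.map_some]

theorem CPr.allW (hC : Cl C) [TDec α] {P : α × List Bool → Prop} (h : CPr C P) (p : Polynomial ℕ) :
    CPr C (fun a => ∀ w : List Bool, w.length ≤ p.eval (sz a) → P (a, w)) :=
  (((h.not hC).exW hC p).not hC).congr fun a => by
    simp only [not_exists, not_and, not_not]

theorem CFn.congr {f g : α → β} (h : CFn C f) (e : ∀ a, f a = g a) : CFn C g := by
  have : f = g := funext e
  rwa [← this]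

theorem CFn.poly (hC : Cl C) [TDec α] [TDec β] {f : α → β} (hf : Poly f) : CFn C f := by
  refine ⟨hf.sz_le, ?_⟩
  have h1 : Poly (fun q : α × β => decide (bits (f q.1) = bits q.2)) :=
    NPC.Poly.decide_eq (bits_poly.comp (hf.comp (NPC.Poly.fst NPC.Poly.id)))
      (bits_poly.comp (NPC.Poly.snd NPC.Poly.id))
  refine (CPr.poly hC h1).congr fun q => ?_
  rw [decide_eq_true_eq]
  exact ⟨fun h => bits_injective h, fun h => by rw [h]⟩

/-- substituting the value of a function -/
theorem CPr.subst (hC : Cl C) [TDec α] [TDec β] {f : α → β} (hf : CFn C f) {P : α × β → Prop}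
    (hP : CPr C P) : CPr C (fun a => P (a, f a)) := by
  obtain ⟨⟨ρ, hρ⟩, h⟩ := hf
  refine ((h.and hC hP).ex hC ρ).congr fun a => ?_
  constructor
  · rintro ⟨b, _, hb, h1⟩
    simp only at hb
    rw [hb]
    exact h1
  · intro h1
    exact ⟨f a, hρ a, rfl, h1⟩

theorem CFn.compPoly (hC : Cl C) [TDec α] [TDec γ] {g : β → γ} (hg : CFn C g) {f : α → β}
    (hf : Poly f) : CFn C (fun a => g (f a)) := by
  obtain ⟨⟨ρ, hρ⟩, h⟩ := hg
  obtain ⟨r, hr⟩ := hf.sz_le
  refine ⟨⟨ρ.comp r, fun a => ?_⟩, ?_⟩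
  · rw [Polynomial.eval_comp]
    exact (hρ _).trans (eval_mono ρ (hr a))
  · exact h.comp hC (f := fun q : α × γ => (f q.1, q.2))
      (NPC.Poly.pair (hf.comp (NPC.Poly.fst NPC.Poly.id)) (NPC.Poly.snd NPC.Poly.id))

theorem CFn.comp (hC : Cl C) [TDec α] [TDec β] [TDec γ] {g : β → γ} (hg : CFn C g) {f : α → β}
    (hf : CFn C f) : CFn C (fun a => g (f a)) := by
  refine ⟨?_, ?_⟩
  · obtain ⟨⟨ρ, hρ⟩, _⟩ := hg
    obtain ⟨⟨r, hr⟩, _⟩ := hf
    refine ⟨ρ.comp r, fun a => ?_⟩
    rw [Polynomial.eval_comp]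
    exact (hρ _).trans (eval_mono ρ (hr a))
  · have h1 := hf.compPoly hC (f := fun q : α × γ => q.1) (NPC.Poly.fst NPC.Poly.id)
    have h2 : CPr C (fun q : (α × γ) × β => g q.2 = q.1.2) :=
      hg.2.comp hC (f := fun q : (α × γ) × β => (q.2, q.1.2))
        (NPC.Poly.pair (NPC.Poly.snd NPC.Poly.id) (NPC.Poly.snd (NPC.Poly.fst NPC.Poly.id)))
    exact CPr.subst hC h1 h2

theorem CFn.pair (hC : Cl C) [TDec α] [TDec β] [TDec γ] {f : α → β} {g : α → γ} (hf : CFn C f)
    (hg : CFn C g) : CFn C (fun a => (f a, g a)) := by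
  obtain ⟨⟨ρ, hρ⟩, h⟩ := hf
  obtain ⟨⟨ρ', hρ'⟩, h'⟩ := hg
  refine ⟨⟨ρ + ρ' + 1, fun a => ?_⟩, ?_⟩
  · rw [sz_pair]
    have h1 := hρ a
    have h2 := hρ' a
    simp only [Polynomial.eval_add, Polynomial.eval_one]
    omega
  · have h1 := h.comp hC (f := fun q : α × (β × γ) => (q.1, q.2.1))
      (NPC.Poly.pair (NPC.Poly.fst NPC.Poly.id) (NPC.Poly.fst (NPC.Poly.snd NPC.Poly.id)))
    have h2 := h'.comp hC (f := fun q : α × (β × γ) => (q.1, q.2.2))
      (NPC.Poly.pair (NPC.Poly.fst NPC.Poly.id) (NPC.Poly.snd (NPC.Poly.snd NPC.Poly.id)))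
    refine (h1.and hC h2).congr fun q => ?_
    obtain ⟨a, b, c⟩ := q
    simp

theorem CFn.isTrue (hC : Cl C) [TDec α] {f : α → Bool} (hf : CFn C f) :
    CPr C (fun a => f a = true) :=
  CPr.subst hC hf (P := fun q => q.2 = true) (CPr.poly hC (NPC.Poly.snd NPC.Poly.id))

open Classical in
theorem CFn.dec (hC : Cl C) [TDec α] {P : α → Prop} (h : CPr C P) :
    CFn C (fun a => decide (P a)) := by
  refine ⟨⟨3, fun a => ?_⟩, ?_⟩
  · simpa using sz_bool_le _
  · have h1 := h.comp hC (f := fun q : α × Bool => q.1) (NPC.Poly.fst NPC.Poly.id)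
    have h2 : CPr C (fun q : α × Bool => q.2 = true) := CPr.poly hC (NPC.Poly.snd NPC.Poly.id)
    refine ((h1.and hC h2).or hC ((h1.not hC).and hC (h2.not hC))).congr fun q => ?_
    obtain ⟨a, b⟩ := q
    by_cases hP : P a <;> cases b <;> simp [hP]

/-- mapping a function of the class over a list -/
theorem CFn.map (hC : Cl C) [TDec α] [TDec β] [TDec γ] {l : α → List β} (hl : Poly l)
    {F : α × β → γ} (hF : CFn C F) : CFn C (fun a => (l a).map (fun b => F (a, b))) := by
  obtain ⟨⟨ρ, hρ⟩, h⟩ := hF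
  obtain ⟨r, hr⟩ := hl.sz_le
  refine ⟨⟨r * (ρ.comp (Polynomial.X + r + 1) + 1) + 1, fun a => ?_⟩, ?_⟩
  · have h1 := sz_le_length_mul ((l a).map (fun b => F (a, b)))
      (ρ.eval (sz a + r.eval (sz a) + 1)) (fun c hc => by
        obtain ⟨b, hb, rfl⟩ := List.mem_map.1 hc
        refine (hρ _).trans (eval_mono ρ ?_)
        rw [sz_pair]
        have := sz_le_of_mem hb
        have := hr a
        omega)
    rw [List.length_map] at h1
    simp only [Polynomial.eval_add, Polynomial.eval_mul, Polynomial.eval_one, Polynomial.eval_comp,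
      Polynomial.eval_X]
    refine h1.trans (Nat.succ_le_succ (Nat.mul_le_mul_right _ ?_))
    have := length_lt_sz (l a)
    have := hr a
    omega
  · -- the positions
    have h1 : CPr C (fun q : (α × List γ) × List Bool =>
        ∃ b, ((l q.1.1).zip q.1.2)[q.2.length]?.map (fun p => ((q.1.1, p.1), p.2)) = some b ∧
          ¬ F b.1 = b.2) := by
      refine CPr.part hC (P := fun b : (α × β) × γ => ¬ F b.1 = b.2)
        (f := fun q : (α × List γ) × List Bool =>
        ((l q.1.1).zip q.1.2)[q.2.length]?.map (fun p => ((q.1.1, p.1), p.2))) (h.not hC) ?_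
      refine NPC.Poly.optMap
        (o := fun q : (α × List γ) × List Bool => ((l q.1.1).zip q.1.2)[q.2.length]?)
        (f := fun (q : (α × List γ) × List Bool) (p : β × γ) => ((q.1.1, p.1), p.2)) ?_ ?_
      · exact NPC.Poly.getElem? (NPC.Poly.zip (hl.comp (NPC.Poly.fst (NPC.Poly.fst NPC.Poly.id)))
          (NPC.Poly.snd (NPC.Poly.fst NPC.Poly.id))) (NPC.Poly.length (NPC.Poly.snd NPC.Poly.id))
      · exact NPC.Poly.pair (NPC.Poly.pair (NPC.Poly.fst (NPC.Poly.fst (NPC.Poly.fst NPC.Poly.id)))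
          (NPC.Poly.fst (NPC.Poly.snd NPC.Poly.id))) (NPC.Poly.snd (NPC.Poly.snd NPC.Poly.id))
    have h2 : CPr C (fun q : α × List γ => (l q.1).length = q.2.length) := by
      refine (CPr.poly hC (d := fun q : α × List γ => Decidable.decide
        ((l q.1).length = q.2.length)) (NPC.Poly.decide_eq
        (NPC.Poly.length (hl.comp (NPC.Poly.fst NPC.Poly.id)))
        (NPC.Poly.length (NPC.Poly.snd NPC.Poly.id)))).congr fun q => ?_
      rw [decide_eq_true_eq]
    refine (h2.and hC ((h1.exW hC (Polynomial.X)).not hC)).congr fun q => ?_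
    obtain ⟨a, L'⟩ := q
    simp only [Polynomial.eval_X]
    constructor
    · rintro ⟨h3, h4⟩
      apply List.ext_getElem
      · rw [List.length_map, h3]
      · intro i hi1 hi2
        rw [List.length_map] at hi1
        rw [List.getElem_map]
        by_contra hne
        refine h4 ⟨List.replicate i false, ?_, ((a, (l a)[i]), L'[i]), ?_, hne⟩
        · rw [List.length_replicate, sz_pair]
          have := length_lt_sz L'
          omega
        · rw [List.length_replicate, List.getElem?_eq_getElem (by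
            rw [List.length_zip]; omega), Option.map_some, List.getElem_zip]
    · rintro rfl
      refine ⟨by rw [List.length_map], ?_⟩
      rintro ⟨w, _, b, hb, hne⟩
      obtain ⟨p, hp, hpb⟩ := Option.map_eq_some_iff.1 hb
      obtain ⟨hi, hp2⟩ := List.getElem?_eq_some_iff.1 hp
      rw [List.getElem_zip] at hp2
      apply hne
      rw [← hpb, ← hp2]
      simp

end

end Pool.Agent.W901.NU
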