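import Pool.Agent.W901.NU.Cls
import Pool.Agent.W901.NU.Adv

/-!
# Advice for predictors computable in a class, along a reduction
-/

set_option autoImplicit false

namespace Pool.Agent.W901.NU

open Pool.Agent.NPC Pool.Agent.H251R5.PQ Pool.Agent.W901.AT Pool.Agent.H579R2.Spt

/-- **Advice along a reduction**, the enumerator being of polynomial size only. -/
theorem adv_of_szEnum {A : Set (List Bool)} {D c : ℕ}
    {E : List (List Bool) → List (List (Option Bool))} (hD : 1 ≤ D)
    {pE : Polynomial ℕ} (hpE : ∀ z, sz (E z) ≤ pE.eval (sz z))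
    (hEA : ∀ qs, qs ≠ [] → (∀ q ∈ qs, q.length ^ c ≤ qs.length) →
      ∃ h ∈ E qs, good D h (answers A qs) = true)
    {κ : Type} [TEnc κ] {F : κ × List Bool → List Bool} (hF : Poly F) :
    ∃ Pm Pa : Polynomial ℕ, (∀ n, 1 ≤ Pm.eval n) ∧ ∀ (n : ℕ) (x : κ), sz x ≤ n →
      ∃ adv : List Item, sz adv ≤ Pa.eval n ∧ ∀ u : List Bool, u.length ≤ n →
        (dcd (fun z => E (z.map (fun u => F (x, u)))) (Pm.eval n) adv u = true ↔ F (x, u) ∈ A) := by
  classical
  obtain ⟨pF, hpF⟩ := hF.sz_le
  obtain ⟨e1, he1⟩ := exists_pow_bound (pF.comp (Polynomial.C 5 * Polynomial.X + 2))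
  set g : ℕ := e1 * c + 1 with hg
  set Q : Polynomial ℕ := Polynomial.X ^ g * (Polynomial.X ^ e1 + 1) + 1 with hQ
  obtain ⟨e2, he2⟩ := exists_pow_bound (pE.comp Q)
  obtain ⟨M, hM⟩ := exists_big D e2 hD
  set Pm : Polynomial ℕ := (Polynomial.X + Polynomial.C (M + 2)) ^ g with hPm
  have ePm : ∀ n, Pm.eval n = (n + (M + 2)) ^ g := fun n => by simp [hPm]
  have hPm1 : ∀ n, n + (M + 2) ≤ Pm.eval n := fun n => by
    rw [ePm]
    exact Nat.le_self_pow (by omega) _
  refine ⟨Pm, (Polynomial.C 8 * Pm ^ 2 * (Polynomial.X + 1 + 1)) *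
    (2 * (Pm * (Polynomial.C 4 * Polynomial.X + 10)) + 3 + 1) + 1,
    fun n => by have := hPm1 n; omega, fun n x hx => ?_⟩
  set m := Pm.eval n with hm
  set b := n + (M + 2) with hb
  have hm1 : b ≤ m := hPm1 n
  have hmb : m = b ^ g := ePm n
  have hb2 : 2 ≤ b := by omega
  -- the images
  have hFl : ∀ u : List Bool, u.length ≤ n → sz (F (x, u)) ≤ b ^ e1 := by
    intro u hu
    have h1 := hpF (x, u)
    have h2 := sz_listBool_le u
    have h3 : sz (x, u) ≤ 5 * b + 2 := by
      rw [sz_pair]
      omega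
    have h4 := eval_mono pF h3
    have h5 := he1 b hb2
    rw [Polynomial.eval_comp] at h5
    simp only [Polynomial.eval_add, Polynomial.eval_mul, Polynomial.eval_C, Polynomial.eval_X,
      Polynomial.eval_ofNat] at h5
    omega
  have hcand : ∀ z : List (List Bool), z.length = m → (∀ y ∈ z, y ∈ BLe n) →
      (E (z.map (fun u => F (x, u)))).length ≤ b ^ e2 ∧
        ∃ h ∈ E (z.map (fun u => F (x, u))),
          good D h (answers {u | F (x, u) ∈ A} z) = true := by
    intro z hz hzU
    have hans : answers {u | F (x, u) ∈ A} z = answers A (z.map (fun u => F (x, u))) := by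
      unfold answers
      rw [List.map_map]
      rfl
    constructor
    · have h1 := hpE (z.map (fun u => F (x, u)))
      have h2 := length_lt_sz (E (z.map (fun u => F (x, u))))
      have h3 : sz (z.map (fun u => F (x, u))) ≤ Q.eval b := by
        have h4 := sz_le_length_mul (z.map (fun u => F (x, u))) (b ^ e1) (fun y hy => by
          obtain ⟨u, hu, rfl⟩ := List.mem_map.1 hy
          exact hFl u (mem_BLe.1 (hzU u hu)))
        rw [List.length_map, hz, hmb] at h4
        rw [hQ]
        simp only [Polynomial.eval_add, Polynomial.eval_mul, Polynomial.eval_pow,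
          Polynomial.eval_X, Polynomial.eval_one]
        exact h4
      have h4 := eval_mono pE h3
      have h5 := he2 b hb2
      rw [Polynomial.eval_comp] at h5
      omega
    · rw [hans]
      have hne : z.map (fun u => F (x, u)) ≠ [] := by
        intro h0
        rw [List.map_eq_nil_iff] at h0
        rw [h0] at hz
        simp at hz
        omega
      refine hEA _ hne fun y hy => ?_
      obtain ⟨u, hu, rfl⟩ := List.mem_map.1 hy
      rw [List.length_map, hz, hmb]
      have h1 := hFl u (mem_BLe.1 (hzU u hu))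
      have h2 := length_lt_sz (F (x, u))
      calc (F (x, u)).length ^ c ≤ (b ^ e1) ^ c := Nat.pow_le_pow_left (by omega) c
        _ = b ^ (e1 * c) := by rw [pow_mul]
        _ ≤ b ^ g := Nat.pow_le_pow_right (by omega) (by omega)
  have hU : (BLe n).Nonempty := ⟨[], mem_BLe.2 (by simp)⟩
  have hN : 1 ≤ b ^ e2 := Nat.one_le_pow _ _ (by omega)
  have hN2 : b ^ e2 ≤ m ^ e2 := Nat.pow_le_pow_left hm1 e2
  obtain ⟨adv, h1, h2, h3⟩ := exists_advice (BLe n) hU (D := D) (m := m)
    (T := 8 * m ^ 2 * (n + 1 + 1)) (N := b ^ e2) (by omega)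
    (fun z => E (z.map (fun u => F (x, u)))) {u | F (x, u) ∈ A} hcand
    (hM m (by omega) (b ^ e2) hN hN2) (exp_cond (by omega) (card_BLe n))
  refine ⟨adv, ?_, fun u hu => h3 u (mem_BLe.2 hu)⟩
  have e3 := sz_le_length_mul adv (2 * (m * (4 * n + 10)) + 3) (fun q hq => by
    obtain ⟨g1, g2, g3⟩ := h2 q hq
    exact sz_item q g1 (fun a ha => mem_BLe.1 (g2 a ha)) (fun a ha => mem_BLe.1 (g3 a ha)))
  rw [h1] at e3
  simp only [Polynomial.eval_add, Polynomial.eval_mul, Polynomial.eval_one, Polynomial.eval_C,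
    Polynomial.eval_ofNat, Polynomial.eval_X, Polynomial.eval_pow]
  rw [← hm]
  exact e3

section

variable {C : Set (List Bool) → Prop}

/-- **Two quantifiers.** -/
theorem sigmaC (hC : Cl C) {κ β : Type} [TEnc κ] [TEnc β] [TDec κ] [TDec β]
    {chk : (κ × β) × List Bool → Prop} (hchk : CPr C chk) {out : κ × β → Prop} (hout : CPr C out)
    (p q : Polynomial ℕ) {val : κ → Prop}
    (h1 : ∀ x, ∃ a : β, sz a ≤ p.eval (sz x) ∧
      ∀ w : List Bool, w.length ≤ q.eval (sz x) → chk ((x, a), w))
    (h2 : ∀ x a, (∀ w : List Bool, w.length ≤ q.eval (sz x) → chk ((x, a), w)) →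
      (out (x, a) ↔ val x)) : CPr C val := by
  have hR0 : CPr C (fun z : (κ × β) × List Bool => z.2.length ≤ q.eval (sz z.1.1)) := by
    refine (CPr.poly hC (d := fun z : (κ × β) × List Bool =>
      decide (z.2.length ≤ q.eval (sz z.1.1))) ?_).congr fun z => by rw [decide_eq_true_eq]
    refine NPC.Poly.decide_le (NPC.Poly.length (NPC.Poly.snd NPC.Poly.id)) ?_
    have e0 : Poly (fun z : (κ × β) × List Bool => bits z.1.1) :=
      bits_poly.comp (NPC.Poly.fst (NPC.Poly.fst NPC.Poly.id))
    refine (UPoly.eval (UPoly.length e0) q).toPoly.congr fun z => ?_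
    rw [bits_length]
  have hA : CPr C (fun z : κ × β => ∀ w : List Bool, w.length ≤ q.eval (sz z) →
      (¬ w.length ≤ q.eval (sz z.1) ∨ chk (z, w))) :=
    CPr.allW hC (P := fun y : (κ × β) × List Bool => ¬ y.2.length ≤ q.eval (sz y.1.1) ∨ chk y)
      ((hR0.not hC).or hC hchk) q
  refine (CPr.ex hC (P := fun z : κ × β => (∀ w : List Bool, w.length ≤ q.eval (sz z) →
      (¬ w.length ≤ q.eval (sz z.1) ∨ chk (z, w))) ∧ out z) (hA.and hC hout) p).congr fun x => ?_
  have hall : ∀ a : β, (∀ w : List Bool, w.length ≤ q.eval (sz (x, a)) →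
      (¬ w.length ≤ q.eval (sz x) ∨ chk ((x, a), w))) ↔
      ∀ w : List Bool, w.length ≤ q.eval (sz x) → chk ((x, a), w) := by
    intro a
    have hm : q.eval (sz x) ≤ q.eval (sz (x, a)) := eval_mono q (by rw [sz_pair]; omega)
    constructor
    · intro h w hw
      exact (h w (hw.trans hm)).resolve_left (not_not.2 hw)
    · intro h w _
      by_cases hw : w.length ≤ q.eval (sz x)
      · exact Or.inr (h w hw)
      · exact Or.inl hw
  constructor
  · rintro ⟨a, _, ha, ho⟩
    exact (h2 x a ((hall a).1 ha)).1 ho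
  · intro hv
    obtain ⟨a, ha, hc⟩ := h1 x
    exact ⟨a, ha, (hall a).2 hc, (h2 x a hc).2 hv⟩

/-- The decision is computable in the class. -/
theorem CFn.dcd (hC : Cl C) {α : Type} [TEnc α] [TDec α]
    {E : List (List Bool) → List (List (Option Bool))} (hE : CFn C E)
    {G : α × List (List Bool) → List (List Bool)} (hG : Poly G) {m : α → ℕ} (hm : UPoly m)
    {adv : α → List Item} (hadv : Poly adv) {y : α → List Bool} (hy : Poly y) :
    CFn C (fun a => NU.dcd (fun z => E (G (a, z))) (m a) (adv a) (y a)) := by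
  have e1 : Poly (fun q : α × Item => q.1) := NPC.Poly.fst NPC.Poly.id
  have e2 : Poly (fun q : α × Item => q.2.1) := NPC.Poly.fst (NPC.Poly.snd NPC.Poly.id)
  have e3 : Poly (fun q : α × Item => q.2.2) := NPC.Poly.snd (NPC.Poly.snd NPC.Poly.id)
  have e4 : Poly (fun q : α × Item => q.2.1.map Prod.fst) :=
    NPC.Poly.map (F := fun _ (p : List Bool × Bool) => p.1) e2
      (NPC.Poly.fst (NPC.Poly.snd NPC.Poly.id))
  have e6 : Poly (fun q : α × Item => q.2.1.map Prod.fst ++ y q.1 :: q.2.2) :=
    NPC.Poly.append e4 (NPC.Poly.cons (hy.comp e1) e3)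
  have h1 : CFn C (fun q : α × Item => E (G (q.1, q.2.1.map Prod.fst ++ y q.1 :: q.2.2))) :=
    hE.compPoly hC (hG.comp (NPC.Poly.pair e1 e6))
  have h2 : CFn C (fun a => (adv a).map (fun q => E (G (a, q.1.map Prod.fst ++ y a :: q.2)))) :=
    CFn.map hC hadv h1
  have h3 : CFn C (fun a => (a, (adv a).map (fun q => E (G (a, q.1.map Prod.fst ++ y a :: q.2))))) :=
    (CFn.poly hC NPC.Poly.id).pair hC h2
  -- the polynomial-time part
  have h4 : Poly (fun r : α × List (List (List (Option Bool))) =>
      decide (2 * m r.1 * (adv r.1).length < (((adv r.1).zip r.2).map (fun t : Item ×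
        List (List (Option Bool)) => opin (m r.1) (clean (m r.1) t.2) (t.1.1.map Prod.snd))).sum)) := by
    have f1 : Poly (fun r : α × List (List (List (Option Bool))) => r.1) := NPC.Poly.fst NPC.Poly.id
    refine NPC.Poly.decide_lt (NPC.Poly.mul (NPC.Poly.mul (NPC.Poly.const 2) (hm.toPoly.comp f1))
      (NPC.Poly.length (hadv.comp f1))) (NPC.Poly.sum (NPC.Poly.map
        (l := fun r : α × List (List (List (Option Bool))) => (adv r.1).zip r.2)
        (F := fun r (t : Item × List (List (Option Bool))) => opin (m r.1) (clean (m r.1) t.2)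
          (t.1.1.map Prod.snd)) (NPC.Poly.zip (hadv.comp f1) (NPC.Poly.snd NPC.Poly.id)) ?_))
    have g1 : Poly (fun s : (α × List (List (List (Option Bool)))) × (Item ×
        List (List (Option Bool))) => s.1.1) := NPC.Poly.fst (NPC.Poly.fst NPC.Poly.id)
    have g2 : Poly (fun s : (α × List (List (List (Option Bool)))) × (Item ×
        List (List (Option Bool))) => s.2.2) := NPC.Poly.snd (NPC.Poly.snd NPC.Poly.id)
    have g3 : Poly (fun s : (α × List (List (List (Option Bool)))) × (Item ×
        List (List (Option Bool))) => s.2.1.1) :=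
      NPC.Poly.fst (NPC.Poly.fst (NPC.Poly.snd NPC.Poly.id))
    have g4 : Poly (fun s : (α × List (List (List (Option Bool)))) × (Item ×
        List (List (Option Bool))) => s.2.1.1.map Prod.snd) :=
      NPC.Poly.map (F := fun _ (p : List Bool × Bool) => p.2) g3
        (NPC.Poly.snd (NPC.Poly.snd NPC.Poly.id))
    exact opin_poly (hm.comp g1) (clean_poly (hm.toPoly.comp g1) g2) g4
  refine ((CFn.poly hC h4).comp hC h3).congr fun a => ?_
  unfold NU.dcd pred
  congr 3
  simp only
  generalize adv a = l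
  induction l with
  | nil => rfl
  | cons q l ih =>
    rw [List.map_cons, List.zip_cons_cons, List.map_cons, List.map_cons, ih]

end

end Pool.Agent.W901.NU
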