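import Pool.Agent.W901.NU.Adv
import Pool.Agent.H656R2.AK.TQPoly
import Pool.Agent.H251R5.PQ.T_PAD

/-!
# Predictable sets which are hard for polynomial space
-/

set_option autoImplicit false

namespace Pool.Agent.W901.NU

open Pool.Agent.NPC Pool.Agent.H251R5.PQ Pool.Agent.W901.AT Pool.Agent.H579R2.Spt
open Pool.Agent.H623R2.PS Pool.Agent.H656R2.AK

/-! ### `NP` is contained in `PSPACE` -/

theorem np_sub_pspace {L : Set (List Bool)} (hL : InNP L) : InPSPACE L := by
  obtain ⟨D, hD⟩ := t_PAD L hL
  refine inPSPACE_of_evq (α := List Bool) (init := fun x => x) Poly.id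
    (qs := fun x => List.replicate (D.n x) false) (poly_replicate D.hn false) (φ := D.V) D.hV
    (fun x => ?_)
  rw [hD]
  have h := evq_exists (D.n x) [] (D.V x)
  rw [List.append_nil] at h
  rw [h]
  constructor
  · rintro ⟨w, hw, hV⟩
    exact ⟨w, hw, by simpa [evq] using hV⟩
  · rintro ⟨w, hw, hV⟩
    exact ⟨w, hw, by simpa [evq] using hV⟩

/-! ### The nodes of the evaluation tree -/

/-- the value of a node -/
def nodeVal (x : QF) (u : List Bool) : Bool := evq (x.1.drop u.length) (fun v => evc (u ++ v) x.2)

/-- the node is a true one -/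
def nodeP (p : QF × List Bool) : Prop := p.2.length ≤ p.1.1.length ∧ nodeVal p.1 p.2 = true

theorem evc_poly : NPC.Poly (fun p : List Bool × List (List (Bool × ℕ)) => evc p.1 p.2) := by
  unfold evc
  refine NPC.Poly.all (l := fun p : List Bool × List (List (Bool × ℕ)) => p.2)
    (p := fun p c => c.any fun l => p.1.getD l.2 false == l.1) (NPC.Poly.snd NPC.Poly.id) ?_
  refine NPC.Poly.any (l := fun q : (List Bool × List (List (Bool × ℕ))) × List (Bool × ℕ) => q.2)
    (p := fun q l => q.1.1.getD l.2 false == l.1) (NPC.Poly.snd NPC.Poly.id) ?_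
  have h : NPC.Poly (fun r : ((List Bool × List (List (Bool × ℕ))) × List (Bool × ℕ)) × (Bool × ℕ) =>
      decide (r.1.1.1.getD r.2.2 false = r.2.1)) := by fun_prop
  refine h.congr fun r => ?_
  rw [Bool.eq_iff_iff]
  simp

/-- the matrix -/
def nphi (o : Option (QF × List Bool)) (v : List Bool) : Bool :=
  o.elim false (fun p => decide (p.2.length ≤ p.1.1.length) && evc (p.2 ++ v) p.1.2)

/-- the quantifiers -/
def nqs (o : Option (QF × List Bool)) : List Bool := o.elim [] (fun p => p.1.1.drop p.2.length)

theorem nphi_poly : NPC.Poly (fun p : Option (QF × List Bool) × List Bool => nphi p.1 p.2) := by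
  unfold nphi
  refine NPC.Poly.optElim (o := fun p : Option (QF × List Bool) × List Bool => p.1)
    (g := fun _ => false) (h := fun p r => decide (r.2.length ≤ r.1.1.length) &&
      evc (r.2 ++ p.2) r.1.2) (NPC.Poly.fst NPC.Poly.id) (NPC.Poly.const _) ?_
  refine NPC.Poly.and (by fun_prop) ?_
  exact evc_poly.comp (f := fun q : (Option (QF × List Bool) × List Bool) × (QF × List Bool) =>
    (q.2.2 ++ q.1.2, q.2.1.2)) (by fun_prop)

theorem nqs_poly : NPC.Poly nqs := by
  unfold nqs
  refine NPC.Poly.optElim (o := fun p : Option (QF × List Bool) => p)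
    (g := fun _ => []) (h := fun _ r => r.1.1.drop r.2.length) NPC.Poly.id (NPC.Poly.const _) ?_
  exact drop_poly' (NPC.Poly.fst (NPC.Poly.fst (NPC.Poly.snd NPC.Poly.id)))
    (NPC.Poly.length (NPC.Poly.snd (NPC.Poly.snd NPC.Poly.id)))

theorem node_pspace : InPSPACE (lang nodeP) := by
  refine inPSPACE_of_evq (α := Option (QF × List Bool)) (init := unbits (QF × List Bool))
    poly_unbits (qs := fun x => nqs (unbits (QF × List Bool) x)) (nqs_poly.comp poly_unbits)
    (φ := nphi) nphi_poly (fun x => ?_)
  rw [mem_lang_iff]
  cases h : unbits (QF × List Bool) x with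
  | none =>
    simp only [reduceCtorEq, false_and, exists_false, false_iff]
    unfold nqs nphi
    simp [evq]
  | some a =>
    simp only [Option.some.injEq, exists_eq_left']
    unfold nqs nphi
    simp only [Option.elim_some]
    rw [evq_and, Bool.and_eq_true, decide_eq_true_eq]
    rfl

theorem node_hard : PSPACEHard (lang nodeP) := by
  intro L hL
  obtain ⟨f, hf, _, hfL⟩ := qbf_hard hL
  refine ⟨fun x => bits ((f x, []) : QF × List Bool), polyTime_bits (NPC.Poly.pair hf
    (NPC.Poly.const _)), fun x => ?_⟩
  rw [bits_mem_lang, hfL x]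
  unfold nodeP nodeVal
  simp

theorem nodeVal_step (x : QF) (u : List Bool) (h : u.length < x.1.length) :
    nodeVal x u = bif x.1.getD u.length false then nodeVal x (u ++ [false]) && nodeVal x (u ++ [true])
      else nodeVal x (u ++ [false]) || nodeVal x (u ++ [true]) := by
  unfold nodeVal
  have e1 : x.1.drop u.length = x.1.getD u.length false :: x.1.drop (u.length + 1) := by
    rw [List.getD_eq_getElem _ _ h]
    exact List.drop_eq_getElem_cons h
  rw [e1, evq]
  simp only [List.length_append, List.length_cons, List.length_nil, zero_add, List.append_assoc,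
    List.cons_append, List.nil_append]

theorem nodeVal_leaf (x : QF) (u : List Bool) (h : u.length = x.1.length) :
    nodeVal x u = evc u x.2 := by
  unfold nodeVal
  rw [h, List.drop_length, evq, List.append_nil]

/-- **Above the threshold: prediction of a set which is hard for `PSPACE` gives `P = PSPACE`.** -/
theorem p_eq_pspace_of_predictable {δ ε : ℝ} (hδ : 0 < δ) (hε : 0 < ε) (A : Set (List Bool))
    (hA : PSPACEHard A) (h : Predictable δ ε A) : ∀ L : Set (List Bool), InPSPACE L → InP L := by
  have hPNP : ∀ L : Set (List Bool), InNP L → InP L :=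
    p_eq_np_of_predictable hδ hε A (fun L hL => hA L (np_sub_pspace hL)) h
  obtain ⟨D, c, E, hD, hEA⟩ := corEnum_of_predictable hδ hε h
  obtain ⟨f, hf, hfA⟩ := hA _ node_pspace
  set F : QF × List Bool → List Bool := fun p => f (bits p) with hF
  have hFp : NPC.Poly F := (PIso.poly_iff.2 hf).comp bits_poly
  have hFA : ∀ x u, F (x, u) ∈ A ↔ nodeP (x, u) := fun x u => by
    rw [hF]
    simp only
    rw [← hfA, bits_mem_lang]
  obtain ⟨Pm, Pa, hPm, hadv⟩ := adv_of_corEnum hD hEA hFp
  -- the decisions with advice
  set Dv : (QF × List Item) × List Bool → Bool := fun z =>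
    dcd (fun y => E (y.map (fun u => F (z.1.1, u)))) (Pm.eval (sz z.1.1)) z.1.2 z.2 with hDv
  have hDvp : NPC.Poly Dv := by
    have e1 : NPC.Poly (fun z : (QF × List Item) × List Bool => z.1.1) :=
      NPC.Poly.fst (NPC.Poly.fst NPC.Poly.id)
    have e2 : UPoly (fun z : (QF × List Item) × List Bool => Pm.eval (sz z.1.1)) := by
      refine ((UPoly.length (bits_poly.comp e1)).eval Pm).congr fun z => ?_
      simp only [bits_length]
    have e3 : NPC.Poly (fun q : ((QF × List Item) × List Bool) × List (List Bool) =>
        E (q.2.map (fun u => F (q.1.1.1, u)))) := by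
      refine hEA.1.comp (NPC.Poly.map (l := fun q : ((QF × List Item) × List Bool) ×
        List (List Bool) => q.2) (F := fun q u => F (q.1.1.1, u)) (NPC.Poly.snd NPC.Poly.id) ?_)
      exact hFp.comp (NPC.Poly.pair (e1.comp (NPC.Poly.fst (NPC.Poly.fst NPC.Poly.id)))
        (NPC.Poly.snd NPC.Poly.id))
    exact dcd_poly (E := fun (z : (QF × List Item) × List Bool) y =>
      E (y.map (fun u => F (z.1.1, u)))) e3 e2 (NPC.Poly.snd (NPC.Poly.fst NPC.Poly.id))
      (NPC.Poly.snd NPC.Poly.id)
  -- the local test
  set chk : (QF × List Item) × List Bool → Bool := fun z =>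
    if z.2.length < z.1.1.1.length then
      decide (Dv z = (if z.1.1.1.getD z.2.length false then
        Dv (z.1, z.2 ++ [false]) && Dv (z.1, z.2 ++ [true])
        else Dv (z.1, z.2 ++ [false]) || Dv (z.1, z.2 ++ [true])))
    else if z.2.length = z.1.1.1.length then decide (Dv z = evc z.2 z.1.1.2) else true with hchk
  have hchkp : NPC.Poly chk := by
    have d0 : NPC.Poly (fun z : (QF × List Item) × List Bool => Dv (z.1, z.2 ++ [false])) :=
      hDvp.comp (f := fun z : (QF × List Item) × List Bool => (z.1, z.2 ++ [false])) (by fun_prop)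
    have d1 : NPC.Poly (fun z : (QF × List Item) × List Bool => Dv (z.1, z.2 ++ [true])) :=
      hDvp.comp (f := fun z : (QF × List Item) × List Bool => (z.1, z.2 ++ [true])) (by fun_prop)
    have d2 : NPC.Poly (fun z : (QF × List Item) × List Bool => evc z.2 z.1.1.2) :=
      evc_poly.comp (f := fun z : (QF × List Item) × List Bool => (z.2, z.1.1.2)) (by fun_prop)
    have d3 : NPC.Poly (fun z : (QF × List Item) × List Bool =>
        decide (z.1.1.1.getD z.2.length false = true)) := by fun_prop
    have d4 : NPC.Poly (fun z : (QF × List Item) × List Bool =>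
      decide (z.2.length < z.1.1.1.length)) := by fun_prop
    have d5 : NPC.Poly (fun z : (QF × List Item) × List Bool =>
      decide (z.2.length = z.1.1.1.length)) := by fun_prop
    rw [hchk]
    refine NPC.Poly.ite d4 (NPC.Poly.decide_eq hDvp (NPC.Poly.ite d3 (NPC.Poly.and d0 d1)
      (NPC.Poly.or d0 d1))) (NPC.Poly.ite d5 (NPC.Poly.decide_eq hDvp d2) (NPC.Poly.const _))
  have hlen : ∀ x : QF, x.1.length < sz x := fun x => by
    have h1 := length_lt_sz x.1
    have h2 : sz x = sz x.1 + sz x.2 + 1 := sz_pair x.1 x.2
    omega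
  have hval : NPC.Poly (fun x : QF => nodeVal x []) := by
    refine sigma2 hPNP hchkp (out := fun z : QF × List Item => Dv (z, []))
      (hDvp.comp (f := fun z : QF × List Item => (z, [])) (by fun_prop)) Pa Polynomial.X
      (fun x => ?_) (fun x a hxa => ?_)
    · obtain ⟨adv, h1, h2⟩ := hadv (sz x) x le_rfl
      refine ⟨adv, h1, fun w hw => ?_⟩
      rw [Polynomial.eval_X] at hw
      have key : ∀ u : List Bool, u.length ≤ x.1.length → Dv ((x, adv), u) = nodeVal x u := by
        intro u hu
        have h3 := h2 u (by have := hlen x; omega)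
        rw [hFA] at h3
        rw [Bool.eq_iff_iff]
        refine h3.trans ?_
        unfold nodeP
        simp only
        constructor
        · exact fun h => h.2
        · exact fun h => ⟨hu, h⟩
      rw [hchk]
      simp only
      by_cases g1 : w.length < x.1.length
      · rw [if_pos g1, decide_eq_true_eq, key w g1.le, key _ (by simp; omega),
          key _ (by simp; omega), nodeVal_step x w g1]
        cases x.1.getD w.length false <;> rfl
      · rw [if_neg g1]
        by_cases g2 : w.length = x.1.length
        · rw [if_pos g2, decide_eq_true_eq, key w g2.le, nodeVal_leaf x w g2]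
        · rw [if_neg g2]
    · have key : ∀ (k : ℕ) (u : List Bool), u.length + k = x.1.length →
          Dv ((x, a), u) = nodeVal x u := by
        intro k
        induction k with
        | zero =>
          intro u hu
          have h1 := hxa u (by rw [Polynomial.eval_X]; have := hlen x; omega)
          rw [hchk] at h1
          simp only at h1
          rw [if_neg (by omega), if_pos (by omega), decide_eq_true_eq] at h1
          rw [h1, nodeVal_leaf x u (by omega)]
        | succ k ih =>
          intro u hu
          have h1 := hxa u (by rw [Polynomial.eval_X]; have := hlen x; omega)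
          rw [hchk] at h1
          simp only at h1
          rw [if_pos (by omega), decide_eq_true_eq] at h1
          rw [h1, ih (u ++ [false]) (by simp; omega), ih (u ++ [true]) (by simp; omega),
            nodeVal_step x u (by omega)]
          cases x.1.getD u.length false <;> rfl
      exact key x.1.length [] (by simp)
  intro L hL
  obtain ⟨g, hg, _, hgL⟩ := qbf_hard hL
  refine ⟨fun x => [nodeVal (g x) []], polyTime_of_poly (hval.comp hg), fun x => ?_⟩
  rw [hgL x]
  unfold nodeVal
  simp

/-- **The square-root law for polynomial space.** -/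
theorem pspace_law (δ ε : ℝ) :
    (0 < δ → δ ≤ 1 / 2 → 0 < ε → List.TFAE
      [∀ L : Set (List Bool), InPSPACE L → InP L,
        ∃ A : Set (List Bool), PSPACEHard A ∧ Predictable δ ε A,
        ∀ A : Set (List Bool), InPSPACE A → FullyPredictable δ A]) ∧
    (δ ≤ 0 → ∀ A : Set (List Bool), FullyPredictable δ A) := by
  refine ⟨fun h1 h2 h3 => ?_, fun h A => fully_of_nonpos h A⟩
  tfae_have 1 → 3 := fun h A hA => fully_of_inP h2 (h A hA)
  tfae_have 3 → 2 := fun h => ⟨_, node_hard, (h _ node_pspace).predictable ε⟩
  tfae_have 2 → 1 := fun ⟨A, hA, h⟩ => p_eq_pspace_of_predictable h1 h3 A hA h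
  tfae_finish

end Pool.Agent.W901.NU
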