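import Pool.Agent.W901.NU.ClsA
import Pool.Agent.W901.NU.ClsDefs
import Pool.Agent.W901.NU.PSp
import Pool.Agent.W901.NU.MainC

/-!
# Prediction in a class and polynomial space
-/

set_option autoImplicit false

namespace Pool.Agent.W901.NU

open Pool.Agent.NPC Pool.Agent.H251R5.PQ Pool.Agent.W901.AT Pool.Agent.H579R2.Spt
open Pool.Agent.H623R2.PS Pool.Agent.H656R2.AK

section

variable {C : Set (List Bool) → Prop} {α β : Type} [TEnc α] [TEnc β]

theorem CPr.iff (hC : Cl C) {P Q : α → Prop} (h : CPr C P) (h' : CPr C Q) :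
    CPr C (fun a => P a ↔ Q a) :=
  ((h.and hC h').or hC ((h.not hC).and hC (h'.not hC))).congr fun a => by tauto

theorem CPr.allMem (hC : Cl C) [TDec α] [TDec β] {l : α → List β} (hl : Poly l)
    {P : α × β → Prop} (h : CPr C P) : CPr C (fun a => ∀ b ∈ l a, P (a, b)) := by
  obtain ⟨r, hr⟩ := hl.sz_le
  have h1 : CPr C (fun q : α × List Bool =>
      ∃ b : α × β, (l q.1)[q.2.length]?.map (fun p => (q.1, p)) = some b ∧ ¬ P b) := by
    refine CPr.part hC (P := fun b : α × β => ¬ P b)
      (f := fun q : α × List Bool => (l q.1)[q.2.length]?.map (fun p => (q.1, p))) (h.not hC) ?_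
    refine NPC.Poly.optMap (o := fun q : α × List Bool => (l q.1)[q.2.length]?)
      (f := fun (q : α × List Bool) (p : β) => (q.1, p)) ?_ ?_
    · exact NPC.Poly.getElem? (hl.comp (NPC.Poly.fst NPC.Poly.id))
        (NPC.Poly.length (NPC.Poly.snd NPC.Poly.id))
    · exact NPC.Poly.pair (NPC.Poly.fst (NPC.Poly.fst NPC.Poly.id)) (NPC.Poly.snd NPC.Poly.id)
  refine ((h1.exW hC r).not hC).congr fun a => ?_
  constructor
  · intro h2 b hb
    by_contra hne
    obtain ⟨i, hi, rfl⟩ := List.mem_iff_getElem.1 hb
    refine h2 ⟨List.replicate i false, ?_, (a, (l a)[i]), ?_, hne⟩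
    · rw [List.length_replicate]
      have := length_lt_sz (l a)
      have := hr a
      omega
    · rw [List.length_replicate, List.getElem?_eq_getElem hi, Option.map_some]
  · rintro h2 ⟨w, _, b, hb, hne⟩
    obtain ⟨p, hp, hpb⟩ := Option.map_eq_some_iff.1 hb
    apply hne
    rw [← hpb]
    exact h2 p (List.mem_of_getElem? hp)

theorem CPr.exMem (hC : Cl C) [TDec α] [TDec β] {l : α → List β} (hl : Poly l)
    {P : α × β → Prop} (h : CPr C P) : CPr C (fun a => ∃ b ∈ l a, P (a, b)) :=
  ((CPr.allMem hC hl (P := fun q => ¬ P q) (h.not hC)).not hC).congr fun a => by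
    push Not
    rfl

/-- computable in the class: from the graph on strings to the calculus -/
theorem FnIn.toCFn (hC : Cl C) {g : List Bool → List (Option Bool)} (h : FnIn C g) : CFn C g := by
  obtain ⟨⟨p, hp⟩, hg⟩ := h
  refine ⟨⟨p * 8 + 1, fun a => ?_⟩, ?_⟩
  · have h1 := sz_le_length_mul (g a) 7 (fun o _ => by
      cases o with
      | none => exact le_trans (by simp [sz_none]) (by norm_num : (1 : ℕ) ≤ 7)
      | some b =>
        rw [sz_some]
        have := sz_bool_le b
        omega)
    have h2 := hp a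
    have h3 := eval_mono p (length_lt_sz a).le
    simp only [Polynomial.eval_add, Polynomial.eval_mul, Polynomial.eval_one,
      Polynomial.eval_ofNat]
    refine h1.trans (Nat.succ_le_succ (Nat.mul_le_mul_right _ (h2.trans h3)))
  · have h1 : CPr C (fun x : List Bool => ∃ y, x = pairBits y (bits (g y))) := CPr.of_raw hC hg
    have h2 := h1.comp hC (f := fun q : List Bool × List (Option Bool) => pairBits q.1 (bits q.2))
      (H622R2.poly_pairBits (NPC.Poly.fst NPC.Poly.id) (bits_poly.comp (NPC.Poly.snd NPC.Poly.id)))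
    refine h2.congr fun q => ?_
    constructor
    · rintro ⟨y, hy⟩
      have h3 := congrArg unpair hy
      rw [unpair_pairBits, unpair_pairBits, Prod.mk.injEq] at h3
      rw [h3.1]
      exact (bits_injective h3.2).symm
    · intro h3
      exact ⟨q.1, by rw [h3]⟩

theorem FnIn.of_CFn (hC : Cl C) {g : List Bool → List (Option Bool)} (h : CFn C g) : FnIn C g := by
  obtain ⟨⟨ρ, hρ⟩, hg⟩ := h
  refine ⟨⟨ρ.comp (Polynomial.C 4 * Polynomial.X + 1), fun x => ?_⟩, ?_⟩
  · have h1 := length_lt_sz (g x)
    have h2 := hρ x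
    have h3 := eval_mono ρ (sz_listBool_le x)
    rw [Polynomial.eval_comp]
    simp only [Polynomial.eval_add, Polynomial.eval_mul, Polynomial.eval_C, Polynomial.eval_X,
      Polynomial.eval_one]
    omega
  · refine CPr.to_raw hC ?_
    have h1 := hg.part hC (f := fun z : List Bool =>
      (unbits (List (Option Bool)) (unpair z).2).map (fun b => ((unpair z).1, b)))
      (NPC.Poly.optMap (o := fun z : List Bool => unbits (List (Option Bool)) (unpair z).2)
        (f := fun (z : List Bool) b => ((unpair z).1, b))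
        (poly_unbits.comp (NPC.Poly.snd poly_unpair))
        (NPC.Poly.pair (NPC.Poly.fst (poly_unpair.comp (NPC.Poly.fst NPC.Poly.id)))
          (NPC.Poly.snd NPC.Poly.id)))
    have h2 : CPr C (fun z : List Bool => decide (z = pairBits (unpair z).1 (unpair z).2) = true) :=
      CPr.poly hC (NPC.Poly.decide_eq NPC.Poly.id (H622R2.poly_pairBits
        (NPC.Poly.fst poly_unpair) (NPC.Poly.snd poly_unpair)))
    refine (h1.and hC h2).congr fun z => ?_
    rw [decide_eq_true_eq]
    constructor
    · rintro ⟨⟨q, hq, hgq⟩, hz⟩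
      obtain ⟨b, hb, hqb⟩ := Option.map_eq_some_iff.1 hq
      refine ⟨(unpair z).1, ?_⟩
      rw [← hqb] at hgq
      simp only at hgq
      rw [hgq, bits_of_unbits hb]
      exact hz
    · rintro ⟨x, rfl⟩
      rw [unpair_pairBits, unbits_bits]
      exact ⟨⟨(x, g x), rfl, rfl⟩, rfl⟩

/-- the enumeration of the candidates -/
theorem enum_of_predictableIn (hC : Cl C) {δ ε : ℝ} (hδ : 0 < δ) (hε : 0 < ε)
    {A : Set (List Bool)} (h : PredictableIn C δ ε A) :
    ∃ (D c : ℕ) (E : List (List Bool) → List (List (Option Bool))), 1 ≤ D ∧ CFn C E ∧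
      ∀ qs, qs ≠ [] → (∀ q ∈ qs, q.length ^ c ≤ qs.length) →
        ∃ h ∈ E qs, good D h (answers A qs) = true := by
  obtain ⟨g, b, hg, hX⟩ := h
  obtain ⟨D, hD⟩ := exists_nat_ge (1 / (2 * δ))
  have hD1 : 1 ≤ (D : ℝ) * (2 * δ) := by
    rwa [div_le_iff₀ (by linarith)] at hD
  have hD0 : 1 ≤ D := by
    rcases Nat.eq_zero_or_pos D with h | h
    · subst h
      norm_num at hD1
    · exact h
  obtain ⟨c, hc⟩ := exists_nat_ge (1 / ε)
  have hc1 : 1 ≤ (c : ℝ) * ε := by
    rwa [div_le_iff₀ hε] at hc
  refine ⟨D, c, fun qs => (enuStep^[b * (Nat.log 2 (bits qs).length + 1)] [[]]).map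
      (fun t => g (pairBits (bits qs) t)), hD0, ?_, fun qs hqs hlen => ?_⟩
  · refine CFn.map hC (l := fun qs : List (List Bool) =>
      enuStep^[b * (Nat.log 2 (bits qs).length + 1)] [[]])
      (F := fun p : List (List Bool) × List Bool => g (pairBits (bits p.1) p.2))
      (enu_poly_all b) ?_
    exact (hg.toCFn hC).compPoly hC (H622R2.poly_pairBits
      (enu_poly_bits.comp (Poly.fst Poly.id)) (Poly.snd Poly.id))
  · obtain ⟨t, ht, hb⟩ := hX qs hqs (fun y hy =>
      length_cond hε hc1 (length_pos hqs) (hlen y hy))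
    exact ⟨_, List.mem_map.2 ⟨t, enu_mem _ _ ht, rfl⟩, good_of_beats hD1 A qs hqs _ hb⟩

/-- Advice along every reduction, with an enumerator computable in the class. -/
def HasAdv (C : Set (List Bool) → Prop) (A : Set (List Bool)) : Prop :=
  ∃ E : List (List Bool) → List (List (Option Bool)), CFn C E ∧
    ∀ (κ : Type) [TEnc κ] (F : κ × List Bool → List Bool), NPC.Poly F →
      ∃ Pm Pa : Polynomial ℕ, (∀ n, 1 ≤ Pm.eval n) ∧ ∀ (n : ℕ) (x : κ), sz x ≤ n →
        ∃ adv : List Item, sz adv ≤ Pa.eval n ∧ ∀ u : List Bool, u.length ≤ n →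
          (dcd (fun z => E (z.map (fun u => F (x, u)))) (Pm.eval n) adv u = true ↔ F (x, u) ∈ A)

theorem hasAdv_of_predictableIn (hC : Cl C) {δ ε : ℝ} (hδ : 0 < δ) (hε : 0 < ε)
    {A : Set (List Bool)} (h : PredictableIn C δ ε A) : HasAdv C A := by
  obtain ⟨D, c, E, hD, hE, hEA⟩ := enum_of_predictableIn hC hδ hε h
  obtain ⟨⟨pE, hpE⟩, _⟩ := hE
  exact ⟨E, ⟨⟨pE, hpE⟩, ‹_›⟩, fun κ _ F hF => adv_of_szEnum hD hpE hEA hF⟩

/-- **A set which is hard for `PSPACE` and has advice in the class.** -/
theorem pspace_sub_of_hasAdv (hC : Cl C)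
    (A : Set (List Bool)) (hA : PSPACEHard A) (h : HasAdv C A) :
    ∀ L : Set (List Bool), InPSPACE L → C L := by
  obtain ⟨E, hE, hadv'⟩ := h
  obtain ⟨f, hf, hfA⟩ := hA _ node_pspace
  set F : QF × List Bool → List Bool := fun p => f (bits p) with hF
  have hFp : NPC.Poly F := (PIso.poly_iff.2 hf).comp bits_poly
  have hFA : ∀ x u, F (x, u) ∈ A ↔ nodeP (x, u) := fun x u => by
    rw [hF]
    simp only
    rw [← hfA, bits_mem_lang]
  obtain ⟨Pm, Pa, hPm, hadv⟩ := hadv' QF F hFp
  -- the decisions with advice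
  set Dv : (QF × List Item) × List Bool → Bool := fun z =>
    dcd (fun y => E (y.map (fun u => F (z.1.1, u)))) (Pm.eval (sz z.1.1)) z.1.2 z.2 with hDv
  have hDvp : CFn C Dv := by
    have e1 : NPC.Poly (fun z : (QF × List Item) × List Bool => z.1.1) :=
      NPC.Poly.fst (NPC.Poly.fst NPC.Poly.id)
    have e2 : UPoly (fun z : (QF × List Item) × List Bool => Pm.eval (sz z.1.1)) := by
      refine ((UPoly.length (bits_poly.comp e1)).eval Pm).congr fun z => ?_
      simp only [bits_length]
    have e3 : NPC.Poly (fun q : ((QF × List Item) × List Bool) × List (List Bool) =>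
        q.2.map (fun u => F (q.1.1.1, u))) := by
      refine NPC.Poly.map (l := fun q : ((QF × List Item) × List Bool) ×
        List (List Bool) => q.2) (F := fun q u => F (q.1.1.1, u)) (NPC.Poly.snd NPC.Poly.id) ?_
      exact hFp.comp (NPC.Poly.pair (e1.comp (NPC.Poly.fst (NPC.Poly.fst NPC.Poly.id)))
        (NPC.Poly.snd NPC.Poly.id))
    exact CFn.dcd hC hE (G := fun q : ((QF × List Item) × List Bool) × List (List Bool) =>
        q.2.map (fun u => F (q.1.1.1, u))) e3 e2 (NPC.Poly.snd (NPC.Poly.fst NPC.Poly.id))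
      (NPC.Poly.snd NPC.Poly.id)
  -- the local test
  set T : ((QF × List Item) × List Bool) × (Bool × (Bool × Bool)) → Bool := fun y =>
    if y.1.2.length < y.1.1.1.1.length then
      decide (y.2.1 = (if y.1.1.1.1.getD y.1.2.length false then
        y.2.2.1 && y.2.2.2 else y.2.2.1 || y.2.2.2))
    else if y.1.2.length = y.1.1.1.1.length then decide (y.2.1 = evc y.1.2 y.1.1.1.2) else true
    with hT
  have hTp : NPC.Poly T := by
    have d0 : NPC.Poly (fun y : ((QF × List Item) × List Bool) × (Bool × (Bool × Bool)) =>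
        y.2.2.1) := by fun_prop
    have d1 : NPC.Poly (fun y : ((QF × List Item) × List Bool) × (Bool × (Bool × Bool)) =>
        y.2.2.2) := by fun_prop
    have d : NPC.Poly (fun y : ((QF × List Item) × List Bool) × (Bool × (Bool × Bool)) =>
        y.2.1) := by fun_prop
    have d2 : NPC.Poly (fun y : ((QF × List Item) × List Bool) × (Bool × (Bool × Bool)) =>
        evc y.1.2 y.1.1.1.2) :=
      evc_poly.comp (f := fun y : ((QF × List Item) × List Bool) × (Bool × (Bool × Bool)) =>
        (y.1.2, y.1.1.1.2)) (by fun_prop)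
    have d3 : NPC.Poly (fun y : ((QF × List Item) × List Bool) × (Bool × (Bool × Bool)) =>
        decide (y.1.1.1.1.getD y.1.2.length false = true)) := by fun_prop
    have d4 : NPC.Poly (fun y : ((QF × List Item) × List Bool) × (Bool × (Bool × Bool)) =>
      decide (y.1.2.length < y.1.1.1.1.length)) := by fun_prop
    have d5 : NPC.Poly (fun y : ((QF × List Item) × List Bool) × (Bool × (Bool × Bool)) =>
      decide (y.1.2.length = y.1.1.1.1.length)) := by fun_prop
    rw [hT]
    refine NPC.Poly.ite d4 (NPC.Poly.decide_eq d (NPC.Poly.ite d3 (NPC.Poly.and d0 d1)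
      (NPC.Poly.or d0 d1))) (NPC.Poly.ite d5 (NPC.Poly.decide_eq d d2) (NPC.Poly.const _))
  set chk : (QF × List Item) × List Bool → Bool := fun z =>
    T (z, (Dv z, (Dv (z.1, z.2 ++ [false]), Dv (z.1, z.2 ++ [true])))) with hchk
  have hchkp : CPr C (fun z => chk z = true) := by
    have d0 : CFn C (fun z : (QF × List Item) × List Bool => Dv (z.1, z.2 ++ [false])) :=
      hDvp.compPoly hC (f := fun z : (QF × List Item) × List Bool => (z.1, z.2 ++ [false]))
        (by fun_prop)
    have d1 : CFn C (fun z : (QF × List Item) × List Bool => Dv (z.1, z.2 ++ [true])) :=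
      hDvp.compPoly hC (f := fun z : (QF × List Item) × List Bool => (z.1, z.2 ++ [true]))
        (by fun_prop)
    exact CFn.isTrue hC ((CFn.poly hC hTp).comp hC
      ((CFn.poly hC NPC.Poly.id).pair hC (hDvp.pair hC (d0.pair hC d1))))
  have hlen : ∀ x : QF, x.1.length < sz x := fun x => by
    have h1 := length_lt_sz x.1
    have h2 : sz x = sz x.1 + sz x.2 + 1 := sz_pair x.1 x.2
    omega
  have hval : CPr C (fun x : QF => nodeVal x [] = true) := by
    refine sigmaC hC hchkp (out := fun z : QF × List Item => Dv (z, []) = true)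
      (CFn.isTrue hC (hDvp.compPoly hC (f := fun z : QF × List Item => (z, [])) (by fun_prop)))
      Pa Polynomial.X (fun x => ?_) (fun x a hxa => ?_)
    · obtain ⟨adv, h1, h2⟩ := hadv (sz x) x le_rfl
      refine ⟨adv, h1, fun w hw => ?_⟩
      rw [Polynomial.eval_X] at hw
      have key : ∀ u : List Bool, u.length ≤ x.1.length → Dv ((x, adv), u) = nodeVal x u := by
        intro u hu
        have h3 := h2 u (by have := hlen x; omega)
        rw [hFA] at h3
        rw [Bool.eq_iff_iff]
        refine h3.trans ?_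
        unfold nodeP
        simp only
        constructor
        · exact fun h => h.2
        · exact fun h => ⟨hu, h⟩
      rw [hchk, hT]
      simp only
      by_cases g1 : w.length < x.1.length
      · rw [if_pos g1, decide_eq_true_eq, key w g1.le, key _ (by simp; omega),
          key _ (by simp; omega), nodeVal_step x w g1]
        cases x.1.getD w.length false <;> rfl
      · rw [if_neg g1]
        by_cases g2 : w.length = x.1.length
        · rw [if_pos g2, decide_eq_true_eq, key w g2.le, nodeVal_leaf x w g2]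
        · rw [if_neg g2]
    · have key : ∀ (k : ℕ) (u : List Bool), u.length + k = x.1.length →
          Dv ((x, a), u) = nodeVal x u := by
        intro k
        induction k with
        | zero =>
          intro u hu
          have h1 := hxa u (by rw [Polynomial.eval_X]; have := hlen x; omega)
          rw [hchk, hT] at h1
          simp only at h1
          rw [if_neg (by omega), if_pos (by omega), decide_eq_true_eq] at h1
          rw [h1, nodeVal_leaf x u (by omega)]
        | succ k ih =>
          intro u hu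
          have h1 := hxa u (by rw [Polynomial.eval_X]; have := hlen x; omega)
          rw [hchk, hT] at h1
          simp only at h1
          rw [if_pos (by omega), decide_eq_true_eq] at h1
          rw [h1, ih (u ++ [false]) (by simp; omega), ih (u ++ [true]) (by simp; omega),
            nodeVal_step x u (by omega)]
          cases x.1.getD u.length false <;> rfl
      rw [key x.1.length [] (by simp)]
  intro L hL
  obtain ⟨g, hg, _, hgL⟩ := qbf_hard hL
  have h1 : C {x | nodeVal (g x) [] = true} :=
    CPr.to_raw hC (hval.comp hC hg)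
  have e : L = {x | nodeVal (g x) [] = true} := Set.ext fun x => by
    rw [hgL x, Set.mem_setOf_eq]
    unfold nodeVal
    simp
  rw [e]
  exact h1

/-- **Prediction in the class of a set which is hard for `PSPACE`.** -/
theorem pspace_sub_of_predictableIn (hC : Cl C) {δ ε : ℝ} (hδ : 0 < δ) (hε : 0 < ε)
    (A : Set (List Bool)) (hA : PSPACEHard A) (h : PredictableIn C δ ε A) :
    ∀ L : Set (List Bool), InPSPACE L → C L :=
  pspace_sub_of_hasAdv hC A hA (hasAdv_of_predictableIn hC hδ hε h)

/-- sets in the class are fully predictable in the class -/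
theorem fully_of_in (hC : Cl C) {δ : ℝ} (hδ : δ ≤ 1 / 2) {A : Set (List Bool)} (hA : C A) :
    FullyPredictableIn C δ A := by
  classical
  set g : List Bool → List (Option Bool) := fun x =>
    ((unbits (List (List Bool)) x).getD []).map (fun y => some (decide (y ∈ A))) with hg
  have hgC : CFn C g := by
    refine CFn.map hC (l := fun x : List Bool => (unbits (List (List Bool)) x).getD [])
      (F := fun q : List Bool × List Bool => some (decide (q.2 ∈ A)))
      (NPC.Poly.optGetD (g := fun _ => []) poly_unbits (NPC.Poly.const _)) ?_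
    have h1 : CPr C (fun q : List Bool × List Bool => q.2 ∈ A) :=
      (CPr.of_raw hC hA).comp hC (f := fun q : List Bool × List Bool => q.2)
        (NPC.Poly.snd NPC.Poly.id)
    have h2 : CFn C (fun q : List Bool × List Bool => decide (q.2 ∈ A)) := CFn.dec hC h1
    exact (CFn.poly hC (NPC.Poly.some NPC.Poly.id)).comp hC h2
  refine ⟨g, FnIn.of_CFn hC hgC, fun qs hqs => ?_⟩
  have h1 : g (bits qs) = (answers A qs).map some := by
    rw [hg]
    simp only
    rw [unbits_bits, Option.getD_some]
    unfold answers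
    rw [List.map_map]
    rfl
  rw [h1]
  refine ⟨full_beats hδ A qs hqs, fun a ha => ?_⟩
  obtain ⟨i, _, rfl⟩ := List.mem_map.1 ha
  simp

theorem FullyPredictableIn.predictableIn (hC : Cl C) {δ : ℝ} {A : Set (List Bool)}
    (h : FullyPredictableIn C δ A) (ε : ℝ) : PredictableIn C δ ε A := by
  obtain ⟨g, hg, h⟩ := h
  refine ⟨fun z => g (unpair z).1, 0, FnIn.of_CFn hC ((hg.toCFn hC).compPoly hC
    (NPC.Poly.fst poly_unpair)), fun qs hqs _ => ⟨[], by simp, ?_⟩⟩
  simp only [unpair_pairBits]
  exact (h qs hqs).1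

/-- **The square-root law in a class, for polynomial space.** -/
theorem class_pspace_law (hC : Cl C) {δ ε : ℝ} (h1 : 0 < δ) (h2 : δ ≤ 1 / 2) (h3 : 0 < ε) :
    List.TFAE
      [∀ L : Set (List Bool), InPSPACE L → C L,
        ∃ A : Set (List Bool), PSPACEHard A ∧ PredictableIn C δ ε A,
        ∀ A : Set (List Bool), InPSPACE A → FullyPredictableIn C δ A] := by
  tfae_have 1 → 3 := fun h A hA => fully_of_in hC h2 (h A hA)
  tfae_have 3 → 2 := fun h => ⟨_, node_hard, (h _ node_pspace).predictableIn hC ε⟩
  tfae_have 2 → 1 := fun ⟨A, hA, h⟩ => pspace_sub_of_predictableIn hC h1 h3 A hA h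
  tfae_finish

end

end Pool.Agent.W901.NU
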