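import Pool.Agent.W901.NU.EXb

/-!
# Sets which are hard for `EXPTIME` are not predictable
-/

set_option autoImplicit false

namespace Pool.Agent.W901.NU

open Pool.Agent.NPC Pool.Agent.H251R5.PQ Pool.Agent.W901.AT Pool.Agent.H579R2.Spt
open Pool.Agent.H820R2.SS (ARM ARule ARMPr ARMAcc Der upd InEXPTIME Gen inEXPTIME_of_gen
  inEXPTIME_of_inNP exists_exptime_not_p)

/-- the node coded by a string, or a default -/
def dn (w : List Bool) : Nd := (unbits Nd w).getD (0, ([], 0))

theorem dn_poly : Poly dn :=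
  NPC.Poly.optGetD (g := fun _ => ((0, ([], 0)) : Nd)) poly_unbits (NPC.Poly.const _)

theorem dn_bits (d : Nd) : dn (bits d) = d := by
  unfold dn
  rw [unbits_bits, Option.getD_some]

theorem dn_length (w : List Bool) : (bits (dn w)).length ≤ max w.length 10 := by
  unfold dn
  cases h : unbits Nd w with
  | none =>
    rw [Option.getD_none]
    refine le_trans ?_ (le_max_right _ _)
    have := nd_length 0 0 [] (B := 0)
    rw [bits_length, sz_pair, sz_pair]
    have h1 : sz (0 : ℕ) ≤ 1 := by simpa using sz_nat_le 0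
    have h2 : sz ([] : List Bool) = 1 := sz_list_nil
    omega
  | some d =>
    rw [Option.getD_some, bits_of_unbits h]
    exact le_max_left _ _

theorem nd_parts (d : Nd) : sz d.1 ≤ (bits d).length ∧ d.2.1.length ≤ (bits d).length ∧
    d.2.2.size ≤ (bits d).length := by
  have e1 : sz d = sz d.1 + sz d.2 + 1 := sz_pair d.1 d.2
  have e2 : sz d.2 = sz d.2.1 + sz d.2.2 + 1 := sz_pair d.2.1 d.2.2
  have e3 := length_lt_sz d.2.1
  have e4 : (d.2.2).size ≤ sz d.2.2 := by
    have h1 : sz d.2.2 = sz (d.2.2).bits := rfl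
    have h2 := length_lt_sz (d.2.2).bits
    rw [Nat.size_eq_bits_len] at *
    omega
  rw [bits_length]
  omega

/-- the last node -/
def lastN (M : ARM) : Nd :=
  (M.2.1, (List.replicate M.1.length false, M.2.2.length * 2 ^ M.1.length))

theorem lastN_poly : Poly lastN := by
  unfold lastN
  have e1 : Poly (fun M : ARM => M.1) := NPC.Poly.fst NPC.Poly.id
  have e2 : Poly (fun M : ARM => M.2.2) := NPC.Poly.snd (NPC.Poly.snd NPC.Poly.id)
  exact NPC.Poly.pair (NPC.Poly.fst (NPC.Poly.snd NPC.Poly.id))
    (NPC.Poly.pair (Pool.Agent.H623R2.PS.poly_replicate (UPoly.length e1) false)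
      (NPC.Poly.mul (NPC.Poly.length e2) (two_pow_poly (UPoly.length e1))))

theorem exp_sub_p {δ ε : ℝ} (hδ : 0 < δ) (hε : 0 < ε) (A : Set (List Bool))
    (hA : EXPHard A) (h : Predictable δ ε A) : ∀ L : Set (List Bool), InEXPTIME L → InP L := by
  have hPNP : ∀ L : Set (List Bool), InNP L → InP L :=
    p_eq_np_of_predictable hδ hε A (fun L hL => hA L (inEXPTIME_of_inNP hL)) h
  obtain ⟨D, c, E, hD, hEA⟩ := corEnum_of_predictable hδ hε h
  obtain ⟨f, hf, hfA⟩ := hA _ node_exp
  set F : ARM × List Bool → List Bool := fun z => f (bits ((z.1, dn z.2) : ARM × Nd)) with hF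
  have hFp : Poly F :=
    (PIso.poly_iff.2 hf).comp (bits_poly.comp (NPC.Poly.pair (NPC.Poly.fst NPC.Poly.id)
      (dn_poly.comp (NPC.Poly.snd NPC.Poly.id))))
  have hFA : ∀ (M : ARM) (d : Nd), F (M, bits d) ∈ A ↔ ndv (M, d) = true := fun M d => by
    rw [hF]
    simp only
    rw [dn_bits, ← hfA, bits_mem_lang]
  obtain ⟨Pm, Pa, hPm, hadv⟩ := adv_of_corEnum hD hEA hFp
  set q1 : Polynomial ℕ := Polynomial.C 10 * Polynomial.X + 10 with hq1
  set nP : Polynomial ℕ := Polynomial.C 9 * (q1 + Polynomial.X) + 4 with hnP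
  have eq1 : ∀ s, q1.eval s = 10 * s + 10 := fun s => by simp [hq1]
  have enP : ∀ s, nP.eval s = 9 * (10 * s + 10 + s) + 4 := fun s => by simp [hnP, eq1]
  -- the decisions with advice
  set Dv : (ARM × List Item) × Nd → Bool := fun z =>
    dcd (fun y => E (y.map (fun u => F (z.1.1, u)))) (Pm.eval (nP.eval (sz z.1.1))) z.1.2
      (bits z.2) with hDv
  have hDvp : Poly Dv := by
    have e1 : Poly (fun z : (ARM × List Item) × Nd => z.1.1) :=
      NPC.Poly.fst (NPC.Poly.fst NPC.Poly.id)
    have e2 : UPoly (fun z : (ARM × List Item) × Nd => Pm.eval (nP.eval (sz z.1.1))) := by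
      refine (((UPoly.length (bits_poly.comp e1)).eval nP).eval Pm).congr fun z => ?_
      simp only [bits_length]
    have e3 : Poly (fun q : ((ARM × List Item) × Nd) × List (List Bool) =>
        E (q.2.map (fun u => F (q.1.1.1, u)))) := by
      refine hEA.1.comp (NPC.Poly.map (l := fun q : ((ARM × List Item) × Nd) ×
        List (List Bool) => q.2) (F := fun q u => F (q.1.1.1, u)) (NPC.Poly.snd NPC.Poly.id) ?_)
      exact hFp.comp (NPC.Poly.pair (e1.comp (NPC.Poly.fst (NPC.Poly.fst NPC.Poly.id)))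
        (NPC.Poly.snd NPC.Poly.id))
    have e4 : Poly (fun z : (ARM × List Item) × Nd => bits z.2) :=
      bits_poly.comp (NPC.Poly.snd NPC.Poly.id)
    exact dcd_poly (E := fun (z : (ARM × List Item) × Nd) y =>
      E (y.map (fun u => F (z.1.1, u)))) e3 e2 (NPC.Poly.snd (NPC.Poly.fst NPC.Poly.id)) e4
  -- the local test
  set rhs : (ARM × List Item) × Nd → Bool := fun z =>
    z.1.1.2.2.any (fun r => decide (r.1 = z.2.1) && (gd z.2.2.1 r.2.1 &&
      r.2.2.all (fun s => Dv (z.1, (s.1, (updL z.2.2.1 s.2, z.2.2.2 - 1)))))) with hrhs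
  have hrhsp : Poly rhs := by
    rw [hrhs]
    refine NPC.Poly.any (l := fun z : (ARM × List Item) × Nd => z.1.1.2.2)
      (p := fun z r => decide (r.1 = z.2.1) && (gd z.2.2.1 r.2.1 &&
        r.2.2.all (fun s => Dv (z.1, (s.1, (updL z.2.2.1 s.2, z.2.2.2 - 1))))))
      (NPC.Poly.snd (NPC.Poly.snd (NPC.Poly.fst (NPC.Poly.fst NPC.Poly.id)))) ?_
    have e1 : Poly (fun q : ((ARM × List Item) × Nd) × ARule => q.1) := NPC.Poly.fst NPC.Poly.id
    have er : Poly (fun q : ((ARM × List Item) × Nd) × ARule => q.2) := NPC.Poly.snd NPC.Poly.id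
    have ed : Poly (fun q : ((ARM × List Item) × Nd) × ARule => q.1.2) := NPC.Poly.snd e1
    refine NPC.Poly.and (NPC.Poly.decide_eq (NPC.Poly.fst er) (NPC.Poly.fst ed))
      (NPC.Poly.and (gd_poly (NPC.Poly.fst (NPC.Poly.snd ed)) (NPC.Poly.fst (NPC.Poly.snd er))) ?_)
    refine NPC.Poly.all (l := fun q : ((ARM × List Item) × Nd) × ARule => q.2.2.2)
      (p := fun q s => Dv (q.1.1, (s.1, (updL q.1.2.2.1 s.2, q.1.2.2.2 - 1))))
      (NPC.Poly.snd (NPC.Poly.snd er)) ?_
    have g1 : Poly (fun q : (((ARM × List Item) × Nd) × ARule) × (ℕ × List (ℕ × Bool)) => q.1) :=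
      NPC.Poly.fst NPC.Poly.id
    have g2 : Poly (fun q : (((ARM × List Item) × Nd) × ARule) × (ℕ × List (ℕ × Bool)) =>
        q.1.1.1) := NPC.Poly.fst (NPC.Poly.fst g1)
    have g3 : Poly (fun q : (((ARM × List Item) × Nd) × ARule) × (ℕ × List (ℕ × Bool)) =>
        q.1.1.2) := NPC.Poly.snd (NPC.Poly.fst g1)
    have g4 : Poly (fun q : (((ARM × List Item) × Nd) × ARule) × (ℕ × List (ℕ × Bool)) =>
        q.2) := NPC.Poly.snd NPC.Poly.id
    exact hDvp.comp (NPC.Poly.pair g2 (NPC.Poly.pair (NPC.Poly.fst g4) (NPC.Poly.pair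
      (updL_poly (NPC.Poly.fst (NPC.Poly.snd g3)) (NPC.Poly.snd g4))
      (NPC.Poly.sub (NPC.Poly.snd (NPC.Poly.snd g3)) (NPC.Poly.const 1)))))
  set chk : (ARM × List Item) × List Bool → Bool := fun z =>
    if (dn z.2).2.2 = 0 then decide (Dv (z.1, dn z.2) = false) else
      decide (Dv (z.1, dn z.2) = rhs (z.1, dn z.2)) with hchk
  have hchkp : Poly chk := by
    have e1 : Poly (fun z : (ARM × List Item) × List Bool => (z.1, dn z.2)) :=
      NPC.Poly.pair (NPC.Poly.fst NPC.Poly.id) (dn_poly.comp (NPC.Poly.snd NPC.Poly.id))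
    have e2 : Poly (fun z : (ARM × List Item) × List Bool => (dn z.2).2.2) :=
      NPC.Poly.snd (NPC.Poly.snd (dn_poly.comp (NPC.Poly.snd NPC.Poly.id)))
    rw [hchk]
    exact NPC.Poly.ite (NPC.Poly.decide_eq e2 (NPC.Poly.const 0))
      (NPC.Poly.decide_eq (hDvp.comp e1) (NPC.Poly.const false))
      (NPC.Poly.decide_eq (hDvp.comp e1) (hrhsp.comp e1))
  have hM : ∀ M : ARM, M.2.2.length + M.1.length ≤ sz M ∧ sz M.2.1 ≤ sz M ∧
      ∀ r ∈ M.2.2, ∀ s ∈ r.2.2, sz s.1 ≤ sz M := fun M => by
    have e1 : sz M = sz M.1 + sz M.2 + 1 := sz_pair M.1 M.2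
    have e2 : sz M.2 = sz M.2.1 + sz M.2.2 + 1 := sz_pair M.2.1 M.2.2
    have e3 := length_lt_sz M.1
    have e4 := length_lt_sz M.2.2
    refine ⟨by omega, by omega, fun r hr s hs => ?_⟩
    have f1 := sz_le_of_mem hr
    have f2 := sz_le_of_mem hs
    have f3 : sz r = sz r.1 + sz r.2 + 1 := sz_pair r.1 r.2
    have f4 : sz r.2 = sz r.2.1 + sz r.2.2 + 1 := sz_pair r.2.1 r.2.2
    have f5 : sz s = sz s.1 + sz s.2 + 1 := sz_pair s.1 s.2
    omega
  have hval : Poly (fun M : ARM => ndv (M, lastN M)) := by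
    refine sigma2 hPNP hchkp (out := fun z : ARM × List Item => Dv (z, lastN z.1)) ?_
      (Pa.comp nP) q1 (fun M => ?_) (fun M a hxa => ?_)
    · exact hDvp.comp (NPC.Poly.pair NPC.Poly.id (lastN_poly.comp (NPC.Poly.fst NPC.Poly.id)))
    · obtain ⟨adv, h1, h2⟩ := hadv (nP.eval (sz M)) M (by rw [enP]; omega)
      refine ⟨adv, by rw [Polynomial.eval_comp]; exact h1, fun w hw => ?_⟩
      have key : ∀ d : Nd, (bits d).length ≤ nP.eval (sz M) → Dv ((M, adv), d) = ndv (M, d) := by
        intro d hd
        have h3 := h2 (bits d) hd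
        rw [hFA] at h3
        rw [Bool.eq_iff_iff]
        exact h3
      have hw' : (bits (dn w)).length ≤ 10 * sz M + 10 := by
        have h4 := dn_length w
        rw [eq1] at hw
        omega
      obtain ⟨p1, p2, p3⟩ := nd_parts (dn w)
      rw [hchk]
      simp only
      rw [key (dn w) (by rw [enP]; omega)]
      by_cases hk : (dn w).2.2 = 0
      · rw [if_pos hk, decide_eq_true_eq]
        unfold ndv
        simp only
        rw [hk]
        rfl
      · rw [if_neg hk, decide_eq_true_eq, hrhs]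
        simp only
        obtain ⟨k, hk'⟩ : ∃ k, (dn w).2.2 = k + 1 := ⟨(dn w).2.2 - 1, by omega⟩
        have hkey : ∀ r ∈ M.2.2, ∀ s ∈ r.2.2,
            Dv ((M, adv), (s.1, (updL (dn w).2.1 s.2, (dn w).2.2 - 1))) =
              drv M.2.2 k s.1 (updL (dn w).2.1 s.2) := by
          intro r hr s hs
          rw [hk', Nat.add_sub_cancel]
          have hs1 := (hM M).2.2 r hr s hs
          have hk2 : k.size ≤ (k + 1).size := Nat.size_le_size (Nat.le_succ k)
          rw [hk'] at p3
          rw [key _ (by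
            refine (nd_length s.1 k (updL (dn w).2.1 s.2) (B := 10 * sz M + 10 + sz M) (by omega)
              (by rw [updL_length]; omega) (by omega)).trans ?_
            rw [enP])]
          rfl
        unfold ndv
        simp only
        rw [hk', drv_succ, Bool.eq_iff_iff]
        simp only [List.any_eq_true, Bool.and_eq_true, decide_eq_true_eq, List.all_eq_true]
        refine exists_congr fun r => and_congr_right fun hr => and_congr_right fun _ =>
          and_congr_right fun _ => forall₂_congr fun s hs => ?_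
        rw [← hk', hkey r hr s hs]
    · have key : ∀ (k q : ℕ) (ρ : List Bool), sz q ≤ sz M → ρ.length = M.1.length →
          k ≤ M.2.2.length * 2 ^ M.1.length → Dv ((M, a), (q, (ρ, k))) = drv M.2.2 k q ρ := by
        intro k
        induction k with
        | zero =>
          intro q ρ hq hρ hk
          have h1 := hxa (bits ((q, (ρ, 0)) : Nd)) (by
            refine (nd_length q 0 ρ (B := sz M) hq (by have := (hM M).1; omega)
              (by simp)).trans ?_
            rw [eq1]
            omega)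
          rw [hchk] at h1
          simp only at h1
          rw [dn_bits] at h1
          simp only [if_true, decide_eq_true_eq] at h1
          rw [h1]
          rfl
        | succ k ih =>
          intro q ρ hq hρ hk
          have hsize : (k + 1).size ≤ sz M := by
            have e1 : k + 1 < 2 ^ (M.2.2.length + M.1.length) := by
              refine lt_of_le_of_lt hk ?_
              rw [pow_add]
              exact Nat.mul_lt_mul_of_pos_right Nat.lt_two_pow_self (by positivity)
            have e2 := Nat.size_le.2 e1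
            have := (hM M).1
            omega
          have h1 := hxa (bits ((q, (ρ, k + 1)) : Nd)) (by
            refine (nd_length q (k + 1) ρ (B := sz M) hq (by have := (hM M).1; omega)
              hsize).trans ?_
            rw [eq1]
            omega)
          rw [hchk] at h1
          simp only at h1
          rw [dn_bits] at h1
          simp only [Nat.succ_ne_zero, if_false, decide_eq_true_eq] at h1
          rw [h1, hrhs, drv_succ, Bool.eq_iff_iff]
          simp only [List.any_eq_true, Bool.and_eq_true, decide_eq_true_eq, List.all_eq_true,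
            Nat.add_sub_cancel]
          refine exists_congr fun r => and_congr_right fun hr => and_congr_right fun _ =>
            and_congr_right fun _ => forall₂_congr fun s hs => ?_
          rw [ih s.1 (updL ρ s.2) ((hM M).2.2 r hr s hs) (by rw [updL_length, hρ]) (by omega)]
      exact key _ _ _ (hM M).2.1 (by simp) le_rfl
  intro L hL
  obtain ⟨g, hg, hgpr, hgL⟩ := Pool.Agent.NPC.ARM578.exptime_arm hL
  have hg' : Poly g := PC.comp hg Pool.Agent.NPC.Cnt.pc_raw
  refine ⟨fun x => [ndv (g x, lastN (g x))], polyTime_of_poly (hval.comp hg'), fun x => ?_⟩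
  rw [hgL x, armAcc_iff (hgpr x)]
  unfold ndv lastN
  simp

/-- **No set which is hard for `EXPTIME` is predictable.** -/
theorem not_predictable_of_exp {δ ε : ℝ} (hδ : 0 < δ) (hε : 0 < ε) {A : Set (List Bool)}
    (hA : EXPHard A) : ¬ Predictable δ ε A := fun h => by
  obtain ⟨L, h1, h2⟩ := exists_exptime_not_p
  exact h2 (exp_sub_p hδ hε A hA h L h1)

end Pool.Agent.W901.NU
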