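import Pool.Agent.W901.NU.ClsB
import Pool.Agent.W901.NU.EXc
import Pool.Agent.W903.GP.Hier

/-!
# Prediction in a class and exponential time
-/

set_option autoImplicit false

namespace Pool.Agent.W901.NU

open Pool.Agent.NPC Pool.Agent.H251R5.PQ Pool.Agent.W901.AT Pool.Agent.H579R2.Spt
open Pool.Agent.H820R2.SS (ARM ARule ARMPr ARMAcc Der upd InEXPTIME Gen inEXPTIME_of_gen
  inEXPTIME_of_inNP exists_exptime_not_p)

theorem node_exp_hard : EXPHard (lang (fun z : ARM × Nd => ndv z = true)) := by
  intro L hL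
  obtain ⟨g, hg, hgpr, hgL⟩ := Pool.Agent.NPC.ARM578.exptime_arm hL
  have hg' : Poly g := PC.comp hg Pool.Agent.NPC.Cnt.pc_raw
  refine ⟨fun x => bits ((g x, lastN (g x)) : ARM × Nd), polyTime_bits (NPC.Poly.pair hg'
    (lastN_poly.comp hg')), fun x => ?_⟩
  rw [bits_mem_lang, hgL x, armAcc_iff (hgpr x)]
  rfl

section

variable {C : Set (List Bool) → Prop}

/-- **A set which is hard for `EXPTIME` and has advice in the class.** -/
theorem exp_sub_of_hasAdv (hC : Cl C)
    (A : Set (List Bool)) (hA : EXPHard A) (h : HasAdv C A) :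
    ∀ L : Set (List Bool), InEXPTIME L → C L := by
  obtain ⟨E, hE, hadv'⟩ := h
  obtain ⟨f, hf, hfA⟩ := hA _ node_exp
  set F : ARM × List Bool → List Bool := fun z => f (bits ((z.1, dn z.2) : ARM × Nd)) with hF
  have hFp : Poly F :=
    (PIso.poly_iff.2 hf).comp (bits_poly.comp (NPC.Poly.pair (NPC.Poly.fst NPC.Poly.id)
      (dn_poly.comp (NPC.Poly.snd NPC.Poly.id))))
  have hFA : ∀ (M : ARM) (d : Nd), F (M, bits d) ∈ A ↔ ndv (M, d) = true := fun M d => by
    rw [hF]
    simp only
    rw [dn_bits, ← hfA, bits_mem_lang]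
  obtain ⟨Pm, Pa, hPm, hadv⟩ := hadv' ARM F hFp
  set q1 : Polynomial ℕ := Polynomial.C 10 * Polynomial.X + 10 with hq1
  set nP : Polynomial ℕ := Polynomial.C 9 * (q1 + Polynomial.X) + 4 with hnP
  have eq1 : ∀ s, q1.eval s = 10 * s + 10 := fun s => by simp [hq1]
  have enP : ∀ s, nP.eval s = 9 * (10 * s + 10 + s) + 4 := fun s => by simp [hnP, eq1]
  -- the decisions with advice
  set Dv : (ARM × List Item) × Nd → Bool := fun z =>
    dcd (fun y => E (y.map (fun u => F (z.1.1, u)))) (Pm.eval (nP.eval (sz z.1.1))) z.1.2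
      (bits z.2) with hDv
  have hDvp : CFn C Dv := by
    have e1 : Poly (fun z : (ARM × List Item) × Nd => z.1.1) :=
      NPC.Poly.fst (NPC.Poly.fst NPC.Poly.id)
    have e2 : UPoly (fun z : (ARM × List Item) × Nd => Pm.eval (nP.eval (sz z.1.1))) := by
      refine (((UPoly.length (bits_poly.comp e1)).eval nP).eval Pm).congr fun z => ?_
      simp only [bits_length]
    have e3 : Poly (fun q : ((ARM × List Item) × Nd) × List (List Bool) =>
        q.2.map (fun u => F (q.1.1.1, u))) := by
      refine NPC.Poly.map (l := fun q : ((ARM × List Item) × Nd) ×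
        List (List Bool) => q.2) (F := fun q u => F (q.1.1.1, u)) (NPC.Poly.snd NPC.Poly.id) ?_
      exact hFp.comp (NPC.Poly.pair (e1.comp (NPC.Poly.fst (NPC.Poly.fst NPC.Poly.id)))
        (NPC.Poly.snd NPC.Poly.id))
    have e4 : Poly (fun z : (ARM × List Item) × Nd => bits z.2) :=
      bits_poly.comp (NPC.Poly.snd NPC.Poly.id)
    exact CFn.dcd hC hE (G := fun q : ((ARM × List Item) × Nd) × List (List Bool) =>
        q.2.map (fun u => F (q.1.1.1, u))) e3 e2 (NPC.Poly.snd (NPC.Poly.fst NPC.Poly.id)) e4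
  have hDvt : CPr C (fun z => Dv z = true) := CFn.isTrue hC hDvp
  -- the local test
  set rhs : (ARM × List Item) × Nd → Prop := fun z =>
    ∃ r ∈ z.1.1.2.2, (decide (r.1 = z.2.1) && gd z.2.2.1 r.2.1) = true ∧
      ∀ s ∈ r.2.2, Dv (z.1, (s.1, (updL z.2.2.1 s.2, z.2.2.2 - 1))) = true with hrhs
  have hrhsp : CPr C rhs := by
    rw [hrhs]
    refine CPr.exMem hC (l := fun z : (ARM × List Item) × Nd => z.1.1.2.2)
      (P := fun q : ((ARM × List Item) × Nd) × ARule =>
        (decide (q.2.1 = q.1.2.1) && gd q.1.2.2.1 q.2.2.1) = true ∧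
          ∀ s ∈ q.2.2.2, Dv (q.1.1, (s.1, (updL q.1.2.2.1 s.2, q.1.2.2.2 - 1))) = true)
      (NPC.Poly.snd (NPC.Poly.snd (NPC.Poly.fst (NPC.Poly.fst NPC.Poly.id)))) ?_
    have e1 : Poly (fun q : ((ARM × List Item) × Nd) × ARule => q.1) := NPC.Poly.fst NPC.Poly.id
    have er : Poly (fun q : ((ARM × List Item) × Nd) × ARule => q.2) := NPC.Poly.snd NPC.Poly.id
    have ed : Poly (fun q : ((ARM × List Item) × Nd) × ARule => q.1.2) := NPC.Poly.snd e1
    refine CPr.and hC (CPr.poly hC (NPC.Poly.and (NPC.Poly.decide_eq (NPC.Poly.fst er)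
      (NPC.Poly.fst ed)) (gd_poly (NPC.Poly.fst (NPC.Poly.snd ed))
        (NPC.Poly.fst (NPC.Poly.snd er))))) ?_
    refine CPr.allMem hC (l := fun q : ((ARM × List Item) × Nd) × ARule => q.2.2.2)
      (P := fun q : (((ARM × List Item) × Nd) × ARule) × (ℕ × List (ℕ × Bool)) =>
        Dv (q.1.1.1, (q.2.1, (updL q.1.1.2.2.1 q.2.2, q.1.1.2.2.2 - 1))) = true)
      (NPC.Poly.snd (NPC.Poly.snd er)) ?_
    have g1 : Poly (fun q : (((ARM × List Item) × Nd) × ARule) × (ℕ × List (ℕ × Bool)) => q.1) :=
      NPC.Poly.fst NPC.Poly.id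
    have g2 : Poly (fun q : (((ARM × List Item) × Nd) × ARule) × (ℕ × List (ℕ × Bool)) =>
        q.1.1.1) := NPC.Poly.fst (NPC.Poly.fst g1)
    have g3 : Poly (fun q : (((ARM × List Item) × Nd) × ARule) × (ℕ × List (ℕ × Bool)) =>
        q.1.1.2) := NPC.Poly.snd (NPC.Poly.fst g1)
    have g4 : Poly (fun q : (((ARM × List Item) × Nd) × ARule) × (ℕ × List (ℕ × Bool)) =>
        q.2) := NPC.Poly.snd NPC.Poly.id
    exact hDvt.comp hC (NPC.Poly.pair g2 (NPC.Poly.pair (NPC.Poly.fst g4) (NPC.Poly.pair
      (updL_poly (NPC.Poly.fst (NPC.Poly.snd g3)) (NPC.Poly.snd g4))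
      (NPC.Poly.sub (NPC.Poly.snd (NPC.Poly.snd g3)) (NPC.Poly.const 1)))))
  set chk : (ARM × List Item) × List Bool → Prop := fun z =>
    (decide ((dn z.2).2.2 = 0) = true ∧ ¬ Dv (z.1, dn z.2) = true) ∨
      (¬ decide ((dn z.2).2.2 = 0) = true ∧ (Dv (z.1, dn z.2) = true ↔ rhs (z.1, dn z.2)))
    with hchk
  have hchkp : CPr C chk := by
    have e1 : Poly (fun z : (ARM × List Item) × List Bool => (z.1, dn z.2)) :=
      NPC.Poly.pair (NPC.Poly.fst NPC.Poly.id) (dn_poly.comp (NPC.Poly.snd NPC.Poly.id))
    have e2 : Poly (fun z : (ARM × List Item) × List Bool => (dn z.2).2.2) :=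
      NPC.Poly.snd (NPC.Poly.snd (dn_poly.comp (NPC.Poly.snd NPC.Poly.id)))
    have e3 : CPr C (fun z : (ARM × List Item) × List Bool =>
        decide ((dn z.2).2.2 = 0) = true) :=
      CPr.poly hC (NPC.Poly.decide_eq e2 (NPC.Poly.const 0))
    have e4 : CPr C (fun z : (ARM × List Item) × List Bool => Dv (z.1, dn z.2) = true) :=
      hDvt.comp hC e1
    have e5 : CPr C (fun z : (ARM × List Item) × List Bool => rhs (z.1, dn z.2)) :=
      hrhsp.comp hC e1
    rw [hchk]
    exact (e3.and hC (e4.not hC)).or hC ((e3.not hC).and hC (e4.iff hC e5))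
  have hM : ∀ M : ARM, M.2.2.length + M.1.length ≤ sz M ∧ sz M.2.1 ≤ sz M ∧
      ∀ r ∈ M.2.2, ∀ s ∈ r.2.2, sz s.1 ≤ sz M := fun M => by
    have e1 : sz M = sz M.1 + sz M.2 + 1 := sz_pair M.1 M.2
    have e2 : sz M.2 = sz M.2.1 + sz M.2.2 + 1 := sz_pair M.2.1 M.2.2
    have e3 := length_lt_sz M.1
    have e4 := length_lt_sz M.2.2
    refine ⟨by omega, by omega, fun r hr s hs => ?_⟩
    have f1 := sz_le_of_mem hr
    have f2 := sz_le_of_mem hs
    have f3 : sz r = sz r.1 + sz r.2 + 1 := sz_pair r.1 r.2
    have f4 : sz r.2 = sz r.2.1 + sz r.2.2 + 1 := sz_pair r.2.1 r.2.2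
    have f5 : sz s = sz s.1 + sz s.2 + 1 := sz_pair s.1 s.2
    omega
  have hval : CPr C (fun M : ARM => ndv (M, lastN M) = true) := by
    refine sigmaC hC hchkp (out := fun z : ARM × List Item => Dv (z, lastN z.1) = true) ?_
      (Pa.comp nP) q1 (fun M => ?_) (fun M a hxa => ?_)
    · exact hDvt.comp hC (NPC.Poly.pair NPC.Poly.id (lastN_poly.comp (NPC.Poly.fst NPC.Poly.id)))
    · obtain ⟨adv, h1, h2⟩ := hadv (nP.eval (sz M)) M (by rw [enP]; omega)
      refine ⟨adv, by rw [Polynomial.eval_comp]; exact h1, fun w hw => ?_⟩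
      have key : ∀ d : Nd, (bits d).length ≤ nP.eval (sz M) →
          (Dv ((M, adv), d) = true ↔ ndv (M, d) = true) := by
        intro d hd
        have h3 := h2 (bits d) hd
        rw [hFA] at h3
        exact h3
      have hw' : (bits (dn w)).length ≤ 10 * sz M + 10 := by
        have h4 := dn_length w
        rw [eq1] at hw
        omega
      obtain ⟨p1, p2, p3⟩ := nd_parts (dn w)
      rw [hchk]
      simp only
      rw [key (dn w) (by rw [enP]; omega), decide_eq_true_eq]
      by_cases hk : (dn w).2.2 = 0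
      · refine Or.inl ⟨hk, ?_⟩
        unfold ndv
        simp only
        rw [hk]
        simp [drv]
      · refine Or.inr ⟨hk, ?_⟩
        rw [hrhs]
        simp only
        obtain ⟨k, hk'⟩ : ∃ k, (dn w).2.2 = k + 1 := ⟨(dn w).2.2 - 1, by omega⟩
        have hkey : ∀ r ∈ M.2.2, ∀ s ∈ r.2.2,
            (Dv ((M, adv), (s.1, (updL (dn w).2.1 s.2, (dn w).2.2 - 1))) = true ↔
              drv M.2.2 k s.1 (updL (dn w).2.1 s.2) = true) := by
          intro r hr s hs
          rw [hk', Nat.add_sub_cancel]
          have hs1 := (hM M).2.2 r hr s hs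
          have hk2 : k.size ≤ (k + 1).size := Nat.size_le_size (Nat.le_succ k)
          rw [hk'] at p3
          rw [key _ (by
            refine (nd_length s.1 k (updL (dn w).2.1 s.2) (B := 10 * sz M + 10 + sz M) (by omega)
              (by rw [updL_length]; omega) (by omega)).trans ?_
            rw [enP])]
          rfl
        unfold ndv
        simp only
        rw [hk', drv_iff]
        refine exists_congr fun r => and_congr_right fun hr => ?_
        rw [Bool.and_eq_true, decide_eq_true_eq, and_assoc]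
        refine and_congr_right fun _ => and_congr_right fun _ => forall₂_congr fun s hs => ?_
        rw [← hk', hkey r hr s hs]
    · have key : ∀ (k q : ℕ) (ρ : List Bool), sz q ≤ sz M → ρ.length = M.1.length →
          k ≤ M.2.2.length * 2 ^ M.1.length →
            (Dv ((M, a), (q, (ρ, k))) = true ↔ drv M.2.2 k q ρ = true) := by
        intro k
        induction k with
        | zero =>
          intro q ρ hq hρ hk
          have h1 := hxa (bits ((q, (ρ, 0)) : Nd)) (by
            refine (nd_length q 0 ρ (B := sz M) hq (by have := (hM M).1; omega)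
              (by simp)).trans ?_
            rw [eq1]
            omega)
          rw [hchk] at h1
          simp only at h1
          rw [dn_bits] at h1
          rcases h1 with ⟨_, h1⟩ | ⟨h1, _⟩
          · refine ⟨fun h => absurd h h1, fun h => ?_⟩
            simp [drv] at h
          · simp at h1
        | succ k ih =>
          intro q ρ hq hρ hk
          have hsize : (k + 1).size ≤ sz M := by
            have e1 : k + 1 < 2 ^ (M.2.2.length + M.1.length) := by
              refine lt_of_le_of_lt hk ?_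
              rw [pow_add]
              exact Nat.mul_lt_mul_of_pos_right Nat.lt_two_pow_self (by positivity)
            have e2 := Nat.size_le.2 e1
            have := (hM M).1
            omega
          have h1 := hxa (bits ((q, (ρ, k + 1)) : Nd)) (by
            refine (nd_length q (k + 1) ρ (B := sz M) hq (by have := (hM M).1; omega)
              hsize).trans ?_
            rw [eq1]
            omega)
          rw [hchk] at h1
          simp only at h1
          rw [dn_bits] at h1
          rcases h1 with ⟨h1, _⟩ | ⟨_, h1⟩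
          · simp at h1
          · rw [h1, hrhs, drv_iff]
            simp only
            refine exists_congr fun r => and_congr_right fun hr => ?_
            rw [Bool.and_eq_true, decide_eq_true_eq, and_assoc]
            refine and_congr_right fun _ => and_congr_right fun _ => forall₂_congr fun s hs => ?_
            rw [Nat.add_sub_cancel]
            exact ih s.1 (updL ρ s.2) ((hM M).2.2 r hr s hs) (by rw [updL_length, hρ]) (by omega)
      exact key _ _ _ (hM M).2.1 (by simp) le_rfl
  intro L hL
  obtain ⟨g, hg, hgpr, hgL⟩ := Pool.Agent.NPC.ARM578.exptime_arm hL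
  have hg' : Poly g := PC.comp hg Pool.Agent.NPC.Cnt.pc_raw
  have h1 : C {x | ndv (g x, lastN (g x)) = true} :=
    CPr.to_raw hC (hval.comp hC hg')
  have e : L = {x | ndv (g x, lastN (g x)) = true} := Set.ext fun x => by
    rw [hgL x, armAcc_iff (hgpr x), Set.mem_setOf_eq]
    rfl
  rw [e]
  exact h1

/-- **Prediction in the class of a set which is hard for `EXPTIME`.** -/
theorem exp_sub_of_predictableIn (hC : Cl C) {δ ε : ℝ} (hδ : 0 < δ) (hε : 0 < ε)
    (A : Set (List Bool)) (hA : EXPHard A) (h : PredictableIn C δ ε A) :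
    ∀ L : Set (List Bool), InEXPTIME L → C L :=
  exp_sub_of_hasAdv hC A hA (hasAdv_of_predictableIn hC hδ hε h)

/-- **The square-root law in a class, for exponential time.** -/
theorem class_exp_law (hC : Cl C) {δ ε : ℝ} (h1 : 0 < δ) (h2 : δ ≤ 1 / 2) (h3 : 0 < ε) :
    List.TFAE
      [∀ L : Set (List Bool), InEXPTIME L → C L,
        ∃ A : Set (List Bool), EXPHard A ∧ PredictableIn C δ ε A,
        ∀ A : Set (List Bool), InEXPTIME A → FullyPredictableIn C δ A] := by
  tfae_have 1 → 3 := fun h A hA => fully_of_in hC h2 (h A hA)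
  tfae_have 3 → 2 := fun h => ⟨_, node_exp_hard, (h _ node_exp).predictableIn hC ε⟩
  tfae_have 2 → 1 := fun ⟨A, hA, h⟩ => exp_sub_of_predictableIn hC h1 h3 A hA h
  tfae_finish

end

open Pool.Agent.W903.GP in
theorem cl_ph : Cl InPH where
  ofP := nice_ph.ofP
  pre := nice_ph.pre
  inter := nice_ph.inter
  compl := by
    rintro L ⟨k, h⟩
    refine ⟨k + 1, _, 0, (sigma_props k).1 _ u1 (poly_u1 pid) h, fun x => ?_⟩
    constructor
    · intro hx
      refine ⟨[], by simp, ?_⟩
      rw [Set.mem_preimage, u1_pair]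
      exact hx
    · rintro ⟨w, _, hn⟩
      rw [Set.mem_preimage, u1_pair] at hn
      exact hn
  ex := nice_ph.ex

/-- The two forms of polynomial space. -/
theorem inPSPACE_iff {L : Set (List Bool)} : PIso.InPSPACE L ↔ Pool.Agent.H623R2.PS.InPSPACE L := by
  classical
  constructor
  · rintro ⟨tm, ein, eout, p, h⟩
    choose h1 h2 using h
    choose n b hb1 hb2 using h1
    refine ⟨b, ⟨⟨tm, ein, eout⟩, fun x => ⟨n x, ?_⟩⟩,
      (let _ := tm.kFin; Polynomial.C (Fintype.card tm.K) * p), fun x => (hb1 x).symm, ?_⟩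
    · exact hb2 x
    · intro x c hc
      have hreach : ∃ i, (flip bind tm.step)^[i] (some (Turing.initList tm (x.map ein.symm))) =
          some c := by
        change StateTransition.Reaches tm.step (Turing.initList tm (x.map ein.symm)) c at hc
        induction hc with
        | refl => exact ⟨0, rfl⟩
        | tail _ hstep ih =>
          obtain ⟨i, hi⟩ := ih
          refine ⟨i + 1, ?_⟩
          rw [Function.iterate_succ_apply', hi]
          exact hstep
      obtain ⟨i, hi⟩ := hreach
      have h3 := h2 x i c hi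
      unfold Pool.Agent.H623R2.PS.space
      letI := tm.kFin
      rw [Polynomial.eval_mul, Polynomial.eval_C]
      calc ∑ k, (c.stk k).length ≤ ∑ _k : tm.K, p.eval x.length :=
            Finset.sum_le_sum fun k _ => h3 k
        _ = Fintype.card tm.K * p.eval x.length := by
            rw [Finset.sum_const, Finset.card_univ, smul_eq_mul]
  · rintro ⟨f, M, p, h1, h2⟩
    refine ⟨M.tm, M.inputAlphabet, M.outputAlphabet, p, fun x => ⟨?_, ?_⟩⟩
    · obtain ⟨n, hn⟩ := M.outputsFun x
      exact ⟨n, f x, (h1 x).symm, hn⟩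
    · intro i c hi k
      have hreach : StateTransition.Reaches M.tm.step
          (Turing.initList M.tm (x.map M.inputAlphabet.invFun)) c := by
        clear k
        induction i generalizing c with
        | zero =>
          have h3 := Option.some.inj hi
          rw [← h3]
          exact Relation.ReflTransGen.refl
        | succ i ih =>
          rw [Function.iterate_succ_apply'] at hi
          cases h3 : (flip bind M.tm.step)^[i] (some (Turing.initList M.tm
              (x.map M.inputAlphabet.symm))) with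
          | none => rw [h3] at hi; change (none : Option M.tm.Cfg) = some c at hi; cases hi
          | some c' =>
            rw [h3] at hi
            exact Relation.ReflTransGen.tail (ih c' h3) hi
      refine le_trans ?_ (h2 x c hreach)
      unfold Pool.Agent.H623R2.PS.space
      letI := M.tm.kFin
      exact Finset.single_le_sum (f := fun k => (c.stk k).length) (fun _ _ => Nat.zero_le _)
        (Finset.mem_univ k)

open Pool.Agent.W903.GP in
theorem cl_pspace : Cl Pool.Agent.H623R2.PS.InPSPACE := by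
  have e : Pool.Agent.H623R2.PS.InPSPACE = PIso.InPSPACE :=
    funext fun L => propext inPSPACE_iff.symm
  rw [e]
  refine ⟨PIso.inPSPACE_of_inP, ?_, ?_, inPSPACE_compl, inPSPACE_ex⟩
  · intro L f hf h
    obtain ⟨F, hF, h⟩ := sp_of_inPSPACE h
    exact inPSPACE_of_sp (hF.comp (Sp.of_poly hf)) fun x => h (f x)
  · intro L L' h h'
    obtain ⟨F, hF, h⟩ := sp_of_inPSPACE h
    obtain ⟨F', hF', h'⟩ := sp_of_inPSPACE h'
    exact inPSPACE_of_sp (Sp.op2 (g := fun b : Bool × Bool => b.1 && b.2) hF hF'
      (NPC.Poly.and (NPC.Poly.fst NPC.Poly.id) (NPC.Poly.snd NPC.Poly.id)))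
      fun x => by rw [Set.mem_inter_iff, h, h', Bool.and_eq_true]

end Pool.Agent.W901.NU
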