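import Pool.Agent.W901.NU.Srch
import Pool.Agent.H820R2.SS.Final
import Pool.Agent.H820R2.SS.Hier
import Pool.Agent.H578R2.ARM.Main
import Pool.Agent.H251R5.PQ.T_PAD

/-!
# Alternating register machines with a clock
-/

set_option autoImplicit false

namespace Pool.Agent.W901.NU

open Pool.Agent.NPC Pool.Agent.H251R5.PQ Pool.Agent.W901.AT Pool.Agent.H579R2.Spt
open Pool.Agent.H820R2.SS (ARM ARule ARMPr ARMAcc Der upd InEXPTIME Gen inEXPTIME_of_gen
  inEXPTIME_of_inNP exists_exptime_not_p)

/-- Hardness for `EXPTIME` under polynomial-time many-one reductions. -/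
def EXPHard (L : Set (List Bool)) : Prop := ∀ L', InEXPTIME L' → Reduces L' L

/-! ### Derivations with a clock -/

/-- the first value of a key -/
def look (u : List (ℕ × Bool)) (i : ℕ) : Option Bool :=
  ((u.filter (fun q => decide (q.1 = i))).map (fun q => q.2)).head?

theorem look_eq (u : List (ℕ × Bool)) (i : ℕ) : look u i = u.lookup i := by
  induction u with
  | nil => rfl
  | cons q u ih =>
    obtain ⟨k, b⟩ := q
    unfold look at ih ⊢
    by_cases h : k = i
    · subst h
      simp
    · rw [List.filter_cons_of_neg (by simpa using h), ih, List.lookup_cons]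
      have : (i == k) = false := by simpa using fun h' => h h'.symm
      rw [this]

/-- updating a list of registers -/
def updL (ρ : List Bool) (u : List (ℕ × Bool)) : List Bool :=
  (List.range ρ.length).map (fun i => (look u i).getD (ρ.getD i false))

/-- the registers as a function -/
def toF (ρ : List Bool) : ℕ → Bool := fun i => ρ.getD i false

@[simp] theorem updL_length (ρ : List Bool) (u : List (ℕ × Bool)) :
    (updL ρ u).length = ρ.length := by simp [updL]

theorem toF_updL (ρ : List Bool) (u : List (ℕ × Bool)) (h : ∀ q ∈ u, q.1 < ρ.length) :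
    toF (updL ρ u) = upd (toF ρ) u := by
  funext i
  unfold toF upd
  by_cases hi : i < ρ.length
  · rw [List.getD_eq_getElem _ _ (by simpa using hi)]
    unfold updL
    rw [List.getElem_map, List.getElem_range, look_eq]
  · have h1 : (updL ρ u).getD i false = false := by
      rw [List.getD_eq_default _ _ (by simpa using hi)]
    have h2 : ρ.getD i false = false := by
      rw [List.getD_eq_default _ _ (by omega)]
    have h3 : u.lookup i = none := by
      rw [List.lookup_eq_none_iff]
      intro q hq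
      have := h q hq
      simp only [beq_eq_false_iff_ne, ne_eq, bne_iff_ne]
      omega
    simp only [h1, h3, Option.getD_none]
    exact h2.symm

/-- the guards -/
def gd (ρ : List Bool) (g : List (ℕ × Bool)) : Bool :=
  g.all (fun q => decide (ρ.getD q.1 false = q.2))

/-- derivability in `k` rounds -/
def drv (P : List ARule) : ℕ → ℕ → List Bool → Bool
  | 0, _, _ => false
  | k + 1, q, ρ => P.any (fun r => decide (r.1 = q) && (gd ρ r.2.1 &&
      r.2.2.all (fun s => drv P k s.1 (updL ρ s.2))))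

theorem drv_succ (P : List ARule) (k q : ℕ) (ρ : List Bool) : drv P (k + 1) q ρ =
    P.any (fun r => decide (r.1 = q) && (gd ρ r.2.1 &&
      r.2.2.all (fun s => drv P k s.1 (updL ρ s.2)))) := rfl

theorem drv_iff (P : List ARule) (k q : ℕ) (ρ : List Bool) : drv P (k + 1) q ρ = true ↔
    ∃ r ∈ P, r.1 = q ∧ gd ρ r.2.1 = true ∧ ∀ s ∈ r.2.2, drv P k s.1 (updL ρ s.2) = true := by
  rw [drv_succ]
  simp only [List.any_eq_true, Bool.and_eq_true, decide_eq_true_eq, List.all_eq_true]

theorem drv_mono (P : List ARule) : ∀ (k q : ℕ) (ρ : List Bool), drv P k q ρ = true →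
    drv P (k + 1) q ρ = true
  | 0, q, ρ, h => by simp [drv] at h
  | k + 1, q, ρ, h => by
    rw [drv_iff] at h ⊢
    obtain ⟨r, h1, h2, h3, h4⟩ := h
    exact ⟨r, h1, h2, h3, fun s hs => drv_mono P k _ _ (h4 s hs)⟩

theorem drv_le (P : List ARule) {k k' : ℕ} (hk : k ≤ k') {q : ℕ} {ρ : List Bool}
    (h : drv P k q ρ = true) : drv P k' q ρ = true := by
  induction hk with
  | refl => exact h
  | step _ ih => exact drv_mono P _ _ _ ih

theorem gd_iff (ρ : List Bool) (g : List (ℕ × Bool)) : gd ρ g = true ↔ ∀ q ∈ g, toF ρ q.1 = q.2 := by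
  unfold gd toF
  simp only [List.all_eq_true, decide_eq_true_eq]

theorem drv_sound {M : ARM} (hM : ARMPr M) : ∀ (k q : ℕ) (ρ : List Bool), ρ.length = M.1.length →
    drv M.2.2 k q ρ = true → Der M.2.2 q (toF ρ)
  | 0, q, ρ, _, h => by simp [drv] at h
  | k + 1, q, ρ, hρ, h => by
    rw [drv_iff] at h
    obtain ⟨r, h1, rfl, h3, h4⟩ := h
    refine Der.mk r (toF ρ) h1 ((gd_iff _ _).1 h3) fun s hs => ?_
    rw [← toF_updL ρ s.2 (fun q hq => by rw [hρ]; exact (hM r h1).2 s hs q hq)]
    exact drv_sound hM k _ _ (by rw [updL_length, hρ]) (h4 s hs)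

theorem drv_complete {M : ARM} (hM : ARMPr M) {q : ℕ} {ρ' : ℕ → Bool} (h : Der M.2.2 q ρ') :
    ∀ ρ : List Bool, ρ.length = M.1.length → ρ' = toF ρ → ∃ k, drv M.2.2 k q ρ = true := by
  induction h with
  | mk r ρ' hr hg hp ih =>
    rintro ρ hρ rfl
    have key : ∀ l : List (ℕ × List (ℕ × Bool)), (∀ s ∈ l, s ∈ r.2.2) →
        ∃ k, ∀ s ∈ l, drv M.2.2 k s.1 (updL ρ s.2) = true := by
      intro l
      induction l with
      | nil => exact fun _ => ⟨0, by simp⟩
      | cons s l ihl =>
        intro hl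
        obtain ⟨k1, hk1⟩ := ihl fun s' hs' => hl s' (List.mem_cons_of_mem _ hs')
        have hs := hl s List.mem_cons_self
        obtain ⟨k2, hk2⟩ := ih s hs (updL ρ s.2) (by rw [updL_length, hρ])
          (toF_updL ρ s.2 (fun q hq => by rw [hρ]; exact (hM r hr).2 s hs q hq)).symm
        refine ⟨max k1 k2, fun s' hs' => ?_⟩
        rcases List.mem_cons.1 hs' with rfl | hs'
        · exact drv_le _ (le_max_right _ _) hk2
        · exact drv_le _ (le_max_left _ _) (hk1 s' hs')
    obtain ⟨k, hk⟩ := key r.2.2 fun s hs => hs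
    refine ⟨k + 1, (drv_iff _ _ _ _).2 ⟨r, hr, rfl, (gd_iff _ _).2 hg, hk⟩⟩

/-! ### Stabilisation -/

theorem stab {α : Type} (f : ℕ → Finset α) (hmono : ∀ k, f k ⊆ f (k + 1))
    (hst : ∀ k, f k = f (k + 1) → f (k + 1) = f (k + 2)) (C : ℕ) (hC : ∀ k, (f k).card ≤ C)
    (k : ℕ) : f k ⊆ f C := by
  have h1 : ∀ j, (∃ i < j, f i = f (i + 1)) ∨ j ≤ (f j).card := by
    intro j
    induction j with
    | zero => exact Or.inr (Nat.zero_le _)
    | succ j ih =>
      rcases ih with ⟨i, hi, h⟩ | h
      · exact Or.inl ⟨i, by omega, h⟩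
      · by_cases he : f j = f (j + 1)
        · exact Or.inl ⟨j, by omega, he⟩
        · right
          have := Finset.card_lt_card (Finset.ssubset_iff_subset_ne.2 ⟨hmono j, he⟩)
          omega
  have h2 : ∀ i, f i = f (i + 1) → ∀ j, i ≤ j → f j = f i := by
    intro i hi j hj
    have h3 : ∀ j, i ≤ j → f j = f (j + 1) := by
      intro j hj
      induction hj with
      | refl => exact hi
      | step _ ih => exact hst _ ih
    induction hj with
    | refl => rfl
    | step hj ih => rw [← h3 _ hj, ih]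
  have h4 : ∀ i j, i ≤ j → f i ⊆ f j := by
    intro i j hij
    induction hij with
    | refl => exact subset_rfl
    | step _ ih => exact ih.trans (hmono _)
  rcases h1 (C + 1) with ⟨i, hi, h⟩ | h
  · have e1 := h2 i h C (by omega)
    rcases le_total k i with hk | hk
    · rw [e1]
      exact h4 _ _ hk
    · rw [h2 i h k hk, e1]
  · have := hC (C + 1)
    omega

theorem drv_stable (P : List ARule) (N : ℕ) {k q : ℕ} {ρ : List Bool} (hρ : ρ.length = N)
    (h : drv P k q ρ = true) : drv P (P.length * 2 ^ N) q ρ = true := by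
  classical
  set f : ℕ → Finset (ℕ × List Bool) := fun k =>
    (((P.map (fun r => r.1)).toFinset) ×ˢ BL N).filter (fun c => drv P k c.1 c.2 = true) with hf
  have hmem : ∀ k q (ρ : List Bool), ρ.length = N → ((q, ρ) ∈ f k ↔ drv P k q ρ = true) := by
    intro k q ρ hρ
    rw [hf]
    simp only [Finset.mem_filter, Finset.mem_product, List.mem_toFinset, List.mem_map, mem_BL]
    constructor
    · exact fun h => h.2
    · intro h
      refine ⟨⟨?_, hρ⟩, h⟩
      cases k with
      | zero => simp [drv] at h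
      | succ k =>
        obtain ⟨r, h1, h2, _⟩ := (drv_iff _ _ _ _).1 h
        exact ⟨r, h1, h2⟩
  have h1 := stab f ?_ ?_ (P.length * 2 ^ N) ?_ k
  · exact (hmem _ _ _ hρ).1 (h1 ((hmem _ _ _ hρ).2 h))
  · intro k c hc
    rw [hf] at hc ⊢
    simp only [Finset.mem_filter] at hc ⊢
    exact ⟨hc.1, drv_mono _ _ _ _ hc.2⟩
  · intro k hk
    have h2 : ∀ q (ρ : List Bool), ρ.length = N → drv P k q ρ = drv P (k + 1) q ρ := by
      intro q ρ hρ
      rw [Bool.eq_iff_iff, ← hmem k q ρ hρ, ← hmem (k + 1) q ρ hρ, hk]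
    ext ⟨q, ρ⟩
    by_cases hρ : ρ.length = N
    · rw [hmem _ _ _ hρ, hmem _ _ _ hρ, drv_iff, drv_iff]
      have h3 : ∀ s : ℕ × List (ℕ × Bool), drv P k s.1 (updL ρ s.2) =
          drv P (k + 1) s.1 (updL ρ s.2) := fun s => h2 _ _ (by rw [updL_length, hρ])
      simp only [h3]
    · rw [hf]
      simp [mem_BL, hρ]
  · intro k
    rw [hf]
    refine (Finset.card_filter_le _ _).trans ?_
    rw [Finset.card_product]
    refine Nat.mul_le_mul ?_ ?_
    · refine (List.toFinset_card_le _).trans ?_
      rw [List.length_map]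
    · have := card_BL N
      have h3 : ((BL N).card : ℤ) = ((2 ^ N : ℕ) : ℤ) := by rw [this]; push_cast; rfl
      exact (by exact_mod_cast h3 : (BL N).card = 2 ^ N).le

theorem armAcc_iff {M : ARM} (hM : ARMPr M) : ARMAcc M ↔
    drv M.2.2 (M.2.2.length * 2 ^ M.1.length) M.2.1 (List.replicate M.1.length false) = true := by
  have e : (fun _ : ℕ => false) = toF (List.replicate M.1.length false) := by
    funext i
    unfold toF
    by_cases hi : i < M.1.length
    · rw [List.getD_eq_getElem _ _ (by simpa using hi)]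
      simp
    · rw [List.getD_eq_default _ _ (by simpa using hi)]
  unfold ARMAcc
  rw [e]
  constructor
  · intro h
    obtain ⟨k, hk⟩ := drv_complete hM h _ (by simp) rfl
    exact drv_stable _ _ (by simp) hk
  · intro h
    exact drv_sound hM _ _ _ (by simp) h

/-! ### Polynomial time -/

section

variable {α : Type} [TEnc α]

theorem look_poly {u : α → List (ℕ × Bool)} {i : α → ℕ} (hu : Poly u) (hi : Poly i) :
    Poly (fun a => look (u a) (i a)) := by
  unfold look
  refine NPC.Poly.head? (NPC.Poly.map (F := fun _ (q : ℕ × Bool) => q.2) ?_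
    (NPC.Poly.snd (NPC.Poly.snd NPC.Poly.id)))
  exact NPC.Poly.filter (p := fun a (q : ℕ × Bool) => decide (q.1 = i a)) hu
    (NPC.Poly.decide_eq (NPC.Poly.fst (NPC.Poly.snd NPC.Poly.id))
      (hi.comp (NPC.Poly.fst NPC.Poly.id)))

theorem updL_poly {ρ : α → List Bool} {u : α → List (ℕ × Bool)} (hρ : Poly ρ) (hu : Poly u) :
    Poly (fun a => updL (ρ a) (u a)) := by
  unfold updL
  refine NPC.Poly.map (l := fun a => List.range (ρ a).length)
    (F := fun a i => (look (u a) i).getD ((ρ a).getD i false)) (UPoly.length hρ).range ?_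
  have e : Poly (fun q : α × ℕ => q.1) := NPC.Poly.fst NPC.Poly.id
  exact NPC.Poly.optGetD (look_poly (hu.comp e) (NPC.Poly.snd NPC.Poly.id))
    (NPC.Poly.getD (hρ.comp e) (NPC.Poly.snd NPC.Poly.id) (NPC.Poly.const false))

theorem gd_poly {ρ : α → List Bool} {g : α → List (ℕ × Bool)} (hρ : Poly ρ) (hg : Poly g) :
    Poly (fun a => gd (ρ a) (g a)) := by
  unfold gd
  refine NPC.Poly.all (l := g) (p := fun a q => decide ((ρ a).getD q.1 false = q.2)) hg ?_
  exact NPC.Poly.decide_eq (NPC.Poly.getD (hρ.comp (NPC.Poly.fst NPC.Poly.id))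
    (NPC.Poly.fst (NPC.Poly.snd NPC.Poly.id)) (NPC.Poly.const false))
    (NPC.Poly.snd (NPC.Poly.snd NPC.Poly.id))

end

end Pool.Agent.W901.NU
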