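import Pool.Agent.W901.NU.EXa

/-!
# Clocked derivability is in `EXPTIME`
-/

set_option autoImplicit false

namespace Pool.Agent.W901.NU

open Pool.Agent.NPC Pool.Agent.H251R5.PQ Pool.Agent.W901.AT Pool.Agent.H579R2.Spt
open Pool.Agent.H820R2.SS (ARM ARule ARMPr ARMAcc Der upd InEXPTIME Gen inEXPTIME_of_gen
  inEXPTIME_of_inNP exists_exptime_not_p)

/-- a node: control, registers, clock -/
abbrev Nd := ℕ × (List Bool × ℕ)

/-- the value of a node -/
def ndv (z : ARM × Nd) : Bool := drv z.1.2.2 z.2.2.2 z.2.1 z.2.2.1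

/-- a string of length `n` coding a node -/
def encS (n : ℕ) (a : Nd) : List Bool :=
  bits a ++ true :: List.replicate (n - ((bits a).length + 1)) false

/-- the node coded by a string -/
def decS (s : List Bool) : Option Nd := (padDec s).bind (fun l => unbits Nd l)

theorem decS_encS (n : ℕ) (a : Nd) : decS (encS n a) = some a := by
  unfold decS encS
  rw [pad_dec, Option.bind_some, unbits_bits]

theorem encS_length {n : ℕ} {a : Nd} (h : (bits a).length + 1 ≤ n) : (encS n a).length = n := by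
  unfold encS
  simp only [List.length_append, List.length_cons, List.length_replicate]
  omega

theorem decS_poly : Poly decS := by
  unfold decS
  exact NPC.Poly.optBind (f := fun _ l => unbits Nd l) pad_poly
    (poly_unbits.comp (NPC.Poly.snd NPC.Poly.id))

theorem encS_poly {α : Type} [TEnc α] {n : α → ℕ} {a : α → Nd} (hn : UPoly n) (ha : Poly a) :
    Poly (fun x => encS (n x) (a x)) := by
  unfold encS
  have h1 : Poly (fun x => bits (a x)) := bits_poly.comp ha
  have h2 : Poly (fun x => n x - ((bits (a x)).length + 1)) :=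
    NPC.Poly.sub hn.toPoly (NPC.Poly.add (NPC.Poly.length h1) (NPC.Poly.const 1))
  exact NPC.Poly.append h1 (NPC.Poly.cons (NPC.Poly.const _)
    (Pool.Agent.H623R2.PS.poly_replicate (UPoly.of_le h2 hn (fun _ => Nat.sub_le _ _)) false))

/-- the length of the states -/
def mA (a : Option (ARM × Nd)) : ℕ := 9 * sz a + 10

/-- the test for the code of a premise -/
def prem (d : Nd) (cs : List (List Bool)) (p : ℕ × List (ℕ × Bool)) : Bool :=
  cs.any (fun c => decide (decS c = some (p.1, (updL d.2.1 p.2, d.2.2 - 1))))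

/-- the local test -/
def locE (a : Option (ARM × Nd)) (s : List Bool) (cs : List (List Bool)) : Bool :=
  a.elim false (fun z => (decS s).elim false (fun d => decide (1 ≤ d.2.2) &&
    z.1.2.2.any (fun r => decide (r.1 = d.1) && (gd d.2.1 r.2.1 &&
      r.2.2.all (fun p => prem d cs p)))))

/-- the first state -/
def startE (a : Option (ARM × Nd)) : List Bool := a.elim [] (fun z => encS (mA a) z.2)

theorem gen_sound {z : ARM × Nd} {s : List Bool} (h : Gen mA locE (some z) s) :
    ∃ d, decS s = some d ∧ drv z.1.2.2 d.2.2 d.1 d.2.1 = true := by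
  induction h with
  | mk c cs h1 h2 h3 h4 ih =>
    unfold locE at h3
    simp only [Option.elim_some] at h3
    cases hd : decS c with
    | none => rw [hd] at h3; simp at h3
    | some d =>
      rw [hd] at h3
      simp only [Option.elim_some, Bool.and_eq_true, decide_eq_true_eq, List.any_eq_true,
        List.all_eq_true] at h3
      obtain ⟨h5, r, hr, h6, h7, h8⟩ := h3
      refine ⟨d, rfl, ?_⟩
      obtain ⟨k, hk⟩ : ∃ k, d.2.2 = k + 1 := ⟨d.2.2 - 1, by omega⟩
      rw [hk, drv_iff]
      refine ⟨r, hr, h6, h7, fun p hp => ?_⟩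
      have h9 := h8 p hp
      unfold prem at h9
      simp only [List.any_eq_true, decide_eq_true_eq] at h9
      obtain ⟨c', hc', h10⟩ := h9
      obtain ⟨d', h11, h12⟩ := ih c' hc'
      rw [h10] at h11
      have h13 := Option.some.inj h11
      rw [← h13] at h12
      simp only at h12
      rwa [hk, Nat.add_sub_cancel] at h12

theorem nd_length (q k : ℕ) (ρ : List Bool) {B : ℕ} (h1 : sz q ≤ B) (h2 : ρ.length ≤ B)
    (h3 : k.size ≤ B) : (bits ((q, (ρ, k)) : Nd)).length ≤ 9 * B + 4 := by
  rw [bits_length, sz_pair, sz_pair]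
  have h4 := sz_listBool_le ρ
  have h5 := sz_nat_le k
  omega

theorem gen_complete (z : ARM × Nd) : ∀ (k q : ℕ) (ρ : List Bool), sz q ≤ sz z →
    ρ.length ≤ sz z → k.size ≤ sz z → drv z.1.2.2 k q ρ = true →
    Gen mA locE (some z) (encS (mA (some z)) (q, (ρ, k)))
  | 0, q, ρ, _, _, _, h => by simp [drv] at h
  | k + 1, q, ρ, h1, h2, h3, h => by
    obtain ⟨r, hr, h4, h5, h6⟩ := (drv_iff _ _ _ _).1 h
    have hk : k.size ≤ sz z := (Nat.size_le_size (Nat.le_succ k)).trans h3
    have hm : mA (some z) = 9 * sz (some z) + 10 := rfl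
    have hsz : sz z ≤ sz (some z) := by rw [sz_some]; omega
    have hP : sz z.1.2.2 ≤ sz z := by
      have e1 : sz z = sz z.1 + sz z.2 + 1 := sz_pair z.1 z.2
      have e2 : sz z.1 = sz z.1.1 + sz z.1.2 + 1 := sz_pair z.1.1 z.1.2
      have e3 : sz z.1.2 = sz z.1.2.1 + sz z.1.2.2 + 1 := sz_pair z.1.2.1 z.1.2.2
      omega
    have hr1 : sz r.2.2 ≤ sz z := by
      have e1 := sz_le_of_mem hr
      have e2 : sz r = sz r.1 + sz r.2 + 1 := sz_pair r.1 r.2
      have e3 : sz r.2 = sz r.2.1 + sz r.2.2 + 1 := sz_pair r.2.1 r.2.2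
      omega
    refine Gen.mk _ (r.2.2.map (fun p => encS (mA (some z)) (p.1, (updL ρ p.2, k)))) ?_ ?_ ?_ ?_
    · refine encS_length ?_
      have := nd_length q (k + 1) ρ h1 h2 h3
      omega
    · rw [List.length_map]
      have := length_lt_sz r.2.2
      omega
    · unfold locE
      rw [decS_encS]
      simp only [Option.elim_some, Bool.and_eq_true, decide_eq_true_eq, List.any_eq_true,
        List.all_eq_true]
      refine ⟨by omega, r, hr, h4, h5, fun p hp => ?_⟩
      unfold prem
      simp only [List.any_eq_true, decide_eq_true_eq]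
      refine ⟨_, List.mem_map.2 ⟨p, hp, rfl⟩, ?_⟩
      rw [decS_encS, Nat.add_sub_cancel]
    · intro c hc
      obtain ⟨p, hp, rfl⟩ := List.mem_map.1 hc
      refine gen_complete z k p.1 (updL ρ p.2) ?_ (by rw [updL_length]; exact h2) hk (h6 p hp)
      have e1 := sz_le_of_mem hp
      have e2 : sz p = sz p.1 + sz p.2 + 1 := sz_pair p.1 p.2
      omega

theorem gen_iff (z : ARM × Nd) : Gen mA locE (some z) (startE (some z)) ↔ ndv z = true := by
  unfold startE ndv
  simp only [Option.elim_some]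
  constructor
  · intro h
    obtain ⟨d, h1, h2⟩ := gen_sound h
    rw [decS_encS] at h1
    rw [← Option.some.inj h1] at h2
    exact h2
  · intro h
    have e1 : sz z = sz z.1 + sz z.2 + 1 := sz_pair z.1 z.2
    have e2 : sz z.2 = sz z.2.1 + sz z.2.2 + 1 := sz_pair z.2.1 z.2.2
    have e3 : sz z.2.2 = sz z.2.2.1 + sz z.2.2.2 + 1 := sz_pair z.2.2.1 z.2.2.2
    have e4 := length_lt_sz z.2.2.1
    refine gen_complete z z.2.2.2 z.2.1 z.2.2.1 (by omega) (by omega) ?_ h
    have e5 : (z.2.2.2).size ≤ sz z.2.2.2 := by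
      have h1 : sz z.2.2.2 = sz (z.2.2.2).bits := rfl
      have h2 := length_lt_sz (z.2.2.2).bits
      rw [Nat.size_eq_bits_len] at *
      omega
    omega

theorem mA_upoly : UPoly mA :=
  UPoly.add (UPoly.mul (UPoly.const 9) ((UPoly.length bits_poly).congr fun a => by
    beta_reduce; rw [bits_length])) (UPoly.const 10)

theorem locE_poly : Poly (fun q : Option (ARM × Nd) × List Bool × List (List Bool) =>
    locE q.1 q.2.1 q.2.2) := by
  unfold locE
  refine NPC.Poly.optElim (o := fun q : Option (ARM × Nd) × List Bool × List (List Bool) => q.1)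
    (g := fun _ => false) (h := fun q z => (decS q.2.1).elim false (fun d => decide (1 ≤ d.2.2) &&
    z.1.2.2.any (fun r => decide (r.1 = d.1) && (gd d.2.1 r.2.1 &&
      r.2.2.all (fun p => prem d q.2.2 p))))) (NPC.Poly.fst NPC.Poly.id) (NPC.Poly.const _) ?_
  refine NPC.Poly.optElim (o := fun q : (Option (ARM × Nd) × List Bool × List (List Bool)) ×
      (ARM × Nd) => decS q.1.2.1)
    (g := fun _ => false) (h := fun q d => decide (1 ≤ d.2.2) &&
    q.2.1.2.2.any (fun r => decide (r.1 = d.1) && (gd d.2.1 r.2.1 &&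
      r.2.2.all (fun p => prem d q.1.2.2 p))))
    (decS_poly.comp (NPC.Poly.fst (NPC.Poly.snd (NPC.Poly.fst NPC.Poly.id)))) (NPC.Poly.const _) ?_
  -- the environment: `((q, z), d)`
  have ed : Poly (fun e : ((Option (ARM × Nd) × List Bool × List (List Bool)) × (ARM × Nd)) × Nd =>
      e.2) := NPC.Poly.snd NPC.Poly.id
  have eP : Poly (fun e : ((Option (ARM × Nd) × List Bool × List (List Bool)) × (ARM × Nd)) × Nd =>
      e.1.2.1.2.2) := NPC.Poly.snd (NPC.Poly.snd (NPC.Poly.fst (NPC.Poly.snd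
        (NPC.Poly.fst NPC.Poly.id))))
  have ec : Poly (fun e : ((Option (ARM × Nd) × List Bool × List (List Bool)) × (ARM × Nd)) × Nd =>
      e.1.1.2.2) := NPC.Poly.snd (NPC.Poly.snd (NPC.Poly.fst (NPC.Poly.fst NPC.Poly.id)))
  refine NPC.Poly.and (NPC.Poly.decide_le (NPC.Poly.const 1)
    (NPC.Poly.snd (NPC.Poly.snd ed))) ?_
  refine NPC.Poly.any (l := fun e : ((Option (ARM × Nd) × List Bool × List (List Bool)) ×
      (ARM × Nd)) × Nd => e.1.2.1.2.2) (p := fun e r => decide (r.1 = e.2.1) && (gd e.2.2.1 r.2.1 &&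
      r.2.2.all (fun p => prem e.2 e.1.1.2.2 p))) eP ?_
  have e1 : Poly (fun f : (((Option (ARM × Nd) × List Bool × List (List Bool)) × (ARM × Nd)) × Nd) ×
      ARule => f.1) := NPC.Poly.fst NPC.Poly.id
  have er : Poly (fun f : (((Option (ARM × Nd) × List Bool × List (List Bool)) × (ARM × Nd)) × Nd) ×
      ARule => f.2) := NPC.Poly.snd NPC.Poly.id
  refine NPC.Poly.and (NPC.Poly.decide_eq (NPC.Poly.fst er) (NPC.Poly.fst (ed.comp e1)))
    (NPC.Poly.and (gd_poly (NPC.Poly.fst (NPC.Poly.snd (ed.comp e1)))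
      (NPC.Poly.fst (NPC.Poly.snd er))) ?_)
  refine NPC.Poly.all (l := fun f : (((Option (ARM × Nd) × List Bool × List (List Bool)) ×
      (ARM × Nd)) × Nd) × ARule => f.2.2.2) (p := fun f p => prem f.1.2 f.1.1.1.2.2 p)
    (NPC.Poly.snd (NPC.Poly.snd er)) ?_
  unfold prem
  have g1 : Poly (fun h : ((((Option (ARM × Nd) × List Bool × List (List Bool)) × (ARM × Nd)) ×
      Nd) × ARule) × (ℕ × List (ℕ × Bool)) => h.1) := NPC.Poly.fst NPC.Poly.id
  refine NPC.Poly.any (l := fun h : ((((Option (ARM × Nd) × List Bool × List (List Bool)) ×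
      (ARM × Nd)) × Nd) × ARule) × (ℕ × List (ℕ × Bool)) => h.1.1.1.1.2.2)
    (p := fun h c => decide (decS c = some (h.2.1, (updL h.1.1.2.2.1 h.2.2, h.1.1.2.2.2 - 1))))
    (ec.comp (e1.comp g1)) ?_
  have k1 : Poly (fun i : (((((Option (ARM × Nd) × List Bool × List (List Bool)) × (ARM × Nd)) ×
      Nd) × ARule) × (ℕ × List (ℕ × Bool))) × List Bool => i.1) := NPC.Poly.fst NPC.Poly.id
  have k2 : Poly (fun i : (((((Option (ARM × Nd) × List Bool × List (List Bool)) × (ARM × Nd)) ×
      Nd) × ARule) × (ℕ × List (ℕ × Bool))) × List Bool => i.1.1.1.2) :=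
    ed.comp (e1.comp (g1.comp k1))
  have k3 : Poly (fun i : (((((Option (ARM × Nd) × List Bool × List (List Bool)) × (ARM × Nd)) ×
      Nd) × ARule) × (ℕ × List (ℕ × Bool))) × List Bool => i.1.2) := NPC.Poly.snd k1
  exact NPC.Poly.decide_eq (decS_poly.comp (NPC.Poly.snd NPC.Poly.id))
    (NPC.Poly.some (NPC.Poly.pair (NPC.Poly.fst k3) (NPC.Poly.pair
      (updL_poly (NPC.Poly.fst (NPC.Poly.snd k2)) (NPC.Poly.snd k3))
      (NPC.Poly.sub (NPC.Poly.snd (NPC.Poly.snd k2)) (NPC.Poly.const 1)))))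

theorem startE_poly : Poly startE := by
  unfold startE
  exact NPC.Poly.optElim (o := fun a : Option (ARM × Nd) => a) (g := fun _ => [])
    (h := fun a z => encS (mA a) z.2) NPC.Poly.id (NPC.Poly.const _)
    (encS_poly (mA_upoly.comp (NPC.Poly.fst NPC.Poly.id)) (NPC.Poly.snd (NPC.Poly.snd NPC.Poly.id)))

theorem node_exp : InEXPTIME (lang (fun z : ARM × Nd => ndv z = true)) := by
  refine inEXPTIME_of_gen mA_upoly locE_poly startE_poly (f := unbits (ARM × Nd))
    (PC.comp (g := unbits (ARM × Nd)) (f := fun x => x) poly_unbits PC.rawIn) fun x => ?_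
  rw [mem_lang_iff]
  cases hx : unbits (ARM × Nd) x with
  | none =>
    simp only [reduceCtorEq, false_and, exists_false, false_iff]
    intro h
    cases h with
    | mk _ cs h1 h2 h3 h4 =>
      unfold locE at h3
      simp at h3
  | some z =>
    simp only [Option.some.injEq, exists_eq_left']
    exact (gen_iff z).symm

end Pool.Agent.W901.NU
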