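import Pool.Agent.W901.NU.Exist

/-!
# Advice from predictions whose advantage is only a little above the square root of the logarithm
-/

set_option autoImplicit false

namespace Pool.Agent.W901.NU

open Finset Pool.Agent.NPC Pool.Agent.H251R5.PQ Pool.Agent.W901.AT Pool.Agent.H579R2.Spt

/-- the predictions `h` have advantage `T` times the square root of their number -/
def SGood (T : ℝ) (h : List (Option Bool)) (w : List Bool) : Prop :=
  h.length = w.length ∧ 0 < nans h ∧ T ^ 2 * (nans h : ℝ) ≤ ((cor h w : ℤ) : ℝ) ^ 2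

/-- **The total gain.** -/
theorem total_gain_s {m N : ℕ} {T : ℝ} (hm : 1 ≤ m) (H : List (List (Option Bool)))
    (hlen : H.length ≤ N) (lbl : List Bool) (hl : lbl.length = m) (hgood : ∃ h ∈ H, SGood T h lbl)
    (hT : 0 < T) (hbig : 1 + Real.log (N * (4 * m)) ≤ T ^ 2 / 16) :
    7 * (m : ℝ) ≤ ∑ t ∈ range m, sg (lbl.getD t false) *
      ((opin m (clean m H) (lbl.take t) : ℝ) - 2 * m) := by
  obtain ⟨h, hh, g1, g2, g3⟩ := hgood
  have hm0 : (0 : ℝ) < m := by exact_mod_cast hm
  have hhc : h ∈ clean m H := by
    unfold clean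
    rw [List.mem_filter]
    exact ⟨hh, decide_eq_true (g1.trans hl)⟩
  have hH : ∀ h ∈ clean m H, h.length = m := fun h hh => by
    unfold clean at hh
    exact of_decide_eq_true (List.mem_filter.1 hh).2
  have hne : clean m H ≠ [] := List.ne_nil_of_mem hhc
  set s := nans h with hs
  have hsm : s ≤ m := by
    rw [hs, ← hl, ← g1]
    exact List.length_filter_le _ _
  set K := (cor h lbl).natAbs with hK
  have hKpos : 0 < K := by
    rw [hK, Int.natAbs_pos]
    intro h0
    rw [h0] at g3
    have hs0 : (0 : ℝ) < s := by exact_mod_cast g2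
    have h1 : 0 < T ^ 2 * s := by positivity
    simp only [Int.cast_zero, ne_eq, OfNat.ofNat_ne_zero, not_false_eq_true, zero_pow] at g3
    linarith
  -- `K` is at most the number of predictions
  have hcor : (cor h lbl : ℝ) = ∑ i ∈ range m, (pt (h.getD i none) (lbl.getD i false) : ℝ) := by
    rw [cor_cast h lbl g1, hl]
  have hsum : (s : ℝ) = ∑ i ∈ range m, (if (h.getD i none).isSome = true then (1 : ℝ) else 0) := by
    have h1 := nans_eq h
    rw [g1, hl] at h1
    have h2 : ((nans h : ℤ) : ℝ) = ((∑ i ∈ range m,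
      if (h.getD i none).isSome = true then (1 : ℤ) else 0 : ℤ) : ℝ) := by rw [h1]
    push_cast at h2
    exact h2
  have hKs : K ≤ s := by
    have h1 : |(cor h lbl : ℝ)| ≤ s := by
      rw [hcor, hsum]
      refine (abs_sum_le_sum_abs _ _).trans (sum_le_sum fun i _ => ?_)
      cases h.getD i none with
      | none => simp [pt]
      | some v => cases v <;> cases lbl.getD i false <;> simp [pt, sgn]
    have h2 : ((K : ℕ) : ℝ) = |(cor h lbl : ℝ)| := by
      rw [hK, Nat.cast_natAbs, Int.cast_abs]
    have h3 : ((K : ℕ) : ℝ) ≤ s := by rw [h2]; exact h1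
    exact_mod_cast h3
  obtain ⟨r, hr1, hr2, hr3⟩ := exists_rate g2 hsm hKpos hKs
  set κ : ℝ := (K : ℝ) ^ 2 / s with hκ
  have hs0 : (0 : ℝ) < s := by exact_mod_cast g2
  have hκT : T ^ 2 ≤ κ := by
    rw [hκ, le_div_iff₀ hs0]
    have h2 : ((K : ℕ) : ℝ) ^ 2 = ((cor h lbl : ℤ) : ℝ) ^ 2 := by
      rw [hK, Nat.cast_natAbs, Int.cast_abs, sq_abs]
    rw [h2]
    exact g3
  have hκ0 : 0 ≤ κ := by positivity
  have hlog : 1 + Real.log (N * (4 * m)) ≤ κ / 16 := by linarith
  -- the good expert
  obtain ⟨i0, hi0, hi0e⟩ : ∃ (i : ℕ) (hi : i < (expts m (clean m H)).length),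
      (expts m (clean m H))[i] = (h, (r, decide (0 ≤ cor h lbl))) := by
    exact List.getElem_of_mem (mem_expts.2 ⟨hhc, hr1, hr2⟩)
  set χ : ℕ → ℝ := fun s => sg (lbl.getD s false) with hχ
  have hg1 := gain_ge (χ := χ) (u := uu m (clean m H)) (fun s => abs_sg _)
    (abs_uu hm (clean m H)) ⟨i0, hi0⟩ m
  have hex : ex m (clean m H) ⟨i0, hi0⟩ = (h, (r, decide (0 ≤ cor h lbl))) := hi0e
  have hu : ∀ t, uu m (clean m H) ⟨i0, hi0⟩ t =
      vt m r (decide (0 ≤ cor h lbl)) (h.getD t none) := by
    intro t
    unfold uu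
    rw [hex]
  have hgain : κ / 16 ≤ ∑ t ∈ range m, (χ t * uu m (clean m H) ⟨i0, hi0⟩ t -
      2 * (uu m (clean m H) ⟨i0, hi0⟩ t) ^ 2) := by
    have e1 : ∀ t, χ t * uu m (clean m H) ⟨i0, hi0⟩ t -
        2 * (uu m (clean m H) ⟨i0, hi0⟩ t) ^ 2 = (r : ℝ) / (8 * m) *
          (sg (decide (0 ≤ cor h lbl)) * (pt (h.getD t none) (lbl.getD t false) : ℝ)) -
        2 * (((r : ℝ) / (8 * m)) ^ 2 * (if (h.getD t none).isSome = true then 1 else 0)) := by
      intro t
      rw [hu, vt_sq, hχ]
      simp only
      rw [sg_mul_vt]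
    rw [sum_congr rfl (fun t _ => e1 t), sum_sub_distrib, ← mul_sum, ← mul_sum, ← mul_sum,
      ← mul_sum, ← hcor, ← hsum]
    have e2 : sg (decide (0 ≤ cor h lbl)) * (cor h lbl : ℝ) = K := by
      rw [hK, Nat.cast_natAbs, Int.cast_abs]
      by_cases h0 : 0 ≤ cor h lbl
      · have h0' : (0 : ℝ) ≤ cor h lbl := by exact_mod_cast h0
        simp [h0, sg, abs_of_nonneg h0']
      · have h0' : (cor h lbl : ℝ) ≤ 0 := by exact_mod_cast (not_le.1 h0).le
        simp [h0, sg, abs_of_nonpos h0']
    rw [e2]
    exact hr3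
  have hcard : (Fintype.card (Fin (expts m (clean m H)).length) : ℝ) ≤ N * (4 * m) := by
    rw [Fintype.card_fin, length_expts]
    push_cast
    have h1 : (clean m H).length ≤ N := (List.length_filter_le _ _).trans hlen
    have h2 : ((clean m H).length : ℝ) ≤ N := by exact_mod_cast h1
    exact mul_le_mul_of_nonneg_right h2 (by positivity)
  have hcard0 : (0 : ℝ) < Fintype.card (Fin (expts m (clean m H)).length) := by
    have h1 : 0 < Fintype.card (Fin (expts m (clean m H)).length) :=
      Fintype.card_pos_iff.2 (⟨⟨i0, hi0⟩⟩ : Nonempty (Fin (expts m (clean m H)).length))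
    exact_mod_cast h1
  have hlog2 := Real.log_le_log hcard0 hcard
  have hagg : 1 ≤ ∑ t ∈ range m, χ t * agg χ (uu m (clean m H)) t := by linarith
  calc 7 * (m : ℝ) = 8 * m * 1 - m := by ring
    _ ≤ 8 * m * (∑ t ∈ range m, χ t * agg χ (uu m (clean m H)) t) - m := by
        have := mul_le_mul_of_nonneg_left hagg (by positivity : (0 : ℝ) ≤ 8 * m)
        linarith
    _ = ∑ t ∈ range m, (8 * m * (χ t * agg χ (uu m (clean m H)) t) - 1) := by
        rw [sum_sub_distrib, ← mul_sum]
        simp
    _ ≤ _ := by
        refine sum_le_sum fun t ht => ?_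
        have ht' := mem_range.1 ht
        exact opin_ge hm (clean m H) hne hH lbl t ht'.le (by omega) (lbl.getD t false)

/-- **Existence of advice.** -/
theorem exists_advice_s (U : Finset (List Bool)) (hU : U.Nonempty) {m T N : ℕ} {F : ℝ}
    (hm : 1 ≤ m) (E : List (List Bool) → List (List (Option Bool))) (A : Set (List Bool))
    (hE : ∀ z : List (List Bool), z.length = m → (∀ y ∈ z, y ∈ U) →
      (E z).length ≤ N ∧ ∃ h ∈ E z, SGood F h (answers A z))
    (hF : 0 < F) (hbig : 1 + Real.log (N * (4 * m)) ≤ F ^ 2 / 16)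
    (hT : (U.card : ℝ) < Real.exp (T * (1 / (m : ℝ)) ^ 2 / 8)) :
    ∃ adv : List Item, adv.length = T ∧
      (∀ q ∈ adv, q.1.length + 1 + q.2.length = m ∧ (∀ a ∈ q.1, a.1 ∈ U) ∧ ∀ a ∈ q.2, a ∈ U) ∧
      ∀ y ∈ U, (dcd E m adv y = true ↔ y ∈ A) := by
  classical
  have hm0 : (0 : ℝ) < m := by exact_mod_cast hm
  -- the class of predictors
  set 𝒬 : Set Item := {q | q.1.length + 1 + q.2.length = m ∧ (∀ a ∈ q.1, a.1 ∈ U) ∧
    ∀ a ∈ q.2, a ∈ U} with h𝒬
  set G : Item → {y // y ∈ U} → ℝ := fun q y => ((pred E m q y.1 : ℝ) - 2 * m) / (2 * m) with hG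
  have hGle : ∀ q y, |G q y| ≤ 1 := by
    intro q y
    have h1 : (pred E m q y.1 : ℝ) ≤ 4 * m := by
      have := opin_le m (clean m (E (q.1.map Prod.fst ++ y.1 :: q.2))) (q.1.map Prod.snd)
      exact_mod_cast this
    have h2 : (0 : ℝ) ≤ pred E m q y.1 := Nat.cast_nonneg _
    rw [hG]
    simp only
    rw [abs_div, abs_of_pos (by positivity : (0 : ℝ) < 2 * m), div_le_one (by positivity), abs_le]
    constructor <;> linarith
  obtain ⟨u0, hu0⟩ := hU
  have hne : Nonempty {y // y ∈ U} := ⟨⟨u0, hu0⟩⟩
  have hboost := exists_boost hne (fun y => sg (lab A y.1)) (fun y => abs_sg _) (G '' 𝒬)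
    (1 / (m : ℝ)) (by positivity) (by
      rw [div_le_one hm0]
      exact_mod_cast hm)
    (by rintro g ⟨q, _, rfl⟩ y; exact hGle q y) ?_ T (by
      rw [Fintype.card_coe]
      exact hT)
  · obtain ⟨gs, h1, h2, h3⟩ := hboost
    -- choose the items
    have hch : ∀ gs : List ({y // y ∈ U} → ℝ), (∀ g ∈ gs, g ∈ G '' 𝒬) →
        ∃ adv : List Item, (∀ q ∈ adv, q ∈ 𝒬) ∧ adv.map G = gs := by
      intro gs
      induction gs with
      | nil => exact fun _ => ⟨[], by simp, rfl⟩
      | cons g gs ih =>
        intro hgs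
        obtain ⟨adv, h4, h5⟩ := ih fun g' hg' => hgs g' (List.mem_cons_of_mem _ hg')
        obtain ⟨q, hq, hqg⟩ := hgs g List.mem_cons_self
        refine ⟨q :: adv, fun q' hq' => ?_, by rw [List.map_cons, h5, hqg]⟩
        rcases List.mem_cons.1 hq' with rfl | hq'
        · exact hq
        · exact h4 q' hq'
    obtain ⟨adv, h4, h5⟩ := hch gs h2
    have hlen : adv.length = T := by rw [← h1, ← h5, List.length_map]
    refine ⟨adv, hlen, fun q hq => h4 q hq, fun y hy => ?_⟩
    have h6 := h3 ⟨y, hy⟩
    rw [← h5, List.map_map] at h6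
    simp only at h6
    have h7 : (adv.map ((fun g => sg (lab A y) * g ⟨y, hy⟩) ∘ G)).sum =
        sg (lab A y) * ((((adv.map (fun q => pred E m q y)).sum : ℕ) : ℝ) -
          2 * m * adv.length) / (2 * m) := by
      clear h6 hlen h5 h4
      induction adv with
      | nil => simp
      | cons q adv ih =>
        rw [List.map_cons, List.sum_cons, ih, List.map_cons, List.sum_cons, List.length_cons]
        simp only [Function.comp, hG]
        push_cast
        field_simp
        ring
    rw [h7] at h6
    have h8 : 0 < sg (lab A y) * ((((adv.map (fun q => pred E m q y)).sum : ℕ) : ℝ) -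
          2 * m * adv.length) := by
      by_contra hcon
      push Not at hcon
      have := div_nonpos_of_nonpos_of_nonneg hcon (by positivity : (0 : ℝ) ≤ 2 * m)
      linarith
    unfold dcd
    rw [decide_eq_true_eq]
    unfold lab at h8
    by_cases hyA : y ∈ A
    · rw [decide_eq_true hyA] at h8
      simp only [sg, if_true, one_mul] at h8
      refine ⟨fun _ => hyA, fun _ => ?_⟩
      have h9 : ((2 * m * adv.length : ℕ) : ℝ) < ((adv.map (fun q => pred E m q y)).sum : ℕ) := by
        push_cast
        push_cast at h8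
        linarith
      exact_mod_cast h9
    · rw [decide_eq_false hyA] at h8
      simp only [sg, Bool.false_eq_true, if_false] at h8
      refine ⟨fun h9 => ?_, fun h => absurd h hyA⟩
      exfalso
      have h10 : ((2 * m * adv.length : ℕ) : ℝ) < ((adv.map (fun q => pred E m q y)).sum : ℕ) := by
        exact_mod_cast h9
      push_cast at h8 h10
      linarith
  · -- the weak predictors
    intro w hw
    set L : (Fin m → {y // y ∈ U}) → List (List Bool) := fun z => List.ofFn (fun j => (z j).1)
      with hL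
    have hLlen : ∀ z, (L z).length = m := fun z => by rw [hL]; simp
    have hLmem : ∀ z, ∀ y ∈ L z, y ∈ U := by
      intro z y hy
      rw [hL] at hy
      simp only [List.mem_ofFn] at hy
      obtain ⟨j, rfl⟩ := hy
      exact (z j).2
    obtain ⟨t, z, htz⟩ := exists_position (α := {y // y ∈ U}) (m := m) (by omega) w hw hne
      (fun t z => sg (lab A (z t).1) * (((opin m (clean m (E (L z)))
        (((L z).take t.1).map (lab A)) : ℝ) - 2 * m) / (2 * m))) (1 / (m : ℝ)) (fun z => by
        obtain ⟨h1, h2⟩ := hE (L z) (hLlen z) (hLmem z)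
        have h3 := total_gain_s hm (E (L z)) h1 (answers A (L z)) (by
          rw [answers_eq, List.length_map, hLlen]) h2 hF hbig
        have h4 : ∑ t : Fin m, sg (lab A (z t).1) * (((opin m (clean m (E (L z)))
            (((L z).take t.1).map (lab A)) : ℝ) - 2 * m) / (2 * m)) =
            (∑ t ∈ range m, sg ((answers A (L z)).getD t false) * ((opin m (clean m (E (L z)))
            ((answers A (L z)).take t) : ℝ) - 2 * m)) / (2 * m) := by
          rw [← Fin.sum_univ_eq_sum_range (fun t => sg ((answers A (L z)).getD t false) *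
            ((opin m (clean m (E (L z))) ((answers A (L z)).take t) : ℝ) - 2 * m)) m, sum_div]
          refine sum_congr rfl fun t _ => ?_
          have e1 : (answers A (L z)).getD t.1 false = lab A (z t).1 := by
            rw [answers_eq, List.getD_eq_getElem _ _ (by
              rw [List.length_map, hLlen]; exact t.2), List.getElem_map]
            congr 1
            simp [hL]
          rw [e1, answers_eq, List.map_take]
          ring
        rw [h4]
        rw [one_div, inv_mul_cancel₀ hm0.ne', le_div_iff₀ (by positivity)]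
        linarith)
    refine ⟨G (item A (L z) t.1), ⟨item A (L z) t.1, ?_, rfl⟩, ?_⟩
    · refine ⟨?_, ?_, ?_⟩
      · unfold item
        simp only [List.length_map, List.length_take, List.length_drop, hLlen]
        have := t.2
        omega
      · intro a ha
        unfold item at ha
        simp only [List.mem_map] at ha
        obtain ⟨y, hy, rfl⟩ := ha
        exact hLmem z y (List.mem_of_mem_take hy)
      · intro a ha
        unfold item at ha
        exact hLmem z a (List.mem_of_mem_drop ha)
    · refine htz.trans (le_of_eq (sum_congr rfl fun a _ => ?_))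
      congr 1
      have e1 : L (Function.update z t a) = (L z).set t.1 a.1 := by
        rw [hL]
        simp only
        apply List.ext_getElem
        · simp
        · intro j h1 h2
          rw [List.getElem_ofFn, List.getElem_set, List.getElem_ofFn]
          by_cases hj : t.1 = j
          · subst hj
            simp
          · rw [if_neg hj, Function.update_of_ne]
            intro h
            apply hj
            rw [← h]
      simp only [Function.update_self]
      rw [e1, take_set_self, hG]
      simp only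
      rw [pred_item, eq_take_cons_drop (L z) t.1 a.1 (by rw [hLlen]; exact t.2)]

end Pool.Agent.W901.NU
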