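import Pool.Agent.W901.NU.ClsB
import Pool.Agent.W901.NU.Sharp
import Pool.Agent.W901.NU.ShDefs

/-!
# The threshold for prediction is the square root of the logarithm
-/

set_option autoImplicit false

namespace Pool.Agent.W901.NU

open Pool.Agent.NPC Pool.Agent.H251R5.PQ Pool.Agent.W901.AT Pool.Agent.H579R2.Spt

theorem big_of_tendsto {f : ℕ → ℝ}
    (hf : Filter.Tendsto (fun m : ℕ => f m / Real.sqrt (Real.log m)) Filter.atTop Filter.atTop)
    (e : ℕ) : ∃ M : ℕ, ∀ m ≥ M, 0 < f m ∧ ∀ N : ℕ, 1 ≤ N → N ≤ m ^ e →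
      1 + Real.log (N * (4 * m)) ≤ f m ^ 2 / 16 := by
  set c : ℝ := 16 * (e + 4) with hc
  have hc0 : 0 < c := by positivity
  obtain ⟨M0, hM0⟩ := Filter.eventually_atTop.1 (hf.eventually_ge_atTop (Real.sqrt c))
  refine ⟨max M0 3, fun m hm => ?_⟩
  have hm3 : 3 ≤ m := le_trans (le_max_right _ _) hm
  have hm3' : (3 : ℝ) ≤ m := by exact_mod_cast hm3
  have h2 := hM0 m (le_trans (le_max_left _ _) hm)
  have hlog : 1 ≤ Real.log m := by
    rw [Real.le_log_iff_exp_le (by positivity)]
    exact (Real.exp_one_lt_d9.le.trans (by norm_num)).trans hm3'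
  have hsl : 0 < Real.sqrt (Real.log m) := Real.sqrt_pos.2 (by linarith)
  rw [le_div_iff₀ hsl] at h2
  have hsc : 0 < Real.sqrt c := Real.sqrt_pos.2 hc0
  have hfpos : 0 < f m := lt_of_lt_of_le (by positivity) h2
  refine ⟨hfpos, fun N hN1 hN => ?_⟩
  have h4 : Real.log (N * (4 * m)) ≤ (e + 3) * Real.log m := by
    have h5 : ((N : ℝ) * (4 * m)) ≤ (m : ℝ) ^ (e + 3) := by
      have h6 : (N : ℝ) ≤ (m : ℝ) ^ e := by exact_mod_cast hN
      calc (N : ℝ) * (4 * m) ≤ (m : ℝ) ^ e * ((m * m) * m) := by
            refine mul_le_mul h6 ?_ (by positivity) (by positivity)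
            nlinarith
        _ = _ := by ring
    have hN0 : (0 : ℝ) < N := by exact_mod_cast hN1
    have h6 := Real.log_le_log (by positivity) h5
    rw [Real.log_pow] at h6
    push_cast at h6
    exact h6
  have h7 : c * Real.log m ≤ f m ^ 2 := by
    have h8 : (Real.sqrt c * Real.sqrt (Real.log m)) ^ 2 ≤ f m ^ 2 :=
      pow_le_pow_left₀ (by positivity) h2 2
    rwa [mul_pow, Real.sq_sqrt hc0.le, Real.sq_sqrt (by linarith)] at h8
  rw [hc] at h7
  nlinarith

theorem sgood_of_beatsBy {T : ℝ} (hT : 0 < T) {A : Set (List Bool)} {qs : List (List Bool)}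
    {h : List (Option Bool)} (hb : BeatsBy T A qs h) : SGood T h (answers A qs) := by
  obtain ⟨h1, h0, h2⟩ := hb
  refine ⟨by rw [h1]; simp [answers], h0, ?_⟩
  rw [← excess_eq_cor]
  rw [made_eq_nans] at h2
  have h3 := pow_le_pow_left₀ (by positivity) h2 2
  rwa [mul_pow, Real.sq_sqrt (by positivity), sq_abs] at h3

/-- **Advice along a reduction**, the enumerator being of polynomial size only. -/
theorem adv_of_szEnum_s {A : Set (List Bool)} {c : ℕ} {f : ℕ → ℝ}
    (hbigf : ∀ e : ℕ, ∃ M : ℕ, ∀ m ≥ M, 0 < f m ∧ ∀ N : ℕ, 1 ≤ N → N ≤ m ^ e →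
      1 + Real.log (N * (4 * m)) ≤ f m ^ 2 / 16)
    {E : List (List Bool) → List (List (Option Bool))}
    {pE : Polynomial ℕ} (hpE : ∀ z, sz (E z) ≤ pE.eval (sz z))
    (hEA : ∀ qs, qs ≠ [] → (∀ q ∈ qs, q.length ^ c ≤ qs.length) →
      ∃ h ∈ E qs, SGood (f qs.length) h (answers A qs))
    {κ : Type} [TEnc κ] {F : κ × List Bool → List Bool} (hF : Poly F) :
    ∃ Pm Pa : Polynomial ℕ, (∀ n, 1 ≤ Pm.eval n) ∧ ∀ (n : ℕ) (x : κ), sz x ≤ n →
      ∃ adv : List Item, sz adv ≤ Pa.eval n ∧ ∀ u : List Bool, u.length ≤ n →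
        (dcd (fun z => E (z.map (fun u => F (x, u)))) (Pm.eval n) adv u = true ↔ F (x, u) ∈ A) := by
  classical
  obtain ⟨pF, hpF⟩ := hF.sz_le
  obtain ⟨e1, he1⟩ := exists_pow_bound (pF.comp (Polynomial.C 5 * Polynomial.X + 2))
  set g : ℕ := e1 * c + 1 with hg
  set Q : Polynomial ℕ := Polynomial.X ^ g * (Polynomial.X ^ e1 + 1) + 1 with hQ
  obtain ⟨e2, he2⟩ := exists_pow_bound (pE.comp Q)
  obtain ⟨M, hM⟩ := hbigf e2
  set Pm : Polynomial ℕ := (Polynomial.X + Polynomial.C (M + 2)) ^ g with hPm
  have ePm : ∀ n, Pm.eval n = (n + (M + 2)) ^ g := fun n => by simp [hPm]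
  have hPm1 : ∀ n, n + (M + 2) ≤ Pm.eval n := fun n => by
    rw [ePm]
    exact Nat.le_self_pow (by omega) _
  refine ⟨Pm, (Polynomial.C 8 * Pm ^ 2 * (Polynomial.X + 1 + 1)) *
    (2 * (Pm * (Polynomial.C 4 * Polynomial.X + 10)) + 3 + 1) + 1,
    fun n => by have := hPm1 n; omega, fun n x hx => ?_⟩
  set m := Pm.eval n with hm
  set b := n + (M + 2) with hb
  have hm1 : b ≤ m := hPm1 n
  have hmb : m = b ^ g := ePm n
  have hb2 : 2 ≤ b := by omega
  -- the images
  have hFl : ∀ u : List Bool, u.length ≤ n → sz (F (x, u)) ≤ b ^ e1 := by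
    intro u hu
    have h1 := hpF (x, u)
    have h2 := sz_listBool_le u
    have h3 : sz (x, u) ≤ 5 * b + 2 := by
      rw [sz_pair]
      omega
    have h4 := eval_mono pF h3
    have h5 := he1 b hb2
    rw [Polynomial.eval_comp] at h5
    simp only [Polynomial.eval_add, Polynomial.eval_mul, Polynomial.eval_C, Polynomial.eval_X,
      Polynomial.eval_ofNat] at h5
    omega
  have hcand : ∀ z : List (List Bool), z.length = m → (∀ y ∈ z, y ∈ BLe n) →
      (E (z.map (fun u => F (x, u)))).length ≤ b ^ e2 ∧
        ∃ h ∈ E (z.map (fun u => F (x, u))),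
          SGood (f m) h (answers {u | F (x, u) ∈ A} z) := by
    intro z hz hzU
    have hans : answers {u | F (x, u) ∈ A} z = answers A (z.map (fun u => F (x, u))) := by
      unfold answers
      rw [List.map_map]
      rfl
    constructor
    · have h1 := hpE (z.map (fun u => F (x, u)))
      have h2 := length_lt_sz (E (z.map (fun u => F (x, u))))
      have h3 : sz (z.map (fun u => F (x, u))) ≤ Q.eval b := by
        have h4 := sz_le_length_mul (z.map (fun u => F (x, u))) (b ^ e1) (fun y hy => by
          obtain ⟨u, hu, rfl⟩ := List.mem_map.1 hy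
          exact hFl u (mem_BLe.1 (hzU u hu)))
        rw [List.length_map, hz, hmb] at h4
        rw [hQ]
        simp only [Polynomial.eval_add, Polynomial.eval_mul, Polynomial.eval_pow,
          Polynomial.eval_X, Polynomial.eval_one]
        exact h4
      have h4 := eval_mono pE h3
      have h5 := he2 b hb2
      rw [Polynomial.eval_comp] at h5
      omega
    · rw [hans]
      have hne : z.map (fun u => F (x, u)) ≠ [] := by
        intro h0
        rw [List.map_eq_nil_iff] at h0
        rw [h0] at hz
        simp at hz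
        omega
      have hlm : (z.map (fun u => F (x, u))).length = m := by rw [List.length_map, hz]
      have hEA' := hEA _ hne
      rw [hlm] at hEA'
      refine hEA' fun y hy => ?_
      obtain ⟨u, hu, rfl⟩ := List.mem_map.1 hy
      rw [hmb]
      have h1 := hFl u (mem_BLe.1 (hzU u hu))
      have h2 := length_lt_sz (F (x, u))
      calc (F (x, u)).length ^ c ≤ (b ^ e1) ^ c := Nat.pow_le_pow_left (by omega) c
        _ = b ^ (e1 * c) := by rw [pow_mul]
        _ ≤ b ^ g := Nat.pow_le_pow_right (by omega) (by omega)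
  have hU : (BLe n).Nonempty := ⟨[], mem_BLe.2 (by simp)⟩
  have hN : 1 ≤ b ^ e2 := Nat.one_le_pow _ _ (by omega)
  have hN2 : b ^ e2 ≤ m ^ e2 := Nat.pow_le_pow_left hm1 e2
  obtain ⟨hfm, hMm⟩ := hM m (by omega)
  obtain ⟨adv, h1, h2, h3⟩ := exists_advice_s (BLe n) hU (F := f m) (m := m)
    (T := 8 * m ^ 2 * (n + 1 + 1)) (N := b ^ e2) (by omega)
    (fun z => E (z.map (fun u => F (x, u)))) {u | F (x, u) ∈ A} hcand hfm
    (hMm (b ^ e2) hN hN2) (exp_cond (by omega) (card_BLe n))
  refine ⟨adv, ?_, fun u hu => h3 u (mem_BLe.2 hu)⟩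
  have e3 := sz_le_length_mul adv (2 * (m * (4 * n + 10)) + 3) (fun q hq => by
    obtain ⟨g1, g2, g3⟩ := h2 q hq
    exact sz_item q g1 (fun a ha => mem_BLe.1 (g2 a ha)) (fun a ha => mem_BLe.1 (g3 a ha)))
  rw [h1] at e3
  simp only [Polynomial.eval_add, Polynomial.eval_mul, Polynomial.eval_one, Polynomial.eval_C,
    Polynomial.eval_ofNat, Polynomial.eval_X, Polynomial.eval_pow]
  rw [← hm]
  exact e3

section

variable {C : Set (List Bool) → Prop}

/-- **Advice from predictions with an advantage above the threshold.** -/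
theorem hasAdv_of_predIn (hC : Cl C) {f : ℕ → ℝ} {ε : ℝ}
    (hf : Filter.Tendsto (fun m : ℕ => f m / Real.sqrt (Real.log m)) Filter.atTop Filter.atTop)
    (hε : 0 < ε) {A : Set (List Bool)} (h : PredIn C f ε A) : HasAdv C A := by
  obtain ⟨g, b, hg, hX⟩ := h
  obtain ⟨c, hc⟩ := exists_nat_ge (1 / ε)
  have hc1 : 1 ≤ (c : ℝ) * ε := by
    rwa [div_le_iff₀ hε] at hc
  -- from some length on the advantage is positive
  obtain ⟨M0, hM0⟩ := big_of_tendsto hf 0
  set f' : ℕ → ℝ := fun m => if M0 ≤ m then f m else 0 with hf'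
  set E : List (List Bool) → List (List (Option Bool)) := fun qs =>
    (enuStep^[b * (Nat.log 2 (bits qs).length + 1)] [[]]).map
      (fun t => g (pairBits (bits qs) t)) with hEdef
  have hE : CFn C E := by
    refine CFn.map hC (l := fun qs : List (List Bool) =>
      enuStep^[b * (Nat.log 2 (bits qs).length + 1)] [[]])
      (F := fun p : List (List Bool) × List Bool => g (pairBits (bits p.1) p.2))
      (enu_poly_all b) ?_
    exact (hg.toCFn hC).compPoly hC (H622R2.poly_pairBits
      (enu_poly_bits.comp (Poly.fst Poly.id)) (Poly.snd Poly.id))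
  have hE' := hE
  obtain ⟨⟨pE, hpE⟩, _⟩ := hE'
  refine ⟨E, hE, fun κ _ F hF => ?_⟩
  refine adv_of_szEnum_s (A := A) (c := c) (f := f') (fun e => ?_) hpE (fun qs hqs hlen => ?_) hF
  · obtain ⟨M, hM⟩ := big_of_tendsto hf e
    refine ⟨max M M0, fun m hm => ?_⟩
    have h1 : f' m = f m := if_pos (le_trans (le_max_right _ _) hm)
    rw [h1]
    exact hM m (le_trans (le_max_left _ _) hm)
  · obtain ⟨t, ht, hb⟩ := hX qs hqs (fun y hy =>
      length_cond hε hc1 (length_pos hqs) (hlen y hy))
    refine ⟨_, List.mem_map.2 ⟨t, enu_mem _ _ ht, rfl⟩, ?_⟩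
    by_cases hm : M0 ≤ qs.length
    · have h1 : f' qs.length = f qs.length := if_pos hm
      rw [h1]
      exact sgood_of_beatsBy (hM0 _ hm).1 hb
    · have h1 : f' qs.length = 0 := if_neg hm
      rw [h1]
      refine ⟨by rw [hb.1]; simp [answers], hb.2.1, ?_⟩
      simp only [ne_eq, OfNat.ofNat_ne_zero, not_false_eq_true, zero_pow, zero_mul]
      positivity

theorem beatsBy_full {T : ℝ} (A : Set (List Bool)) (qs : List (List Bool))
    (hqs : qs ≠ []) (hT : T ≤ Real.sqrt qs.length) : BeatsBy T A qs ((answers A qs).map some) := by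
  have hl : (answers A qs).length = qs.length := by simp [answers]
  have hm : 1 ≤ qs.length := length_pos hqs
  refine ⟨by rw [List.length_map, hl], by rw [made_eq_nans, nans_some, hl]; omega, ?_⟩
  rw [excess_self, made_eq_nans, nans_some, hl, Int.cast_natCast, abs_of_nonneg (by positivity)]
  calc T * Real.sqrt qs.length ≤ Real.sqrt qs.length * Real.sqrt qs.length :=
        mul_le_mul_of_nonneg_right hT (Real.sqrt_nonneg _)
    _ = qs.length := Real.mul_self_sqrt (by positivity)

/-- sets in the class are fully predictable in the class -/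
theorem fullyPredIn_of_in (hC : Cl C) {f : ℕ → ℝ} (hf : ∀ m : ℕ, 1 ≤ m → f m ≤ Real.sqrt m)
    {A : Set (List Bool)} (hA : C A) : FullyPredIn C f A := by
  classical
  set g : List Bool → List (Option Bool) := fun x =>
    ((unbits (List (List Bool)) x).getD []).map (fun y => some (decide (y ∈ A))) with hg
  have hgC : CFn C g := by
    refine CFn.map hC (l := fun x : List Bool => (unbits (List (List Bool)) x).getD [])
      (F := fun q : List Bool × List Bool => some (decide (q.2 ∈ A)))
      (NPC.Poly.optGetD (g := fun _ => []) poly_unbits (NPC.Poly.const _)) ?_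
    have h1 : CPr C (fun q : List Bool × List Bool => q.2 ∈ A) :=
      (CPr.of_raw hC hA).comp hC (f := fun q : List Bool × List Bool => q.2)
        (NPC.Poly.snd NPC.Poly.id)
    have h2 : CFn C (fun q : List Bool × List Bool => decide (q.2 ∈ A)) := CFn.dec hC h1
    exact (CFn.poly hC (NPC.Poly.some NPC.Poly.id)).comp hC h2
  refine ⟨g, FnIn.of_CFn hC hgC, fun qs hqs => ?_⟩
  have h1 : g (bits qs) = (answers A qs).map some := by
    rw [hg]
    simp only
    rw [unbits_bits, Option.getD_some]
    unfold answers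
    rw [List.map_map]
    rfl
  rw [h1]
  refine ⟨beatsBy_full A qs hqs (hf _ (length_pos hqs)), fun a ha => ?_⟩
  obtain ⟨i, _, rfl⟩ := List.mem_map.1 ha
  simp

theorem FullyPredIn.predIn (hC : Cl C) {f : ℕ → ℝ} {A : Set (List Bool)}
    (h : FullyPredIn C f A) (ε : ℝ) : PredIn C f ε A := by
  obtain ⟨g, hg, h⟩ := h
  refine ⟨fun z => g (unpair z).1, 0, FnIn.of_CFn hC ((hg.toCFn hC).compPoly hC
    (NPC.Poly.fst poly_unpair)), fun qs hqs _ => ⟨[], by simp, ?_⟩⟩
  simp only [unpair_pairBits]
  exact (h qs hqs).1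

/-! ### Below the threshold everything is predictable -/

/-- the hint as the answers to the first questions -/
def prf (z : List Bool) : List (Option Bool) :=
  ((unpair z).2.take ((unbits (List (List Bool)) (unpair z).1).getD []).length).map some ++
    List.replicate (((unbits (List (List Bool)) (unpair z).1).getD []).length -
      ((unpair z).2.take ((unbits (List (List Bool)) (unpair z).1).getD []).length).length) none

theorem prf_poly : Poly prf := by
  have h1 : Poly (fun z : List Bool => (unbits (List (List Bool)) (unpair z).1).getD []) :=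
    NPC.Poly.optGetD (g := fun _ => []) (poly_unbits.comp (NPC.Poly.fst poly_unpair))
      (NPC.Poly.const _)
  have h2 : Poly (fun z : List Bool => (unpair z).2.take
      ((unbits (List (List Bool)) (unpair z).1).getD []).length) :=
    take_poly' (NPC.Poly.snd poly_unpair) (NPC.Poly.length h1)
  unfold prf
  refine NPC.Poly.append (NPC.Poly.map (F := fun _ (b : Bool) => some b) h2
    (NPC.Poly.some (NPC.Poly.snd NPC.Poly.id))) ?_
  have h3 : UPoly (fun z : List Bool => ((unbits (List (List Bool)) (unpair z).1).getD []).length -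
      ((unpair z).2.take ((unbits (List (List Bool)) (unpair z).1).getD []).length).length) :=
    UPoly.of_le (NPC.Poly.sub (NPC.Poly.length h1) (NPC.Poly.length h2)) (UPoly.length h1)
      (fun _ => Nat.sub_le _ _)
  refine (NPC.Poly.map (F := fun _ (_ : Bool) => (none : Option Bool))
    (Pool.Agent.H623R2.PS.poly_replicate h3 false) (NPC.Poly.const _)).congr fun z => ?_
  simp

theorem nans_append (a b : List (Option Bool)) : nans (a ++ b) = nans a + nans b := by
  unfold nans
  rw [List.filter_append, List.length_append]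

theorem nans_none (n : ℕ) : nans (List.replicate n none) = 0 := by
  unfold nans
  rw [List.filter_eq_nil_iff.2 fun a ha => by rw [List.eq_of_mem_replicate ha]; simp]
  rfl

theorem excess_append (a b : List (Option Bool)) (u v : List Bool) (h : a.length = u.length) :
    excess (a ++ b) (u ++ v) = excess a u + excess b v := by
  unfold excess
  rw [List.zip_append h, List.map_append, List.sum_append]

theorem excess_none (n : ℕ) (v : List Bool) : excess (List.replicate n none) v = 0 := by
  unfold excess
  refine List.sum_eq_zero fun x hx => ?_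
  obtain ⟨t, ht, rfl⟩ := List.mem_map.1 hx
  have h1 := List.eq_of_mem_replicate (List.of_mem_zip ht).1
  rw [if_pos h1]

/-- **Below the threshold everything is predictable.** -/
theorem exists_hint {f : ℕ → ℝ} {c : ℝ}
    (h1 : ∀ m : ℕ, 1 ≤ m → f m ≤ Real.sqrt m)
    (h2 : ∀ m : ℕ, 1 ≤ m → f m ≤ c * Real.sqrt (Real.log m)) :
    ∃ b : ℕ, ∀ (A : Set (List Bool)) (qs : List (List Bool)), qs ≠ [] →
      ∃ t : List Bool, t.length = b * (Nat.log 2 (bits qs).length + 1) ∧
        BeatsBy (f qs.length) A qs (prf (pairBits (bits qs) t)) := by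
  obtain ⟨b, hb⟩ := exists_nat_ge (max 1 (c ^ 2))
  have hb1 : (1 : ℝ) ≤ b := (le_max_left _ _).trans hb
  have hb2 : c ^ 2 ≤ b := (le_max_right _ _).trans hb
  refine ⟨b, fun A qs hqs => ?_⟩
  set m := qs.length with hm
  set n := (bits qs).length with hn
  set k := b * (Nat.log 2 n + 1) with hk
  set w := answers A qs with hw
  have hwl : w.length = m := by simp [hw, answers, hm]
  have hm1 : 1 ≤ m := length_pos hqs
  have hmn : m ≤ n := by
    rw [hn, bits_length]
    exact (length_lt_sz qs).le
  set t := w.take k ++ List.replicate (k - m) false with ht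
  have htl : t.length = k := by
    rw [ht, List.length_append, List.length_take, List.length_replicate, hwl]
    omega
  have htt : t.take m = w.take k := by
    rcases le_total k m with h | h
    · rw [ht, Nat.sub_eq_zero_of_le h, List.replicate_zero, List.append_nil,
        List.take_of_length_le (by rw [List.length_take]; omega)]
    · have hwk : w.take k = w := List.take_of_length_le (by rw [hwl]; exact h)
      rw [ht, hwk, List.take_append_of_le_length (by rw [hwl]),
        List.take_of_length_le (by rw [hwl])]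
  refine ⟨t, htl, ?_⟩
  have hprf : prf (pairBits (bits qs) t) = (w.take k).map some ++
      List.replicate (m - (w.take k).length) none := by
    unfold prf
    rw [unpair_pairBits]
    simp only [unbits_bits, Option.getD_some]
    rw [← hm, htt]
  set s := min k m with hs
  have hsl : (w.take k).length = s := by rw [List.length_take, hwl]
  have hk1 : 1 ≤ k := by
    have hb0 : 1 ≤ b := by exact_mod_cast hb1
    exact Nat.mul_pos hb0 (Nat.succ_pos _)
  have hs1 : 1 ≤ s := by omega
  have hsm : s ≤ m := min_le_right _ _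
  have hmade : made (prf (pairBits (bits qs) t)) = s := by
    rw [hprf, made_eq_nans, nans_append, nans_some, nans_none, hsl, add_zero]
  have hexc : excess (prf (pairBits (bits qs) t)) w = s := by
    have e := excess_append ((w.take k).map some) (List.replicate (m - (w.take k).length) none)
      (w.take k) (w.drop k) (by simp)
    rw [List.take_append_drop] at e
    rw [hprf, e, excess_none, add_zero, excess_self, hsl]
  refine ⟨?_, by rw [hmade]; omega, ?_⟩
  · rw [hprf, List.length_append, List.length_map, hsl, List.length_replicate]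
    omega
  · rw [hmade, hexc, Int.cast_natCast, abs_of_nonneg (by positivity)]
    have hfs : f m ≤ Real.sqrt s := by
      rcases le_total k m with h | h
      · have hsk : s = k := min_eq_left h
        rw [hsk]
        refine (h2 m hm1).trans ?_
        refine Real.le_sqrt_of_sq_le ?_
        rw [mul_pow, Real.sq_sqrt (Real.log_natCast_nonneg _)]
        have hlog : Real.log m ≤ (Nat.log 2 n + 1 : ℕ) := by
          have e1 : (m : ℝ) ≤ 2 ^ (Nat.log 2 n + 1) := by
            have e2 : n < 2 ^ (Nat.log 2 n + 1) := Nat.lt_pow_succ_log_self (by norm_num) n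
            have e3 : m ≤ 2 ^ (Nat.log 2 n + 1) := by omega
            exact_mod_cast e3
          have e4 := Real.log_le_log (by exact_mod_cast hm1) e1
          rw [Real.log_pow] at e4
          refine e4.trans ?_
          have e5 : Real.log 2 ≤ 1 := Real.log_two_lt_d9.le.trans (by norm_num)
          calc ((Nat.log 2 n + 1 : ℕ) : ℝ) * Real.log 2 ≤ ((Nat.log 2 n + 1 : ℕ) : ℝ) * 1 :=
                mul_le_mul_of_nonneg_left e5 (by positivity)
            _ = _ := mul_one _
        rw [hk]
        push_cast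
        push_cast at hlog
        exact mul_le_mul hb2 hlog (Real.log_natCast_nonneg _) (by positivity)
      · have hsk : s = m := min_eq_right h
        rw [hsk]
        exact h1 m hm1
    calc f m * Real.sqrt s ≤ Real.sqrt s * Real.sqrt s :=
          mul_le_mul_of_nonneg_right hfs (Real.sqrt_nonneg _)
      _ = s := Real.mul_self_sqrt (by positivity)

/-- **Below the threshold everything is predictable in the class.** -/
theorem predIn_of_le (hC : Cl C) {f : ℕ → ℝ} {ε c : ℝ}
    (h1 : ∀ m : ℕ, 1 ≤ m → f m ≤ Real.sqrt m)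
    (h2 : ∀ m : ℕ, 1 ≤ m → f m ≤ c * Real.sqrt (Real.log m)) (A : Set (List Bool)) :
    PredIn C f ε A := by
  obtain ⟨b, hb⟩ := exists_hint h1 h2
  exact ⟨prf, b, FnIn.of_CFn hC (CFn.poly hC prf_poly), fun qs hqs _ => hb A qs hqs⟩

end

end Pool.Agent.W901.NU
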