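import Pool.Agent.W901.NU.ShA
import Pool.Agent.W901.NU.ClsC
import Pool.Agent.W901.NU.PPc

/-!
# The threshold law in a class, for polynomial space, exponential time and counting
-/

set_option autoImplicit false

namespace Pool.Agent.W901.NU

open Pool.Agent.NPC Pool.Agent.H251R5.PQ Pool.Agent.W901.AT Pool.Agent.H579R2.Spt
open Pool.Agent.NPC.Cnt (CountP SharpP FP bsum bsum_succ bsum_zero bsum_congr bsum_valB_lt bsum_eq_card)
open Pool.Agent.H820R2.SS (InEXPTIME)

section

variable {C : Set (List Bool) → Prop} {α β : Type} [TEnc α] [TEnc β]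

theorem CPr.all (hC : Cl C) [TDec α] [TDec β] {P : α × β → Prop} (h : CPr C P) (p : Polynomial ℕ) :
    CPr C (fun a => ∀ b : β, sz b ≤ p.eval (sz a) → P (a, b)) :=
  (((h.not hC).ex hC p).not hC).congr fun a => by
    simp only [not_exists, not_and, not_not]

theorem CPr.imp (hC : Cl C) {P Q : α → Prop} (h : CPr C P) (h' : CPr C Q) :
    CPr C (fun a => P a → Q a) :=
  ((h.not hC).or hC h').congr fun a => by tauto

/-- the values of the counting function claimed by the decisions -/
def Vl (B : ℕ) (d : ℕ → Bool) (c : ℕ) : Prop :=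
  c < B ∧ ∀ k, 1 ≤ k → k ≤ B → (d k = true ↔ k ≤ c)

theorem Vl.unique {B : ℕ} {d : ℕ → Bool} {c c' : ℕ} (h : Vl B d c) (h' : Vl B d c') : c = c' := by
  rcases lt_trichotomy c c' with h1 | h1 | h1
  · have g1 := (h.2 c' (by omega) h'.1.le)
    have g2 := (h'.2 c' (by omega) h'.1.le)
    have := g1.1 (g2.2 le_rfl)
    omega
  · exact h1
  · have g1 := (h.2 c (by omega) h.1.le)
    have g2 := (h'.2 c (by omega) h.1.le)
    have := g2.1 (g1.2 le_rfl)
    omega

/-- **A set which is hard for `PP` and has advice in the class.** -/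
theorem pp_sub_of_hasAdv (hC : Cl C) (A : Set (List Bool)) (hA : PPHard A) (h : HasAdv C A) :
    ∀ L : Set (List Bool), InPPclass L → C L := by
  rintro L ⟨V, p, hV, hL⟩
  obtain ⟨E, hE, hadv'⟩ := h
  have hVp : Poly V := PIso.poly_iff.2 hV
  obtain ⟨f, hf, hfA⟩ := hA _ (thr_inPP (cntP_countP hV p))
  -- the reduction
  set F : List Bool × List Bool → List Bool := fun z =>
    f (bits (((z.1, ((unbits (List Bool × ℕ) z.2).getD ([], 0)).1),
      ((unbits (List Bool × ℕ) z.2).getD ([], 0)).2) : (List Bool × List Bool) × ℕ)) with hF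
  have hFp : Poly F := by
    have e0 : Poly (fun z : List Bool × List Bool =>
        (unbits (List Bool × ℕ) z.2).getD ([], 0)) :=
      NPC.Poly.optGetD (g := fun _ => ([], 0)) (poly_unbits.comp (NPC.Poly.snd NPC.Poly.id))
        (NPC.Poly.const _)
    have e1 : Poly (fun z : List Bool × List Bool => z.1) := NPC.Poly.fst NPC.Poly.id
    exact (PIso.poly_iff.2 hf).comp (bits_poly.comp (NPC.Poly.pair (NPC.Poly.pair e1
      (NPC.Poly.fst e0)) (NPC.Poly.snd e0)))
  have hFA : ∀ (x : List Bool) (u : List Bool) (k : ℕ),
      F (x, bits ((u, k) : List Bool × ℕ)) ∈ A ↔ 1 ≤ k ∧ k ≤ cntP V p (x, u) := by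
    intro x u k
    rw [hF]
    simp only [unbits_bits, Option.getD_some]
    rw [← hfA, bits_mem_lang]
    rfl
  obtain ⟨Pm, Pa, hPm, hadv⟩ := hadv' (List Bool) F hFp
  set nP : Polynomial ℕ := Polynomial.C 8 * p + Polynomial.X + 20 with hnP
  -- the decisions with advice
  set Dv : ((List Bool × List Item) × List Bool) × ℕ → Bool := fun z =>
    dcd (fun y => E (y.map (fun u => F (z.1.1.1, u)))) (Pm.eval (nP.eval (sz z.1.1.1))) z.1.1.2
      (bits ((z.1.2, z.2) : List Bool × ℕ)) with hDv
  have hDvp : CFn C Dv := by
    have e1 : Poly (fun z : ((List Bool × List Item) × List Bool) × ℕ => z.1.1.1) :=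
      NPC.Poly.fst (NPC.Poly.fst (NPC.Poly.fst NPC.Poly.id))
    have e2 : UPoly (fun z : ((List Bool × List Item) × List Bool) × ℕ =>
        Pm.eval (nP.eval (sz z.1.1.1))) := by
      refine (((UPoly.length (bits_poly.comp e1)).eval nP).eval Pm).congr fun z => ?_
      simp only [bits_length]
    have e3 : Poly (fun q : (((List Bool × List Item) × List Bool) × ℕ) ×
        List (List Bool) => q.2.map (fun u => F (q.1.1.1.1, u))) := by
      refine NPC.Poly.map (l := fun q : (((List Bool × List Item) ×
        List Bool) × ℕ) × List (List Bool) => q.2) (F := fun q u => F (q.1.1.1.1, u))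
        (NPC.Poly.snd NPC.Poly.id) ?_
      exact hFp.comp (NPC.Poly.pair (e1.comp (NPC.Poly.fst (NPC.Poly.fst NPC.Poly.id)))
        (NPC.Poly.snd NPC.Poly.id))
    have e4 : Poly (fun z : ((List Bool × List Item) × List Bool) × ℕ =>
        bits ((z.1.2, z.2) : List Bool × ℕ)) :=
      bits_poly.comp (NPC.Poly.pair (NPC.Poly.snd (NPC.Poly.fst NPC.Poly.id))
        (NPC.Poly.snd NPC.Poly.id))
    exact CFn.dcd hC hE (G := fun q : (((List Bool × List Item) × List Bool) × ℕ) ×
        List (List Bool) => q.2.map (fun u => F (q.1.1.1.1, u))) e3 e2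
      (NPC.Poly.snd (NPC.Poly.fst (NPC.Poly.fst NPC.Poly.id))) e4
  have hDvt : CPr C (fun z => Dv z = true) := CFn.isTrue hC hDvp
  -- the claimed values
  set W : ((List Bool × List Item) × List Bool) × ℕ → Prop := fun z =>
    Vl (2 ^ (p.eval z.1.1.1.length + 1)) (fun k => Dv (z.1, k)) z.2 with hW
  have hBp : ∀ {γ : Type} [TEnc γ] {x : γ → List Bool}, Poly x →
      Poly (fun a => 2 ^ (p.eval (x a).length + 1)) := fun hx =>
    two_pow_poly (UPoly.add ((UPoly.length hx).eval p) (UPoly.const 1))
  have hWp : CPr C W := by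
    have e1 : Poly (fun z : ((List Bool × List Item) × List Bool) × ℕ => z.1.1.1) :=
      NPC.Poly.fst (NPC.Poly.fst (NPC.Poly.fst NPC.Poly.id))
    have c1 : CPr C (fun z : ((List Bool × List Item) × List Bool) × ℕ =>
        decide (z.2 < 2 ^ (p.eval z.1.1.1.length + 1)) = true) :=
      CPr.poly hC (NPC.Poly.decide_lt (NPC.Poly.snd NPC.Poly.id) (hBp e1))
    have g0 : Poly (fun q : (((List Bool × List Item) × List Bool) × ℕ) × ℕ => q.1) :=
      NPC.Poly.fst NPC.Poly.id
    have g1 : Poly (fun q : (((List Bool × List Item) × List Bool) × ℕ) × ℕ => q.2) :=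
      NPC.Poly.snd NPC.Poly.id
    have c2 : CPr C (fun q : (((List Bool × List Item) × List Bool) × ℕ) × ℕ =>
        decide (1 ≤ q.2) = true) := CPr.poly hC (NPC.Poly.decide_le (NPC.Poly.const 1) g1)
    have c3 : CPr C (fun q : (((List Bool × List Item) × List Bool) × ℕ) × ℕ =>
        decide (q.2 ≤ 2 ^ (p.eval q.1.1.1.1.length + 1)) = true) :=
      CPr.poly hC (NPC.Poly.decide_le g1 (hBp (e1.comp g0)))
    have c4 : CPr C (fun q : (((List Bool × List Item) × List Bool) × ℕ) × ℕ =>
        Dv (q.1.1, q.2) = true) :=
      hDvt.comp hC (NPC.Poly.pair (NPC.Poly.fst g0) g1)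
    have c5 : CPr C (fun q : (((List Bool × List Item) × List Bool) × ℕ) × ℕ =>
        decide (q.2 ≤ q.1.2) = true) := CPr.poly hC (NPC.Poly.decide_le g1 (NPC.Poly.snd g0))
    have c6 := CPr.all hC (c2.imp hC (c3.imp hC (c4.iff hC c5)))
      (Polynomial.C 4 * (p + 2) + 1)
    refine (c1.and hC c6).congr fun z => ?_
    rw [hW]
    unfold Vl
    simp only [decide_eq_true_eq]
    refine and_congr_right fun _ => ?_
    constructor
    · intro h k hk1 hk2
      refine h k ?_ hk1 hk2
      have s1 := sz_nat_le k
      have s2 : k.size ≤ p.eval z.1.1.1.length + 2 := Nat.size_le.2 (lt_of_le_of_lt hk2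
        (Nat.pow_lt_pow_right (by norm_num) (by omega)))
      have s3 : z.1.1.1.length ≤ sz z := by
        have t1 := length_lt_sz z.1.1.1
        have t2 : sz z = sz z.1 + sz z.2 + 1 := sz_pair z.1 z.2
        have t3 : sz z.1 = sz z.1.1 + sz z.1.2 + 1 := sz_pair z.1.1 z.1.2
        have t4 : sz z.1.1 = sz z.1.1.1 + sz z.1.1.2 + 1 := sz_pair z.1.1.1 z.1.1.2
        omega
      have s4 := eval_mono p s3
      simp only [Polynomial.eval_add, Polynomial.eval_mul, Polynomial.eval_C,
        Polynomial.eval_one, Polynomial.eval_ofNat]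
      omega
    · intro h k _ hk1 hk2
      exact h k hk1 hk2
  -- the local test
  set chk : (List Bool × List Item) × List Bool → Prop := fun z =>
    (decide (z.2.length < p.eval z.1.1.length) = true → ∃ c : ℕ × ℕ,
      sz c ≤ (Polynomial.C 8 * (p + 2) + 3).eval (sz z) ∧ W ((z.1, z.2 ++ [false]), c.1) ∧
        W ((z.1, z.2 ++ [true]), c.2) ∧ W (z, c.1 + c.2)) ∧
    (decide (z.2.length = p.eval z.1.1.length) = true →
      W (z, if decide (V (pairBits z.1.1 z.2) = [true]) = true then 1 else 0)) with hchk
  have hchkp : CPr C chk := by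
    have e1 : Poly (fun z : (List Bool × List Item) × List Bool => z.1.1) :=
      NPC.Poly.fst (NPC.Poly.fst NPC.Poly.id)
    have e2 : Poly (fun z : (List Bool × List Item) × List Bool => z.2) :=
      NPC.Poly.snd NPC.Poly.id
    have u1 : Poly (fun z : (List Bool × List Item) × List Bool =>
        p.eval z.1.1.length) := ((UPoly.length e1).eval p).toPoly
    have c1 : CPr C (fun z : (List Bool × List Item) × List Bool =>
        decide (z.2.length < p.eval z.1.1.length) = true) :=
      CPr.poly hC (NPC.Poly.decide_lt (NPC.Poly.length e2) u1)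
    have c2 : CPr C (fun z : (List Bool × List Item) × List Bool =>
        decide (z.2.length = p.eval z.1.1.length) = true) :=
      CPr.poly hC (NPC.Poly.decide_eq (NPC.Poly.length e2) u1)
    have g0 : Poly (fun q : ((List Bool × List Item) × List Bool) × (ℕ × ℕ) => q.1) :=
      NPC.Poly.fst NPC.Poly.id
    have g1 : Poly (fun q : ((List Bool × List Item) × List Bool) × (ℕ × ℕ) => q.2.1) :=
      NPC.Poly.fst (NPC.Poly.snd NPC.Poly.id)
    have g2 : Poly (fun q : ((List Bool × List Item) × List Bool) × (ℕ × ℕ) => q.2.2) :=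
      NPC.Poly.snd (NPC.Poly.snd NPC.Poly.id)
    have g3 : Poly (fun q : ((List Bool × List Item) × List Bool) × (ℕ × ℕ) => q.1.1) :=
      NPC.Poly.fst g0
    have g4 : Poly (fun q : ((List Bool × List Item) × List Bool) × (ℕ × ℕ) => q.1.2) :=
      NPC.Poly.snd g0
    have d0 : CPr C (fun q : ((List Bool × List Item) × List Bool) × (ℕ × ℕ) =>
        W ((q.1.1, q.1.2 ++ [false]), q.2.1)) :=
      hWp.comp hC (NPC.Poly.pair (NPC.Poly.pair g3 (NPC.Poly.append g4
        (NPC.Poly.const [false]))) g1)
    have d1 : CPr C (fun q : ((List Bool × List Item) × List Bool) × (ℕ × ℕ) =>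
        W ((q.1.1, q.1.2 ++ [true]), q.2.2)) :=
      hWp.comp hC (NPC.Poly.pair (NPC.Poly.pair g3 (NPC.Poly.append g4
        (NPC.Poly.const [true]))) g2)
    have d2 : CPr C (fun q : ((List Bool × List Item) × List Bool) × (ℕ × ℕ) =>
        W (q.1, q.2.1 + q.2.2)) :=
      hWp.comp hC (NPC.Poly.pair g0 (NPC.Poly.add g1 g2))
    have c3 := CPr.ex hC (P := fun q : ((List Bool × List Item) × List Bool) × (ℕ × ℕ) =>
      W ((q.1.1, q.1.2 ++ [false]), q.2.1) ∧ W ((q.1.1, q.1.2 ++ [true]), q.2.2) ∧
        W (q.1, q.2.1 + q.2.2)) (d0.and hC (d1.and hC d2)) (Polynomial.C 8 * (p + 2) + 3)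
    have d3 : Poly (fun z : (List Bool × List Item) × List Bool =>
        decide (V (pairBits z.1.1 z.2) = [true])) :=
      NPC.Poly.decide_eq (hVp.comp (H622R2.poly_pairBits e1 e2)) (NPC.Poly.const _)
    have c4 : CPr C (fun z : (List Bool × List Item) × List Bool =>
        W (z, if decide (V (pairBits z.1.1 z.2) = [true]) = true then 1 else 0)) :=
      hWp.comp hC (NPC.Poly.pair NPC.Poly.id (NPC.Poly.ite
        (NPC.Poly.decide_eq d3 (NPC.Poly.const true)) (NPC.Poly.const 1) (NPC.Poly.const 0)))
    rw [hchk]
    exact (c1.imp hC c3).and hC (c2.imp hC c4)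
  have hsz : ∀ x : List Bool, x.length ≤ sz x := fun x => (length_lt_sz x).le
  have hval : CPr C (fun x : List Bool => 2 ^ p.eval x.length < 2 * cntP V p (x, [])) := by
    refine sigmaC hC hchkp (out := fun z : List Bool × List Item =>
      ∃ c : ℕ, sz c ≤ (Polynomial.C 4 * (p + 2) + 1).eval (sz z) ∧ W ((z, []), c) ∧
        decide (2 ^ p.eval z.1.length < 2 * c) = true) ?_ (Pa.comp nP) p
        (fun x => ?_) (fun x a hxa => ?_)
    · have g0 : Poly (fun q : (List Bool × List Item) × ℕ => q.1) := NPC.Poly.fst NPC.Poly.id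
      have g1 : Poly (fun q : (List Bool × List Item) × ℕ => q.2) := NPC.Poly.snd NPC.Poly.id
      have c1 : CPr C (fun q : (List Bool × List Item) × ℕ => W ((q.1, []), q.2)) :=
        hWp.comp hC (NPC.Poly.pair (NPC.Poly.pair g0 (NPC.Poly.const [])) g1)
      have c2 : CPr C (fun q : (List Bool × List Item) × ℕ =>
          decide (2 ^ p.eval q.1.1.length < 2 * q.2) = true) :=
        CPr.poly hC (NPC.Poly.decide_lt (two_pow_poly ((UPoly.length (NPC.Poly.fst g0)).eval p))
          (NPC.Poly.mul (NPC.Poly.const 2) g1))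
      exact CPr.ex hC (P := fun q : (List Bool × List Item) × ℕ => W ((q.1, []), q.2) ∧
        decide (2 ^ p.eval q.1.1.length < 2 * q.2) = true) (c1.and hC c2)
        (Polynomial.C 4 * (p + 2) + 1)
    · obtain ⟨adv, h1, h2⟩ := hadv (nP.eval (sz x)) x (by
        rw [hnP]
        simp only [Polynomial.eval_add, Polynomial.eval_mul, Polynomial.eval_C,
          Polynomial.eval_X, Polynomial.eval_ofNat]
        omega)
      refine ⟨adv, by rw [Polynomial.eval_comp]; exact h1, fun w hw => ?_⟩
      have key : ∀ u : List Bool, u.length ≤ p.eval x.length →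
          W (((x, adv), u), cntP V p (x, u)) := by
        intro u hu
        rw [hW]
        refine ⟨cntP_lt V p x u, fun k hk1 hk2 => ?_⟩
        rw [hDv]
        simp only
        rw [h2 (bits ((u, k) : List Bool × ℕ)) ?_, hFA]
        · constructor
          · exact fun h => h.2
          · exact fun h => ⟨hk1, h⟩
        · rw [bits_length, sz_pair, hnP]
          simp only [Polynomial.eval_add, Polynomial.eval_mul, Polynomial.eval_C,
            Polynomial.eval_X, Polynomial.eval_ofNat]
          have g1 := sz_listBool_le u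
          have g2 := sz_nat_le k
          have hk3 : k ≤ 2 ^ (p.eval x.length + 1) := hk2
          have g3 : k.size ≤ p.eval x.length + 2 := Nat.size_le.2 (lt_of_le_of_lt hk3
            (Nat.pow_lt_pow_right (by norm_num) (by omega)))
          have g4 := eval_mono p (hsz x)
          omega
      rw [hchk]
      refine ⟨fun g1 => ?_, fun g1 => ?_⟩
      · rw [decide_eq_true_eq] at g1
        simp only at g1
        refine ⟨(cntP V p (x, w ++ [false]), cntP V p (x, w ++ [true])), ?_,
          key _ (by simp; omega), key _ (by simp; omega), ?_⟩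
        · have s1 := sz_nat_le (cntP V p (x, w ++ [false]))
          have s2 := sz_nat_le (cntP V p (x, w ++ [true]))
          have s3 : (cntP V p (x, w ++ [false])).size ≤ p.eval x.length + 1 :=
            Nat.size_le.2 (cntP_lt V p x _)
          have s4 : (cntP V p (x, w ++ [true])).size ≤ p.eval x.length + 1 :=
            Nat.size_le.2 (cntP_lt V p x _)
          have s5 : x.length ≤ sz (((x, adv), w) : (List Bool × List Item) × List Bool) := by
            have := hsz x
            rw [sz_pair, sz_pair]
            omega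
          have s6 := eval_mono p s5
          have s7 : sz ((cntP V p (x, w ++ [false]), cntP V p (x, w ++ [true])) : ℕ × ℕ) =
              sz (cntP V p (x, w ++ [false])) + sz (cntP V p (x, w ++ [true])) + 1 := sz_pair _ _
          rw [s7]
          simp only [Polynomial.eval_add, Polynomial.eval_mul, Polynomial.eval_C,
            Polynomial.eval_ofNat]
          omega
        · have := key w g1.le
          rw [cntP_step V p x w g1] at this
          exact this
      · rw [decide_eq_true_eq] at g1
        simp only at g1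
        have := key w g1.le
        rw [cntP_leaf V p x w g1] at this
        simp only
        by_cases g3 : V (pairBits x w) = [true]
        · simpa [g3] using this
        · simpa [g3] using this
    · have key : ∀ (k : ℕ) (u : List Bool), u.length + k = p.eval x.length →
          W (((x, a), u), cntP V p (x, u)) := by
        intro k
        have hle : ∀ u : List Bool, u.length ≤ p.eval x.length →
            u.length ≤ p.eval (sz x) := fun u hu => hu.trans (eval_mono p (hsz x))
        induction k with
        | zero =>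
          intro u hu
          have h1 := hxa u (hle u (by omega))
          rw [hchk] at h1
          have h2 := h1.2 (by rw [decide_eq_true_eq]; simp only; omega)
          simp only at h2
          rw [cntP_leaf V p x u (by omega)]
          by_cases g3 : V (pairBits x u) = [true]
          · simpa [g3] using h2
          · simpa [g3] using h2
        | succ k ih =>
          intro u hu
          have h1 := hxa u (hle u (by omega))
          rw [hchk] at h1
          obtain ⟨c, _, h2, h3, h4⟩ := h1.1 (by rw [decide_eq_true_eq]; simp only; omega)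
          simp only at h2 h3 h4
          have e0 : (List.length (u ++ [false])) = u.length + 1 := by simp
          have e1 : (List.length (u ++ [true])) = u.length + 1 := by simp
          have i0 := ih (u ++ [false]) (by rw [e0]; omega)
          have i1 := ih (u ++ [true]) (by rw [e1]; omega)
          rw [hW] at h2 h3 i0 i1
          have e2 : c.1 = cntP V p (x, u ++ [false]) := h2.unique i0
          have e3 : c.2 = cntP V p (x, u ++ [true]) := h3.unique i1
          rw [e2, e3, ← cntP_step V p x u (by omega)] at h4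
          exact h4
      have h1 := key (p.eval x.length) [] (by simp)
      constructor
      · rintro ⟨c, _, h2, h3⟩
        rw [decide_eq_true_eq] at h3
        rw [hW] at h1 h2
        have e2 : c = cntP V p (x, []) := h2.unique h1
        rw [← e2]
        exact h3
      · intro h2
        refine ⟨cntP V p (x, []), ?_, h1, by rw [decide_eq_true_eq]; exact h2⟩
        have s1 := sz_nat_le (cntP V p (x, []))
        have s3 : (cntP V p (x, [])).size ≤ p.eval x.length + 1 :=
          Nat.size_le.2 (cntP_lt V p x _)
        have s5 : x.length ≤ sz ((x, a) : List Bool × List Item) := by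
          have := hsz x
          rw [sz_pair]
          omega
        have s6 := eval_mono p s5
        simp only [Polynomial.eval_add, Polynomial.eval_mul, Polynomial.eval_C,
          Polynomial.eval_ofNat, Polynomial.eval_one]
        omega
  have h1 := CPr.to_raw hC hval
  have e : L = {x | 2 ^ p.eval x.length < 2 * cntP V p (x, [])} := Set.ext fun x => by
    rw [hL x, Set.mem_setOf_eq]
    have e1 : cntP V p (x, []) = Nat.card {w : List Bool // w.length = p.eval x.length ∧
        V (pairBits x w) = [true]} := by
      unfold cntP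
      simp only [List.length_nil, Nat.sub_zero, List.nil_append]
      rw [bsum_eq_card]
      refine Nat.card_congr (Equiv.subtypeEquivRight fun w => ?_)
      rw [decide_eq_true_iff]
    rw [e1]
  rw [e]
  exact h1

/-- **The threshold law in a class.** -/
theorem class_law (hC : Cl C) {X : Set (List Bool) → Prop}
    {H : Set (List Bool) → Prop} (hsub : ∀ A, H A → HasAdv C A → ∀ L, X L → C L)
    {U : Set (List Bool)} (hU : H U) (hUX : X U) {f : ℕ → ℝ} {ε : ℝ} (hε : 0 < ε)
    (hf1 : ∀ m : ℕ, 1 ≤ m → f m ≤ Real.sqrt m)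
    (hf : Filter.Tendsto (fun m : ℕ => f m / Real.sqrt (Real.log m)) Filter.atTop Filter.atTop) :
    List.TFAE
      [∀ L : Set (List Bool), X L → C L,
        ∃ A : Set (List Bool), H A ∧ PredIn C f ε A,
        ∀ A : Set (List Bool), X A → FullyPredIn C f A] := by
  tfae_have 1 → 3 := fun h A hA => fullyPredIn_of_in hC hf1 (h A hA)
  tfae_have 3 → 2 := fun h => ⟨U, hU, (h U hUX).predIn hC ε⟩
  tfae_have 2 → 1 := fun ⟨A, hA, h⟩ => hsub A hA (hasAdv_of_predIn hC hf hε h)
  tfae_finish

end

end Pool.Agent.W901.NU
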